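import Mathlib

/-!
# MP_3080d1_gt (Wunderlich): closed mirror curves focusing after two reflections

Answer to Q1 (and hence to Q2): **no**.  No closed analytic curve focuses a point `x` of its
interior onto a different point `y` of its interior after two reflections.

Outline.  Light paths are reversible, so the relation `x → γ t → γ f → y` is a twice reflected ray
is symmetric under exchanging `(x, t)` and `(y, f)`.  By analyticity it is, locally at the points of
length `> |x - y|`, the graph of an analytic function with nonvanishing derivative; the total length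
is constant along it.  A minimization argument shows that the derivative is positive.  A second order
computation at a tangential first hit gives a contradiction, so that the curve is star-shaped and
transversal as seen from `x`; the same holds for `y`.  Then the relation is a bijection of the curve,
the line `xy` meets the curve orthogonally in `P`, `P'`, and `P`, `P'` correspond to each other.
Comparing the two compositions of the correspondence with itself near `P` and near `P'` gives a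
contradiction.
-/

open Set Filter Topology
open scoped ContDiff

namespace Pool.Agent.Results.MP_3080d1_gt.NoTwoReflectionFocus

/-! ### Public definitions -/

/-- Specular reflection: mirror image of the direction `u` in the line spanned by the tangent
vector `τ` (the tangential component of `u` is kept, the normal component changes sign). -/
noncomputable def reflectDir (τ u : ℂ) : ℂ := (2 * inner ℝ τ u / ‖τ‖ ^ 2 : ℝ) • τ - u

/-- `γ` is a regular, `T`-periodic, real-analytic parametrization of a simple closed curve. -/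
structure AnalyticClosedCurve (γ : ℝ → ℂ) (T : ℝ) : Prop where
  period_pos : 0 < T
  analytic : ∀ t, AnalyticAt ℝ γ t
  periodic : Function.Periodic γ T
  regular : ∀ t, deriv γ t ≠ 0
  simple : Set.InjOn γ (Set.Ico 0 T)

/-- `Ω` is a bounded open connected region whose boundary is the curve `range γ`. -/
structure BoundedRegionOf (γ : ℝ → ℂ) (Ω : Set ℂ) : Prop where
  isOpen : IsOpen Ω
  isConnected : IsConnected Ω
  isBounded : Bornology.IsBounded Ω
  frontier_eq : frontier Ω = Set.range γ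

/-- The light ray leaving `x` in direction `u` runs inside `Ω` to `γ t₁`, is reflected there, runs
inside `Ω` to `γ t₂`, is reflected there, and then runs inside `Ω` to `y`. -/
def PassesAfterTwo (γ : ℝ → ℂ) (Ω : Set ℂ) (x y u : ℂ) : Prop :=
  ∃ t₁ t₂ r₁ r₂ r₃ : ℝ, 0 < r₁ ∧ 0 < r₂ ∧ 0 < r₃ ∧
    γ t₁ = x + r₁ • u ∧
    γ t₂ = γ t₁ + r₂ • reflectDir (deriv γ t₁) u ∧
    y = γ t₂ + r₃ • reflectDir (deriv γ t₂) (reflectDir (deriv γ t₁) u) ∧
    openSegment ℝ x (γ t₁) ⊆ Ω ∧ openSegment ℝ (γ t₁) (γ t₂) ⊆ Ω ∧ openSegment ℝ (γ t₂) y ⊆ Ω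

/-- The same, but the three legs are only required to stay in the closure of `Ω`; in particular they
may touch the curve, so this also covers the convention in which grazing contacts are not counted
as reflections. -/
def WeaklyPassesAfterTwo (γ : ℝ → ℂ) (Ω : Set ℂ) (x y u : ℂ) : Prop :=
  ∃ t₁ t₂ r₁ r₂ r₃ : ℝ, 0 < r₁ ∧ 0 < r₂ ∧ 0 < r₃ ∧
    γ t₁ = x + r₁ • u ∧
    γ t₂ = γ t₁ + r₂ • reflectDir (deriv γ t₁) u ∧
    y = γ t₂ + r₃ • reflectDir (deriv γ t₂) (reflectDir (deriv γ t₁) u) ∧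
    segment ℝ x (γ t₁) ⊆ closure Ω ∧ segment ℝ (γ t₁) (γ t₂) ⊆ closure Ω ∧
    segment ℝ (γ t₂) y ⊆ closure Ω

/-- `C = range γ` focuses `x` onto `y` after two reflections. -/
def FocusesAfterTwo (γ : ℝ → ℂ) (Ω : Set ℂ) (x y : ℂ) : Prop :=
  ∀ u : ℂ, ‖u‖ = 1 → PassesAfterTwo γ Ω x y u

section part1

/-! ### Plane algebra -/

def cross (a b : ℂ) : ℝ := a.re * b.im - a.im * b.re

def dot (a b : ℂ) : ℝ := a.re * b.re + a.im * b.im

/-- Unnormalised reflection: `|τ|²` times the mirror image of `v` in the line spanned by `τ`. -/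
noncomputable def rf (τ v : ℂ) : ℂ := (2 * dot τ v) • τ - (dot τ τ) • v

lemma cross_rf_rf (τ a b : ℂ) : cross (rf τ a) (rf τ b) = -(dot τ τ) ^ 2 * cross a b := by
  simp [cross, rf, dot]; ring

lemma dot_rf_rf (τ a b : ℂ) : dot (rf τ a) (rf τ b) = (dot τ τ) ^ 2 * dot a b := by
  simp [rf, dot]; ring

lemma cross_tau_rf (τ v : ℂ) : cross τ (rf τ v) = -(dot τ τ) * cross τ v := by
  simp [cross, rf, dot]; ring

lemma dot_tau_rf (τ v : ℂ) : dot τ (rf τ v) = (dot τ τ) * dot τ v := by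
  simp [rf, dot]; ring

lemma rf_rf (τ v : ℂ) : rf τ (rf τ v) = ((dot τ τ) ^ 2) • v := by
  apply Complex.ext <;>
    simp only [rf, dot, Complex.sub_re, Complex.sub_im, Complex.smul_re, Complex.smul_im,
      smul_eq_mul] <;> ring

lemma rf_smul (τ v : ℂ) (r : ℝ) : rf τ (r • v) = r • rf τ v := by
  apply Complex.ext <;> simp [rf, dot] <;> ring

lemma rf_neg (τ v : ℂ) : rf τ (-v) = - rf τ v := by
  apply Complex.ext <;> simp [rf, dot] <;> ring

lemma dot_self (a : ℂ) : dot a a = ‖a‖ ^ 2 := by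
  rw [← Complex.normSq_eq_norm_sq, Complex.normSq_apply, dot]

lemma dot_self_pos {a : ℂ} (h : a ≠ 0) : 0 < dot a a := by
  rw [dot_self]; positivity

lemma cross_self (a : ℂ) : cross a a = 0 := by simp [cross]; ring

lemma cross_comm (a b : ℂ) : cross a b = - cross b a := by simp [cross]; ring

lemma dot_comm (a b : ℂ) : dot a b = dot b a := by simp [dot]; ring

lemma cross_sub_right (a b c : ℂ) : cross a (b - c) = cross a b - cross a c := by
  simp [cross]; ring

lemma cross_smul_left (r : ℝ) (a b : ℂ) : cross (r • a) b = r * cross a b := by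
  simp [cross]; ring

lemma cross_smul_right (r : ℝ) (a b : ℂ) : cross a (r • b) = r * cross a b := by
  simp [cross]; ring

lemma dot_smul_left (r : ℝ) (a b : ℂ) : dot (r • a) b = r * dot a b := by
  simp [dot]; ring

lemma dot_smul_right (r : ℝ) (a b : ℂ) : dot a (r • b) = r * dot a b := by
  simp [dot]; ring

lemma lagrange (a b : ℂ) : (cross a b) ^ 2 + (dot a b) ^ 2 = dot a a * dot b b := by
  simp [cross, dot]; ring

/-- decomposition of a vector along another one -/
lemma smul_decomp (a b : ℂ) : (dot a a) • b = (dot a b) • a + (cross a b) • (Complex.I * a) := by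
  apply Complex.ext <;> simp [cross, dot] <;> ring

lemma eq_smul_of_cross {a b : ℂ} (ha : a ≠ 0) (h : cross a b = 0) :
    b = (dot a b / dot a a) • a := by
  have h1 := smul_decomp a b
  rw [h, zero_smul, add_zero] at h1
  have hp := dot_self_pos ha
  rw [div_eq_inv_mul, mul_smul, ← h1, smul_smul, inv_mul_cancel₀ hp.ne', one_smul]

lemma rf_ne_zero {τ v : ℂ} (hτ : τ ≠ 0) (hv : v ≠ 0) : rf τ v ≠ 0 := by
  intro h
  have := dot_rf_rf τ v v
  rw [h] at this
  have h1 : dot (0 : ℂ) 0 = 0 := by simp [dot]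
  rw [h1] at this
  have h2 := dot_self_pos hτ
  have h3 := dot_self_pos hv
  have : 0 < (dot τ τ) ^ 2 * dot v v := by positivity
  linarith

/-- `Par a b`: `b` is a positive multiple of `a` (for nonzero `a`). -/
def Par (a b : ℂ) : Prop := cross a b = 0 ∧ 0 < dot a b

lemma Par.exists {a b : ℂ} (h : Par a b) : ∃ r : ℝ, 0 < r ∧ b = r • a := by
  have ha : a ≠ 0 := by
    rintro rfl
    have := h.2
    simp [dot] at this
  exact ⟨dot a b / dot a a, div_pos h.2 (dot_self_pos ha), eq_smul_of_cross ha h.1⟩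

lemma par_of_smul {a : ℂ} (ha : a ≠ 0) {r : ℝ} (hr : 0 < r) : Par a (r • a) := by
  refine ⟨by rw [cross_smul_right, cross_self, mul_zero], ?_⟩
  rw [dot_smul_right]
  exact mul_pos hr (dot_self_pos ha)

lemma Par.ne_left {a b : ℂ} (h : Par a b) : a ≠ 0 := by
  rintro rfl
  have := h.2
  simp [dot] at this

lemma Par.ne_right {a b : ℂ} (h : Par a b) : b ≠ 0 := by
  rintro rfl
  have := h.2
  simp [dot] at this

lemma Par.symm {a b : ℂ} (h : Par a b) : Par b a := by
  refine ⟨by rw [cross_comm, h.1, neg_zero], by rw [dot_comm]; exact h.2⟩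

lemma Par.trans {a b c : ℂ} (h : Par a b) (h' : Par b c) : Par a c := by
  obtain ⟨r, hr, rfl⟩ := h.exists
  obtain ⟨s, hs, rfl⟩ := h'.exists
  rw [smul_smul]
  exact par_of_smul h.ne_left (mul_pos hs hr)

lemma Par.norm_eq {a b : ℂ} (h : Par a b) : dot a b = ‖a‖ * ‖b‖ := by
  have h1 := lagrange a b
  rw [h.1, dot_self, dot_self] at h1
  have h2 : (dot a b) ^ 2 = (‖a‖ * ‖b‖) ^ 2 := by nlinarith
  have h3 : 0 ≤ ‖a‖ * ‖b‖ := by positivity
  nlinarith [h.2, sq_nonneg (dot a b - ‖a‖ * ‖b‖), sq_nonneg (dot a b + ‖a‖ * ‖b‖)]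

lemma Par.add_norm {a b : ℂ} (h : Par a b) : ‖a + b‖ = ‖a‖ + ‖b‖ := by
  obtain ⟨r, hr, rfl⟩ := h.exists
  have : a + r • a = (1 + r) • a := by rw [add_smul, one_smul]
  rw [this, norm_smul, norm_smul, Real.norm_of_nonneg hr.le, Real.norm_of_nonneg (by linarith)]
  ring

/-! ### Implicit function theorem in the plane -/

lemma ift {g : ℝ × ℝ → ℝ} {z : ℝ × ℝ} (hg : AnalyticAt ℝ g z) (h0 : g z = 0) {c : ℝ}
    (hd : HasDerivAt (fun s => g (z.1, s)) c z.2) (hc : c ≠ 0) :
    ∃ F : ℝ → ℝ, AnalyticAt ℝ F z.1 ∧ F z.1 = z.2 ∧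
      ∀ᶠ w in 𝓝 z, (g w = 0 ↔ w.2 = F w.1) := by
  have cdf : ContDiffAt ℝ ω g z := hg.contDiffAt
  have hfd := hg.differentiableAt.hasFDerivAt
  have hinr : HasDerivAt (fun s : ℝ => ((z.1, s) : ℝ × ℝ)) ((0, 1) : ℝ × ℝ) z.2 := by
    exact (hasDerivAt_const _ _).prodMk (hasDerivAt_id _)
  have hcomp : HasDerivAt (fun s => g (z.1, s)) ((fderiv ℝ g z) (0, 1)) z.2 := by
    have h1 : HasFDerivAt g (fderiv ℝ g z) ((fun s : ℝ => ((z.1, s) : ℝ × ℝ)) z.2) := hfd
    exact h1.comp_hasDerivAt z.2 hinr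
  have hval : (fderiv ℝ g z) (0, 1) = c := hcomp.unique hd
  have hinv : (fderiv ℝ g z ∘L .inr ℝ ℝ ℝ).IsInvertible := by
    refine ⟨ContinuousLinearEquiv.smulLeft (Units.mk0 c hc), ?_⟩
    ext
    simp [hval]
  refine ⟨cdf.implicitFunction (by simp) hinv, ?_, ?_, ?_⟩
  · exact (cdf.contDiffAt_implicitFunction (by simp) hinv).analyticAt
  · exact cdf.implicitFunction_apply_self (by simp) hinv
  · filter_upwards [cdf.eventually_apply_eq_iff_implicitFunction (by simp) hinv] with w hw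
    rw [h0] at hw
    rw [hw]
    exact eq_comm


/-! ### Calculus of `cross`, `dot`, `rf` -/

section analyticity
variable {E : Type*} [NormedAddCommGroup E] [NormedSpace ℝ E]

lemma an_re {a : E → ℂ} {t : E} (ha : AnalyticAt ℝ a t) : AnalyticAt ℝ (fun s => (a s).re) t :=
  (Complex.reCLM.analyticAt _).comp ha

lemma an_im {a : E → ℂ} {t : E} (ha : AnalyticAt ℝ a t) : AnalyticAt ℝ (fun s => (a s).im) t :=
  (Complex.imCLM.analyticAt _).comp ha

lemma an_cross {a b : E → ℂ} {t : E} (ha : AnalyticAt ℝ a t) (hb : AnalyticAt ℝ b t) :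
    AnalyticAt ℝ (fun s => cross (a s) (b s)) t :=
  ((an_re ha).mul (an_im hb)).sub ((an_im ha).mul (an_re hb))

lemma an_dot {a b : E → ℂ} {t : E} (ha : AnalyticAt ℝ a t) (hb : AnalyticAt ℝ b t) :
    AnalyticAt ℝ (fun s => dot (a s) (b s)) t :=
  ((an_re ha).mul (an_re hb)).add ((an_im ha).mul (an_im hb))

lemma an_rf {a b : E → ℂ} {t : E} (ha : AnalyticAt ℝ a t) (hb : AnalyticAt ℝ b t) :
    AnalyticAt ℝ (fun s => rf (a s) (b s)) t := by
  have h1 := (analyticAt_const (𝕜 := ℝ) (v := (2 : ℝ)) (x := t)).mul (an_dot ha hb)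
  exact (h1.smul ha).sub ((an_dot ha ha).smul hb)

lemma cont_cross {X : Type*} [TopologicalSpace X] {a b : X → ℂ} {t : X} (ha : ContinuousAt a t)
    (hb : ContinuousAt b t) : ContinuousAt (fun s => cross (a s) (b s)) t := by
  unfold cross
  exact ((Complex.continuous_re.continuousAt.comp ha).mul
    (Complex.continuous_im.continuousAt.comp hb)).sub
    ((Complex.continuous_im.continuousAt.comp ha).mul
    (Complex.continuous_re.continuousAt.comp hb))

lemma cont_dot {X : Type*} [TopologicalSpace X] {a b : X → ℂ} {t : X} (ha : ContinuousAt a t)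
    (hb : ContinuousAt b t) : ContinuousAt (fun s => dot (a s) (b s)) t := by
  unfold dot
  exact ((Complex.continuous_re.continuousAt.comp ha).mul
    (Complex.continuous_re.continuousAt.comp hb)).add
    ((Complex.continuous_im.continuousAt.comp ha).mul
    (Complex.continuous_im.continuousAt.comp hb))

lemma cont_rf {X : Type*} [TopologicalSpace X] {a b : X → ℂ} {t : X} (ha : ContinuousAt a t)
    (hb : ContinuousAt b t) : ContinuousAt (fun s => rf (a s) (b s)) t := by
  unfold rf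
  exact ((continuousAt_const.mul (cont_dot ha hb)).smul ha).sub ((cont_dot ha ha).smul hb)

end analyticity

lemma hd_re {a : ℝ → ℂ} {a' : ℂ} {t : ℝ} (ha : HasDerivAt a a' t) :
    HasDerivAt (fun s => (a s).re) a'.re t :=
  (Complex.reCLM.hasFDerivAt (x := a t)).comp_hasDerivAt t ha

lemma hd_im {a : ℝ → ℂ} {a' : ℂ} {t : ℝ} (ha : HasDerivAt a a' t) :
    HasDerivAt (fun s => (a s).im) a'.im t :=
  (Complex.imCLM.hasFDerivAt (x := a t)).comp_hasDerivAt t ha

lemma hd_cross {a b : ℝ → ℂ} {a' b' : ℂ} {t : ℝ} (ha : HasDerivAt a a' t)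
    (hb : HasDerivAt b b' t) :
    HasDerivAt (fun s => cross (a s) (b s)) (cross a' (b t) + cross (a t) b') t := by
  have h := ((hd_re ha).mul (hd_im hb)).sub ((hd_im ha).mul (hd_re hb))
  convert! h using 1
  simp [cross]; ring

lemma hd_dot {a b : ℝ → ℂ} {a' b' : ℂ} {t : ℝ} (ha : HasDerivAt a a' t)
    (hb : HasDerivAt b b' t) :
    HasDerivAt (fun s => dot (a s) (b s)) (dot a' (b t) + dot (a t) b') t := by
  have h := ((hd_re ha).mul (hd_re hb)).add ((hd_im ha).mul (hd_im hb))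
  convert! h using 1
  simp [dot]; ring

/-- derivative of the distance to a (moving) point -/
lemma hd_norm {a : ℝ → ℂ} {a' : ℂ} {t : ℝ} (ha : HasDerivAt a a' t) (h0 : a t ≠ 0) :
    HasDerivAt (fun s => ‖a s‖) (dot (a t) a' / ‖a t‖) t := by
  have h1 := hd_dot ha ha
  have h2 : HasDerivAt (fun s => Real.sqrt (dot (a s) (a s)))
      ((dot a' (a t) + dot (a t) a') / (2 * Real.sqrt (dot (a t) (a t)))) t :=
    h1.sqrt (dot_self_pos h0).ne'
  have e : (fun s => Real.sqrt (dot (a s) (a s))) = fun s => ‖a s‖ := by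
    funext s
    rw [dot_self, Real.sqrt_sq (norm_nonneg _)]
  rw [e] at h2
  convert! h2 using 1
  rw [dot_self, Real.sqrt_sq (norm_nonneg _), dot_comm a' (a t)]
  have : ‖a t‖ ≠ 0 := norm_ne_zero_iff.mpr h0
  field_simp
  ring

/-! ### The curve and the relation -/

structure Curve (γ : ℝ → ℂ) : Prop where
  an : ∀ t, AnalyticAt ℝ γ t
  per : ∀ t, γ (t + 1) = γ t
  reg : ∀ t, deriv γ t ≠ 0
  inj : ∀ s t, γ s = γ t → ∃ k : ℤ, s = t + k

variable {γ : ℝ → ℂ} {x y : ℂ}

/-- outgoing (unnormalised) direction at `γ t` of the ray coming from `x` -/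
noncomputable def out (γ : ℝ → ℂ) (x : ℂ) (t : ℝ) : ℂ := rf (deriv γ t) (γ t - x)

/-- `x → γ t → γ f → y` is a (virtual) twice reflected ray. -/
def Rel (γ : ℝ → ℂ) (x y : ℂ) (t f : ℝ) : Prop :=
  Par (out γ x t) (γ f - γ t) ∧ Par (out γ y f) (γ t - γ f)

noncomputable def Len (γ : ℝ → ℂ) (x y : ℂ) (t f : ℝ) : ℝ :=
  ‖γ t - x‖ + ‖γ f - γ t‖ + ‖γ f - y‖

lemma Rel.swap {t f : ℝ} (h : Rel γ x y t f) : Rel γ y x f t := ⟨h.2, h.1⟩

lemma Len_swap (γ : ℝ → ℂ) (x y : ℂ) (t f : ℝ) : Len γ x y t f = Len γ y x f t := by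
  unfold Len; rw [norm_sub_rev (γ f) (γ t)]; ring

lemma Curve.hd (h : Curve γ) (t : ℝ) : HasDerivAt γ (deriv γ t) t :=
  (h.an t).differentiableAt.hasDerivAt

lemma Curve.an_deriv (h : Curve γ) (t : ℝ) : AnalyticAt ℝ (deriv γ) t := (h.an t).deriv

lemma Curve.cont (h : Curve γ) : Continuous γ := by
  rw [continuous_iff_continuousAt]; exact fun t => (h.an t).continuousAt

lemma Curve.cont_deriv (h : Curve γ) : Continuous (deriv γ) := by
  rw [continuous_iff_continuousAt]; exact fun t => (h.an_deriv t).continuousAt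

lemma Curve.an_out (h : Curve γ) (x : ℂ) (t : ℝ) : AnalyticAt ℝ (out γ x) t :=
  an_rf (h.an_deriv t) ((h.an t).sub analyticAt_const)

lemma Curve.cont_out (h : Curve γ) (x : ℂ) : Continuous (out γ x) := by
  rw [continuous_iff_continuousAt]; exact fun t => (h.an_out x t).continuousAt

lemma Curve.deriv_per (h : Curve γ) (t : ℝ) : deriv γ (t + 1) = deriv γ t := by
  have : (fun s => γ (s + 1)) = γ := funext h.per
  calc deriv γ (t + 1) = deriv (fun s => γ (s + 1)) t := by rw [deriv_comp_add_const]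
    _ = deriv γ t := by rw [this]

lemma Curve.per_int (h : Curve γ) (t : ℝ) (k : ℤ) : γ (t + k) = γ t := by
  have : Function.Periodic γ 1 := h.per
  simpa using this.int_mul k t

lemma Curve.deriv_per_int (h : Curve γ) (t : ℝ) (k : ℤ) : deriv γ (t + k) = deriv γ t := by
  have : Function.Periodic (deriv γ) 1 := h.deriv_per
  simpa using this.int_mul k t

lemma Curve.out_per_int (h : Curve γ) (x : ℂ) (t : ℝ) (k : ℤ) : out γ x (t + k) = out γ x t := by
  unfold out; rw [h.per_int, h.deriv_per_int]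

lemma Rel.shift (h : Curve γ) {t f : ℝ} (k l : ℤ) : Rel γ x y (t + k) (f + l) ↔ Rel γ x y t f := by
  unfold Rel; rw [h.per_int, h.per_int, h.out_per_int, h.out_per_int]

lemma Len_shift (h : Curve γ) {t f : ℝ} (k l : ℤ) : Len γ x y (t + k) (f + l) = Len γ x y t f := by
  unfold Len; rw [h.per_int, h.per_int]

end part1

section part2

variable {γ : ℝ → ℂ} {x y : ℂ}

lemma rf_of_cross_zero {τ v : ℂ} (h : cross τ v = 0) : rf τ v = (dot τ τ) • v := by
  have h1 := smul_decomp τ v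
  rw [h, zero_smul, add_zero] at h1
  unfold rf
  rw [mul_smul, ← h1, two_smul]; abel

lemma Rel.par_chord {t f : ℝ} (h : Rel γ x y t f) :
    ∃ c : ℝ, 0 < c ∧ out γ y f = -(c • out γ x t) := by
  obtain ⟨r, hr, h1⟩ := h.1.exists
  obtain ⟨s, hs, h2⟩ := h.2.symm.exists
  refine ⟨s * r, mul_pos hs hr, ?_⟩
  rw [h2, mul_smul, ← h1]
  rw [← smul_neg]; congr 1; abel

lemma trans_iff (hγ : Curve γ) {t f : ℝ} (h : Rel γ x y t f) :
    cross (out γ x t) (deriv γ f) = 0 ↔ cross (deriv γ f) (γ f - y) = 0 := by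
  obtain ⟨c, hc, h1⟩ := h.par_chord
  have h2 : cross (deriv γ f) (out γ y f) = -(dot (deriv γ f) (deriv γ f)) * cross (deriv γ f) (γ f - y) :=
    cross_tau_rf _ _
  have h3 : cross (deriv γ f) (out γ y f) = c * cross (out γ x t) (deriv γ f) := by
    rw [h1, ← smul_neg, cross_smul_right, cross_comm]
    have : cross (-out γ x t) (deriv γ f) = - cross (out γ x t) (deriv γ f) := by
      simp [cross]; ring
    rw [this]; ring
  have hp := dot_self_pos (hγ.reg f)
  constructor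
  · intro h0
    rw [h0, mul_zero] at h3
    rw [h3] at h2
    rcases mul_eq_zero.mp h2.symm with h4 | h4
    · linarith
    · exact h4
  · intro h0
    rw [h0, mul_zero] at h2
    rw [h2] at h3
    rcases mul_eq_zero.mp h3.symm with h4 | h4
    · linarith
    · exact h4

lemma len_of_tangent_both (hγ : Curve γ) {t f : ℝ} (h : Rel γ x y t f)
    (ht : cross (deriv γ t) (γ t - x) = 0) (hf : cross (deriv γ f) (γ f - y) = 0) :
    Len γ x y t f = ‖x - y‖ := by
  have e1 : out γ x t = (dot (deriv γ t) (deriv γ t)) • (γ t - x) := rf_of_cross_zero ht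
  have e2 : out γ y f = (dot (deriv γ f) (deriv γ f)) • (γ f - y) := rf_of_cross_zero hf
  have p1 : Par (γ t - x) (γ f - γ t) := by
    have hne : γ t - x ≠ 0 := by
      intro h0
      apply h.1.ne_left
      rw [e1, h0, smul_zero]
    refine Par.trans (par_of_smul hne (dot_self_pos (hγ.reg t))) ?_
    rw [← e1]; exact h.1
  have p2 : Par (γ t - γ f) (γ f - y) := by
    have hne : γ f - y ≠ 0 := by
      intro h0
      apply h.2.ne_left
      rw [e2, h0, smul_zero]
    refine Par.symm (Par.trans (par_of_smul hne (dot_self_pos (hγ.reg f))) ?_)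
    rw [← e2]; exact h.2
  have p3 : Par (γ f - γ t) (y - γ f) := by
    obtain ⟨r, hr, hh⟩ := p2.exists
    have : y - γ f = r • (γ f - γ t) := by
      have : y - γ f = -(γ f - y) := by abel
      rw [this, hh, ← smul_neg]; congr 1; abel
    rw [this]
    exact par_of_smul p1.ne_right hr
  have p4 : Par (γ t - x) ((γ f - γ t) + (y - γ f)) := by
    obtain ⟨r, hr, h1⟩ := p1.exists
    obtain ⟨s, hs, h2⟩ := p3.exists
    have : (γ f - γ t) + (y - γ f) = (r + s * r) • (γ t - x) := by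
      rw [h2, h1, smul_smul, add_smul]
    rw [this]
    exact par_of_smul p1.ne_left (by positivity)
  have n1 := p4.add_norm
  rw [p3.add_norm] at n1
  unfold Len
  have : γ t - x + (γ f - γ t + (y - γ f)) = y - x := by abel
  rw [this] at n1
  rw [norm_sub_rev x y, n1, norm_sub_rev y (γ f)]
  ring

/-- The set of relation pairs. -/
def RelSet (γ : ℝ → ℂ) (x y : ℂ) : Set (ℝ × ℝ) := {z | Rel γ x y z.1 z.2}

lemma eventually_pos_par (hγ : Curve γ) {F : ℝ → ℝ} {t : ℝ} (hF : ContinuousAt F t)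
    (h : Rel γ x y t (F t)) :
    ∀ᶠ s in 𝓝 t, 0 < dot (out γ x s) (γ (F s) - γ s) ∧ 0 < dot (out γ y (F s)) (γ s - γ (F s)) := by
  have c1 : ContinuousAt (fun s => γ (F s)) t := hγ.cont.continuousAt.comp hF
  have c2 : ContinuousAt (fun s => out γ y (F s)) t := (hγ.cont_out y).continuousAt.comp hF
  have h1 : ContinuousAt (fun s => dot (out γ x s) (γ (F s) - γ s)) t :=
    cont_dot (hγ.cont_out x).continuousAt (c1.sub hγ.cont.continuousAt)
  have h2 : ContinuousAt (fun s => dot (out γ y (F s)) (γ s - γ (F s))) t :=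
    cont_dot c2 (hγ.cont.continuousAt.sub c1)
  exact (h1.eventually_const_lt h.1.2).and (h2.eventually_const_lt h.2.2)

/-- local structure when the chord is transversal at its second endpoint -/
lemma locA (hγ : Curve γ) {z : ℝ × ℝ} (hz : Rel γ x y z.1 z.2) (hacc : AccPt z (𝓟 (RelSet γ x y)))
    (hf : cross (deriv γ z.2) (γ z.2 - y) ≠ 0) :
    ∃ F : ℝ → ℝ, AnalyticAt ℝ F z.1 ∧ F z.1 = z.2 ∧ (∀ᶠ s in 𝓝 z.1, Rel γ x y s (F s)) ∧
      ∀ᶠ w in 𝓝 z, Rel γ x y w.1 w.2 → w.2 = F w.1 := by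
  have hf' : cross (out γ x z.1) (deriv γ z.2) ≠ 0 := fun h0 => hf ((trans_iff hγ hz).mp h0)
  set g : ℝ × ℝ → ℝ := fun w => cross (out γ x w.1) (γ w.2 - γ w.1) with hg
  have hfst : AnalyticAt ℝ (fun w : ℝ × ℝ => w.1) z := analyticAt_fst
  have hsnd : AnalyticAt ℝ (fun w : ℝ × ℝ => w.2) z := analyticAt_snd
  have gan : AnalyticAt ℝ g z := by
    have a1 : AnalyticAt ℝ (fun w : ℝ × ℝ => out γ x w.1) z :=
      AnalyticAt.fun_comp (hγ.an_out x z.1) hfst
    have a2 : AnalyticAt ℝ (fun w : ℝ × ℝ => γ w.2) z := AnalyticAt.fun_comp (hγ.an z.2) hsnd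
    have a3 : AnalyticAt ℝ (fun w : ℝ × ℝ => γ w.1) z := AnalyticAt.fun_comp (hγ.an z.1) hfst
    exact an_cross a1 (a2.sub a3)
  have gd : HasDerivAt (fun s => g (z.1, s)) (cross (out γ x z.1) (deriv γ z.2)) z.2 := by
    have h1 := hd_cross (hasDerivAt_const z.2 (out γ x z.1))
      ((hγ.hd z.2).sub_const (γ z.1))
    convert! h1 using 1
    simp [cross]
  obtain ⟨F, hFan, hF0, hFe⟩ := ift gan hz.1.1 gd hf'
  -- uniqueness
  have huniq : ∀ᶠ w in 𝓝 z, Rel γ x y w.1 w.2 → w.2 = F w.1 := by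
    filter_upwards [hFe] with w hw hrel
    exact hw.mp hrel.1.1
  -- the second equation holds identically
  set k : ℝ → ℝ := fun s => cross (out γ y (F s)) (γ s - γ (F s)) with hk
  have kan : AnalyticAt ℝ k z.1 := by
    have a0 : AnalyticAt ℝ γ (F z.1) := hγ.an _
    have a1 : AnalyticAt ℝ (fun s => out γ y (F s)) z.1 := AnalyticAt.fun_comp (hγ.an_out y _) hFan
    have a2 : AnalyticAt ℝ (fun s => γ (F s)) z.1 := AnalyticAt.fun_comp a0 hFan
    exact an_cross a1 ((hγ.an z.1).sub a2)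
  have hfreq : ∃ᶠ s in 𝓝[≠] z.1, k s = 0 := by
    rw [accPt_iff_frequently] at hacc
    have h1 : ∃ᶠ w in 𝓝 z, (w ≠ z ∧ w ∈ RelSet γ x y) ∧ (Rel γ x y w.1 w.2 → w.2 = F w.1) :=
      hacc.and_eventually huniq
    have hmap : Tendsto (fun w : ℝ × ℝ => w.1) (𝓝 z) (𝓝 z.1) := continuousAt_fst
    have h2 : ∃ᶠ s in 𝓝 z.1, s ≠ z.1 ∧ k s = 0 := by
      refine hmap.frequently (h1.mono ?_)
      rintro w ⟨⟨hne, hmem⟩, himp⟩
      have hw2 : w.2 = F w.1 := himp hmem
      constructor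
      · intro heq
        apply hne
        apply Prod.ext heq
        rw [hw2, heq, hF0]
      · have : Rel γ x y w.1 w.2 := hmem
        rw [hw2] at this
        exact this.2.1
    rw [frequently_nhdsWithin_iff]
    exact h2.mono fun s hs => ⟨hs.2, hs.1⟩
  have hk0 : ∀ᶠ s in 𝓝 z.1, k s = 0 := kan.frequently_zero_iff_eventually_zero.mp hfreq
  refine ⟨F, hFan, hF0, ?_, huniq⟩
  have hcont : Tendsto (fun s => ((s, F s) : ℝ × ℝ)) (𝓝 z.1) (𝓝 z) := by
    have : ContinuousAt (fun s => ((s, F s) : ℝ × ℝ)) z.1 :=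
      continuousAt_id.prodMk hFan.continuousAt
    have h2 : ((z.1, F z.1) : ℝ × ℝ) = z := Prod.ext rfl hF0
    have h3 : Tendsto (fun s => ((s, F s) : ℝ × ℝ)) (𝓝 z.1) (𝓝 (z.1, F z.1)) := this
    rw [h2] at h3
    exact h3
  have hrel0 : Rel γ x y z.1 (F z.1) := by rw [hF0]; exact hz
  filter_upwards [hk0, hcont.eventually hFe, eventually_pos_par hγ hFan.continuousAt hrel0]
    with s h1 h2 h3
  exact ⟨⟨h2.mpr rfl, h3.1⟩, ⟨h1, h3.2⟩⟩


/-- A closed regular analytic curve is not contained, even locally, in a line. -/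
lemma not_line (hγ : Curve γ) {a v : ℂ} (hv : v ≠ 0) (t₀ : ℝ) :
    ¬ ∀ᶠ t in 𝓝 t₀, cross v (γ t - a) = 0 := by
  intro h
  have han : AnalyticOnNhd ℝ (fun t => cross v (γ t - a)) univ := fun t _ =>
    an_cross analyticAt_const ((hγ.an t).sub analyticAt_const)
  have h0 : AnalyticOnNhd ℝ (fun _ : ℝ => (0 : ℝ)) univ := fun t _ => analyticAt_const
  have heq : (fun t => cross v (γ t - a)) = fun _ => 0 :=
    han.eq_of_eventuallyEq h0 h
  have hcr : ∀ t, cross v (deriv γ t) = 0 := by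
    intro t
    have h1 := hd_cross (hasDerivAt_const t v) ((hγ.hd t).sub_const a)
    have h2 : HasDerivAt (fun t => cross v (γ t - a)) 0 t := by
      rw [heq]; exact hasDerivAt_const _ _
    have h3 := h1.unique h2
    simpa [cross] using h3
  obtain ⟨c, hc, hc0⟩ := exists_hasDerivAt_eq_zero (f := fun t => dot v (γ t))
    (f' := fun t => dot v (deriv γ t)) (a := 0) (b := 1) one_pos
    (fun t _ => (cont_dot continuousAt_const (hγ.cont.continuousAt)).continuousWithinAt)
    (by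
      have := hγ.per 0
      rw [zero_add] at this
      simp only [this])
    (fun t _ => by
      have h1 := hd_dot (hasDerivAt_const t v) (hγ.hd t)
      convert! h1 using 1
      simp [dot])
  have := smul_decomp v (deriv γ c)
  rw [hcr c] at this
  have hc0' : dot v (deriv γ c) = 0 := hc0
  rw [hc0', zero_smul, zero_smul, add_zero] at this
  rcases smul_eq_zero.mp this with h1 | h1
  · exact (dot_self_pos hv).ne' h1
  · exact hγ.reg c h1

/-- order computation: for an analytic function vanishing at `t₀` but not identically,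
`η / ((t-t₀) η')` tends to `1/j`. -/
lemma order_ratio {η : ℝ → ℝ} {t₀ : ℝ} (han : AnalyticAt ℝ η t₀) (h0 : η t₀ = 0)
    (hne : ¬ ∀ᶠ t in 𝓝 t₀, η t = 0) :
    ∃ j : ℕ, 0 < j ∧ (∀ᶠ t in 𝓝[≠] t₀, deriv η t ≠ 0) ∧
      Tendsto (fun t => η t / ((t - t₀) * deriv η t)) (𝓝[≠] t₀) (𝓝 (1 / j)) := by
  obtain ⟨j, g, hg, hg0, hgeq⟩ := han.exists_eventuallyEq_pow_smul_nonzero_iff.mpr hne
  have hj : 0 < j := by
    rcases Nat.eq_zero_or_pos j with h | h
    · exfalso
      have := hgeq.self_of_nhds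
      rw [h, pow_zero, one_smul, h0] at this
      exact hg0 this.symm
    · exact h
  obtain ⟨i, rfl⟩ : ∃ i, j = i + 1 := ⟨j - 1, by omega⟩
  have hder : ∀ᶠ t in 𝓝 t₀, deriv η t = (t - t₀) ^ i * ((i + 1) * g t + (t - t₀) * deriv g t) := by
    have h1 : ∀ᶠ t in 𝓝 t₀, ∀ᶠ s in 𝓝 t, η s = (s - t₀) ^ (i + 1) • g s :=
      eventually_eventually_nhds.mpr hgeq
    have h2 : ∀ᶠ t in 𝓝 t₀, AnalyticAt ℝ g t := hg.eventually_analyticAt
    filter_upwards [h1, h2] with t h3 h4
    have h5 : HasDerivAt (fun s => (s - t₀) ^ (i + 1) * g s)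
        ((((i + 1 : ℕ) : ℝ) * (t - t₀) ^ (i + 1 - 1) * 1) * g t + (t - t₀) ^ (i + 1) * deriv g t) t :=
      (((hasDerivAt_id t).sub_const t₀).pow (i + 1)).mul h4.differentiableAt.hasDerivAt
    have h6 : HasDerivAt η _ t := h5.congr_of_eventuallyEq h3
    rw [h6.deriv]
    push_cast
    ring
  have hfac : Tendsto (fun t => ((i + 1 : ℝ) * g t + (t - t₀) * deriv g t)) (𝓝 t₀)
      (𝓝 ((i + 1) * g t₀)) := by
    have h1 : ContinuousAt (fun t => ((i + 1 : ℝ) * g t + (t - t₀) * deriv g t)) t₀ :=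
      (continuousAt_const.mul hg.continuousAt).add
        ((continuousAt_id.sub continuousAt_const).mul hg.deriv.continuousAt)
    have h2 := h1.tendsto
    simpa using h2
  have hlim0 : ((i + 1 : ℝ) * g t₀) ≠ 0 := mul_ne_zero (by positivity) hg0
  have hne' : ∀ᶠ t in 𝓝 t₀, ((i + 1 : ℝ) * g t + (t - t₀) * deriv g t) ≠ 0 :=
    hfac.eventually_ne hlim0
  have hself : ∀ᶠ t in 𝓝[≠] t₀, t ≠ t₀ := self_mem_nhdsWithin
  refine ⟨i + 1, hj, ?_, ?_⟩
  · filter_upwards [hder.filter_mono nhdsWithin_le_nhds, hne'.filter_mono nhdsWithin_le_nhds, hself]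
      with t h1 h2 h3
    rw [h1]
    exact mul_ne_zero (pow_ne_zero _ (sub_ne_zero.mpr h3)) h2
  · have h1 : Tendsto (fun t => g t / ((i + 1 : ℝ) * g t + (t - t₀) * deriv g t)) (𝓝[≠] t₀)
        (𝓝 (g t₀ / ((i + 1) * g t₀))) :=
      (hg.continuousAt.tendsto.div hfac hlim0).mono_left nhdsWithin_le_nhds
    have h2 : g t₀ / ((i + 1) * g t₀) = 1 / ((i + 1 : ℕ) : ℝ) := by
      have : ((i : ℝ) + 1) ≠ 0 := by positivity
      push_cast
      field_simp
    rw [h2] at h1
    refine h1.congr' ?_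
    filter_upwards [hder.filter_mono nhdsWithin_le_nhds, hne'.filter_mono nhdsWithin_le_nhds, hself,
      hgeq.filter_mono nhdsWithin_le_nhds] with t h1 h2 h3 h4
    rw [h1, h4, smul_eq_mul]
    have h5 : t - t₀ ≠ 0 := sub_ne_zero.mpr h3
    have h6 : (t - t₀) ^ i ≠ 0 := pow_ne_zero _ h5
    rw [pow_succ]
    field_simp

end part2

section part3

variable {γ : ℝ → ℂ} {x y : ℂ}

lemma analyticAt_dslope {f : ℝ → ℝ} {a : ℝ} (h : AnalyticAt ℝ f a) :
    AnalyticAt ℝ (dslope f a) a := by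
  obtain ⟨p, hp⟩ := h
  exact ⟨_, hp.has_fpower_series_dslope_fslope⟩

lemma tangent_deriv_ne (hγ : Curve γ) {F : ℝ → ℝ} {t₀ f₀ : ℝ} (hFan : AnalyticAt ℝ F t₀)
    (hF0 : F t₀ = f₀) (hrel : ∀ᶠ t in 𝓝 t₀, Rel γ x y t (F t))
    (ht : cross (deriv γ t₀) (γ t₀ - x) = 0) (hf : cross (deriv γ f₀) (γ f₀ - y) ≠ 0) :
    deriv F t₀ ≠ 0 := by
  intro hFd
  have hr0 : Rel γ x y t₀ f₀ := by
    have := hrel.self_of_nhds
    rwa [hF0] at this
  set τ₀ := deriv γ t₀ with hτ₀
  set X₀ := γ t₀ - x with hX₀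
  have hout0 : out γ x t₀ = (dot τ₀ τ₀) • X₀ := rf_of_cross_zero ht
  have hτp : 0 < dot τ₀ τ₀ := dot_self_pos (hγ.reg t₀)
  have hX0 : X₀ ≠ 0 := by
    intro h0
    apply hr0.1.ne_left
    rw [hout0, h0, smul_zero]
  set η : ℝ → ℝ := fun t => cross X₀ (γ t - γ t₀) with hη
  have hηd : ∀ t, HasDerivAt η (cross X₀ (deriv γ t)) t := by
    intro t
    have h1 := hd_cross (hasDerivAt_const t X₀) ((hγ.hd t).sub_const (γ t₀))
    convert! h1 using 1
    simp [cross]
  have hηd' : ∀ t, deriv η t = cross X₀ (deriv γ t) := fun t => (hηd t).deriv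
  have hηan : AnalyticAt ℝ η t₀ := an_cross analyticAt_const ((hγ.an t₀).sub analyticAt_const)
  have hη0 : η t₀ = 0 := by simp [hη, cross]
  obtain ⟨j, hj, hne, hlim⟩ := order_ratio hηan hη0 (not_line hγ hX0 t₀)
  -- punctured neighbourhood facts
  have hself : ∀ᶠ t in 𝓝[≠] t₀, t ≠ t₀ := self_mem_nhdsWithin
  have hle : 𝓝[≠] t₀ ≤ 𝓝 t₀ := nhdsWithin_le_nhds
  have hid : Tendsto (fun t => t - t₀) (𝓝[≠] t₀) (𝓝 0) := by
    have : ContinuousAt (fun t : ℝ => t - t₀) t₀ := by fun_prop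
    have h2 := this.tendsto
    rw [sub_self] at h2
    exact h2.mono_left hle
  have hlim2 : Tendsto (fun t => η t / deriv η t) (𝓝[≠] t₀) (𝓝 0) := by
    have h1 := hlim.mul hid
    rw [mul_zero] at h1
    refine h1.congr' ?_
    filter_upwards [hne, hself] with t h2 h3
    have h4 : t - t₀ ≠ 0 := sub_ne_zero.mpr h3
    field_simp
  -- the factor lambda
  set lam : ℝ → ℝ := fun t => dot (out γ x t) (γ (F t) - γ t) / dot (out γ x t) (out γ x t) with hlam
  have hcF : ContinuousAt (fun t => γ (F t)) t₀ := hγ.cont.continuousAt.comp hFan.continuousAt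
  have houtpos : 0 < dot (out γ x t₀) (out γ x t₀) := dot_self_pos hr0.1.ne_left
  have hlamc : ContinuousAt lam t₀ := by
    apply ContinuousAt.div
    · exact cont_dot (hγ.cont_out x).continuousAt (hcF.sub hγ.cont.continuousAt)
    · exact cont_dot (hγ.cont_out x).continuousAt (hγ.cont_out x).continuousAt
    · exact houtpos.ne'
  have hlam0 : 0 < lam t₀ := by
    apply div_pos _ houtpos
    rw [hF0]; exact hr0.1.2
  -- first equation
  have hcrossout : ∀ t, cross X₀ (out γ x t) =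
      2 * dot (deriv γ t) (γ t - x) * deriv η t - dot (deriv γ t) (deriv γ t) * η t := by
    intro t
    rw [hηd' t]
    simp only [hη, out, rf, cross, dot, hX₀, Complex.sub_re, Complex.sub_im, Complex.smul_re,
      Complex.smul_im, smul_eq_mul]
    ring
  set H : ℝ → ℝ := fun f => cross X₀ (γ f - γ t₀) with hH
  have hH1 : ∀ᶠ t in 𝓝 t₀, H (F t) = lam t * (2 * dot (deriv γ t) (γ t - x) * deriv η t
      - dot (deriv γ t) (deriv γ t) * η t) + η t := by
    filter_upwards [hrel] with t h1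
    have h2 := eq_smul_of_cross h1.1.ne_left h1.1.1
    have h3 : H (F t) = cross X₀ (γ (F t) - γ t) + η t := by
      simp only [hH, hη, cross, Complex.sub_re, Complex.sub_im]; ring
    rw [h3, ← hcrossout t]
    congr 1
    conv_lhs => rw [h2]
    rw [cross_smul_right]
  set K : ℝ := lam t₀ * (2 * dot τ₀ X₀) with hK
  have hdotne : dot τ₀ X₀ ≠ 0 := by
    intro h0
    have := lagrange τ₀ X₀
    rw [ht, h0] at this
    have h2 := mul_pos hτp (dot_self_pos hX0)
    rw [← this] at h2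
    norm_num at h2
  have hKne : K ≠ 0 := mul_ne_zero hlam0.ne' (mul_ne_zero two_ne_zero hdotne)
  have hlimH : Tendsto (fun t => H (F t) / deriv η t) (𝓝[≠] t₀) (𝓝 K) := by
    have c1 : Tendsto lam (𝓝[≠] t₀) (𝓝 (lam t₀)) := hlamc.tendsto.mono_left hle
    have c2 : Tendsto (fun t => 2 * dot (deriv γ t) (γ t - x)) (𝓝[≠] t₀) (𝓝 (2 * dot τ₀ X₀)) := by
      have : ContinuousAt (fun t => 2 * dot (deriv γ t) (γ t - x)) t₀ :=
        continuousAt_const.mul (cont_dot hγ.cont_deriv.continuousAt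
          (hγ.cont.continuousAt.sub continuousAt_const))
      exact this.tendsto.mono_left hle
    have c3 : Tendsto (fun t => dot (deriv γ t) (deriv γ t)) (𝓝[≠] t₀) (𝓝 (dot τ₀ τ₀)) := by
      have : ContinuousAt (fun t => dot (deriv γ t) (deriv γ t)) t₀ :=
        cont_dot hγ.cont_deriv.continuousAt hγ.cont_deriv.continuousAt
      exact this.tendsto.mono_left hle
    have h1 := (c1.mul (c2.sub (c3.mul hlim2))).add hlim2
    rw [mul_zero, sub_zero, add_zero] at h1
    refine h1.congr' ?_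
    filter_upwards [hH1.filter_mono hle, hne] with t h2 h3
    rw [h2]
    field_simp
  have hh1 : cross X₀ (deriv γ f₀) ≠ 0 := by
    intro h0
    apply hf
    rw [← trans_iff hγ hr0, hout0, cross_smul_left, h0, mul_zero]
  have hHd : HasDerivAt H (cross X₀ (deriv γ f₀)) f₀ := by
    have h1 := hd_cross (hasDerivAt_const f₀ X₀) ((hγ.hd f₀).sub_const (γ t₀))
    convert! h1 using 1
    simp [cross]
  have hHf0 : H f₀ = 0 := by
    have h1 := hr0.1.1
    rw [hout0, cross_smul_left] at h1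
    exact (mul_eq_zero.mp h1).resolve_left hτp.ne'
  have hHne : ∀ᶠ t in 𝓝[≠] t₀, H (F t) ≠ 0 := by
    have := hlimH.eventually_ne hKne
    filter_upwards [this] with t h1 h2
    apply h1
    rw [h2, zero_div]
  have hFne : ∀ᶠ t in 𝓝[≠] t₀, F t ≠ f₀ := by
    filter_upwards [hHne] with t h1 h2
    apply h1
    rw [h2, hHf0]
  have hFt : Tendsto F (𝓝[≠] t₀) (𝓝[≠] f₀) := by
    apply tendsto_nhdsWithin_iff.mpr
    refine ⟨?_, hFne⟩
    have := hFan.continuousAt.tendsto
    rw [hF0] at this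
    exact this.mono_left hle
  have hslopeH : Tendsto (fun t => H (F t) / (F t - f₀)) (𝓝[≠] t₀) (𝓝 (cross X₀ (deriv γ f₀))) := by
    have h1 := hHd.tendsto_slope.comp hFt
    refine h1.congr' ?_
    filter_upwards [hFne] with t h2
    simp only [Function.comp, slope_def_field, hHf0, sub_zero]
  set φ : ℝ → ℝ := fun t => F t - f₀ with hφ
  have hφη : Tendsto (fun t => φ t / deriv η t) (𝓝[≠] t₀) (𝓝 (K / cross X₀ (deriv γ f₀))) := by
    have h1 := hlimH.div hslopeH hh1
    refine h1.congr' ?_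
    filter_upwards [hHne, hFne, hne] with t h2 h3 h4
    have h5 : F t - f₀ ≠ 0 := sub_ne_zero.mpr h3
    simp only [hφ, Pi.div_apply]
    field_simp
  -- second equation
  obtain ⟨c, hc, hcout⟩ := hr0.par_chord
  set C : ℝ := c * dot τ₀ τ₀ with hC
  have hCpos : 0 < C := mul_pos hc hτp
  have houty : out γ y f₀ = -(C • X₀) := by rw [hcout, hout0, smul_smul]
  set O' : ℂ := deriv (out γ y) f₀ with hO'
  have hOd : HasDerivAt (out γ y) O' f₀ := (hγ.an_out y f₀).differentiableAt.hasDerivAt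
  set W : ℝ → ℝ := fun f => cross (out γ y f) (γ t₀ - γ f) with hW
  have hWan : AnalyticAt ℝ W f₀ :=
    an_cross (hγ.an_out y f₀) (analyticAt_const.sub (hγ.an f₀))
  have hW0 : W f₀ = 0 := hr0.2.1
  have hWd : HasDerivAt W (-cross O' (γ f₀ - γ t₀) + C * cross X₀ (deriv γ f₀)) f₀ := by
    have h1 := hd_cross hOd ((hγ.hd f₀).const_sub (γ t₀))
    convert! h1 using 1
    rw [houty]
    simp only [cross, Complex.sub_re, Complex.sub_im, Complex.neg_re, Complex.neg_im,
      Complex.smul_re, Complex.smul_im, smul_eq_mul]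
    ring
  have hV : Tendsto (fun t => -W (F t) / ((t - t₀) * deriv η t)) (𝓝[≠] t₀)
      (𝓝 (-C * (1 / j) + cross O' τ₀ * (K / cross X₀ (deriv γ f₀)))) := by
    have s1 : Tendsto (fun t => (φ t)⁻¹ • (out γ y (F t) - out γ y f₀)) (𝓝[≠] t₀) (𝓝 O') :=
      hOd.tendsto_slope.comp hFt
    have s2 : Tendsto (fun t => (t - t₀)⁻¹ • (γ t - γ t₀)) (𝓝[≠] t₀) (𝓝 τ₀) :=
      (hγ.hd t₀).tendsto_slope
    have s3 : Tendsto (fun t => cross ((φ t)⁻¹ • (out γ y (F t) - out γ y f₀))
        ((t - t₀)⁻¹ • (γ t - γ t₀))) (𝓝[≠] t₀) (𝓝 (cross O' τ₀)) := by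
      have hcc : ContinuousAt (fun p : ℂ × ℂ => cross p.1 p.2) (O', τ₀) :=
        cont_cross continuousAt_fst continuousAt_snd
      exact hcc.tendsto.comp (s1.prodMk_nhds s2)
    have h1 := (hlim.const_mul (-C)).add (s3.mul hφη)
    refine h1.congr' ?_
    filter_upwards [hFne, hne, hself, hrel.filter_mono hle] with t h2 h3 h4 h5
    have h6 : φ t ≠ 0 := sub_ne_zero.mpr h2
    have h7 : t - t₀ ≠ 0 := sub_ne_zero.mpr h4
    have h8 : cross (out γ y (F t)) (γ t - γ (F t)) = 0 := h5.2.1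
    have h9 : -W (F t) = -C * η t + cross (out γ y (F t) - out γ y f₀) (γ t - γ t₀) := by
      rw [houty]
      simp only [hW, hη, hH, cross, Complex.sub_re, Complex.sub_im, Complex.neg_re, Complex.neg_im,
        Complex.smul_re, Complex.smul_im, smul_eq_mul] at h8 ⊢
      linarith
    rw [h9, cross_smul_left, cross_smul_right]
    field_simp
  -- factorisations of W
  set w1 : ℝ → ℝ := dslope W f₀ with hw1
  have hw1an : AnalyticAt ℝ w1 f₀ := analyticAt_dslope hWan
  have hw10 : w1 f₀ = -cross O' (γ f₀ - γ t₀) + C * cross X₀ (deriv γ f₀) := by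
    rw [hw1, dslope_same, hWd.deriv]
  have hWfac : ∀ f, W f = (f - f₀) * w1 f := by
    intro f
    have := sub_smul_dslope W f₀ f
    rw [hW0, sub_zero, smul_eq_mul] at this
    exact this.symm
  have hFc : Tendsto F (𝓝[≠] t₀) (𝓝 f₀) := hFt.mono_right nhdsWithin_le_nhds
  have hw1lim : Tendsto (fun t => w1 (F t)) (𝓝[≠] t₀) (𝓝 (w1 f₀)) :=
    hw1an.continuousAt.tendsto.comp hFc
  have hWd0 : w1 f₀ = 0 := by
    have h1 : Tendsto (fun t => -W (F t) / deriv η t) (𝓝[≠] t₀) (𝓝 0) := by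
      have h2 := hV.mul hid
      rw [mul_zero] at h2
      refine h2.congr' ?_
      filter_upwards [hne, hself] with t h3 h4
      have h7 : t - t₀ ≠ 0 := sub_ne_zero.mpr h4
      field_simp
    have h2 : Tendsto (fun t => -W (F t) / deriv η t) (𝓝[≠] t₀)
        (𝓝 (-(w1 f₀ * (K / cross X₀ (deriv γ f₀))))) := by
      have h3 := (hw1lim.mul hφη).neg
      refine h3.congr' ?_
      filter_upwards [hne] with t h4
      rw [hWfac (F t)]
      simp only [hφ]
      field_simp
    have h3 := tendsto_nhds_unique h1 h2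
    have h4 : w1 f₀ * (K / cross X₀ (deriv γ f₀)) = 0 := by linarith
    exact (mul_eq_zero.mp h4).resolve_right (div_ne_zero hKne hh1)
  set w2 : ℝ → ℝ := dslope w1 f₀ with hw2
  have hw2c : ContinuousAt w2 f₀ := continuousAt_dslope_same.mpr hw1an.differentiableAt
  have hw1fac : ∀ f, w1 f = (f - f₀) * w2 f := by
    intro f
    have := sub_smul_dslope w1 f₀ f
    rw [hWd0, sub_zero, smul_eq_mul] at this
    exact this.symm
  have hw2lim : Tendsto (fun t => w2 (F t)) (𝓝[≠] t₀) (𝓝 (w2 f₀)) :=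
    hw2c.tendsto.comp hFc
  have hslF : Tendsto (fun t => φ t / (t - t₀)) (𝓝[≠] t₀) (𝓝 0) := by
    have h1 := hFan.differentiableAt.hasDerivAt.tendsto_slope
    rw [hFd] at h1
    refine h1.congr' ?_
    filter_upwards with t
    rw [slope_def_field, hF0]
  have hV2 : Tendsto (fun t => -W (F t) / ((t - t₀) * deriv η t)) (𝓝[≠] t₀)
      (𝓝 (-(w2 f₀ * 0 * (K / cross X₀ (deriv γ f₀))))) := by
    have h1 := ((hw2lim.mul hslF).mul hφη).neg
    refine h1.congr' ?_
    filter_upwards [hne, hself] with t h3 h4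
    have h7 : t - t₀ ≠ 0 := sub_ne_zero.mpr h4
    rw [hWfac (F t), hw1fac (F t)]
    simp only [hφ]
    field_simp
  have hfin := tendsto_nhds_unique hV hV2
  rw [mul_zero, zero_mul, neg_zero] at hfin
  -- conclusion
  have e1 : cross O' (γ f₀ - γ t₀) = C * cross X₀ (deriv γ f₀) := by
    rw [hw10] at hWd0; linarith
  have e2 : γ f₀ - γ t₀ = (lam t₀ * dot τ₀ τ₀) • X₀ := by
    have h2 := eq_smul_of_cross hr0.1.ne_left hr0.1.1
    rw [h2, hout0, smul_smul, ← hout0]
    simp only [hlam, hF0]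
  have e3 : (dot τ₀ τ₀) • X₀ = (dot τ₀ X₀) • τ₀ := by
    have h1 := smul_decomp τ₀ X₀
    rw [ht, zero_smul, add_zero] at h1
    exact h1
  have e4 : lam t₀ * (dot τ₀ X₀ * cross O' τ₀) = C * cross X₀ (deriv γ f₀) := by
    rw [← e1, e2, mul_smul, e3, cross_smul_right, cross_smul_right]
  have e5 : cross O' τ₀ * (K / cross X₀ (deriv γ f₀)) = 2 * C := by
    rw [hK]
    field_simp
    linarith
  rw [e5] at hfin
  have hj' : (1 : ℝ) ≤ j := by exact_mod_cast hj
  have e6 : (1 : ℝ) / j ≤ 1 := by rw [div_le_one (by linarith)]; exact hj'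
  nlinarith

end part3

section part4

variable {γ : ℝ → ℂ} {x y : ℂ}

/-- `F` is the local branch of the relation through `z`. -/
structure Branch (γ : ℝ → ℂ) (x y : ℂ) (z : ℝ × ℝ) (F : ℝ → ℝ) : Prop where
  an : AnalyticAt ℝ F z.1
  base : F z.1 = z.2
  ne : deriv F z.1 ≠ 0
  rel : ∀ᶠ t in 𝓝 z.1, Rel γ x y t (F t)
  uniq : ∀ᶠ w in 𝓝 z, Rel γ x y w.1 w.2 → w.2 = F w.1

/-- good points: accumulation points of the relation with length larger than `|x - y|` -/
structure Good (γ : ℝ → ℂ) (x y : ℂ) (z : ℝ × ℝ) : Prop where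
  rel : Rel γ x y z.1 z.2
  acc : AccPt z (𝓟 (RelSet γ x y))
  len : ‖x - y‖ < Len γ x y z.1 z.2

lemma acc_swap {z : ℝ × ℝ} (h : AccPt z (𝓟 (RelSet γ x y))) :
    AccPt z.swap (𝓟 (RelSet γ y x)) := by
  rw [accPt_iff_frequently] at h ⊢
  have hc : Tendsto Prod.swap (𝓝 z) (𝓝 z.swap) := continuous_swap.continuousAt
  refine hc.frequently (h.mono ?_)
  rintro w ⟨h1, h2⟩
  refine ⟨fun h3 => h1 (Prod.swap_injective h3), ?_⟩
  exact Rel.swap h2

lemma Good.swap {z : ℝ × ℝ} (h : Good γ x y z) : Good γ y x z.swap where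
  rel := h.rel.swap
  acc := acc_swap h.acc
  len := by
    have := h.len
    rw [norm_sub_rev, Len_swap] at this
    exact this

lemma tendsto_graph {F : ℝ → ℝ} {z : ℝ × ℝ} (hF : ContinuousAt F z.1) (h0 : F z.1 = z.2) :
    Tendsto (fun t => ((t, F t) : ℝ × ℝ)) (𝓝 z.1) (𝓝 z) := by
  have h1 : ContinuousAt (fun s => ((s, F s) : ℝ × ℝ)) z.1 := continuousAt_id.prodMk hF
  have h2 : ((z.1, F z.1) : ℝ × ℝ) = z := Prod.ext rfl h0
  have h3 : Tendsto (fun s => ((s, F s) : ℝ × ℝ)) (𝓝 z.1) (𝓝 (z.1, F z.1)) := h1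
  rw [h2] at h3
  exact h3

/-- branch when the chord is transversal at the second endpoint -/
lemma branchA (hγ : Curve γ) {z : ℝ × ℝ} (hz : Rel γ x y z.1 z.2)
    (hacc : AccPt z (𝓟 (RelSet γ x y))) (hf : cross (deriv γ z.2) (γ z.2 - y) ≠ 0) :
    ∃ F, Branch γ x y z F := by
  obtain ⟨F, hF, hF0, hrel, huniq⟩ := locA hγ hz hacc hf
  refine ⟨F, hF, hF0, ?_, hrel, huniq⟩
  by_cases ht : cross (deriv γ z.1) (γ z.1 - x) = 0
  · exact tangent_deriv_ne hγ hF hF0 hrel ht hf
  · obtain ⟨K, hK, hK0, -, hKu⟩ := locA (x := y) (y := x) hγ (z := z.swap) hz.swap (acc_swap hacc) ht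
    have h1 : Tendsto (fun s => ((F s, s) : ℝ × ℝ)) (𝓝 z.1) (𝓝 z.swap) := by
      have := (continuous_swap.tendsto z).comp (tendsto_graph hF.continuousAt hF0)
      exact this
    have h2 : ∀ᶠ s in 𝓝 z.1, K (F s) = s := by
      filter_upwards [h1.eventually hKu, hrel] with s h3 h4
      exact (h3 h4.swap).symm
    have hKd : HasDerivAt K (deriv K z.2) (F z.1) := by
      rw [hF0]; exact hK.differentiableAt.hasDerivAt
    have h3 : HasDerivAt (fun s => K (F s)) (deriv K z.2 * deriv F z.1) z.1 :=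
      hKd.comp z.1 hF.differentiableAt.hasDerivAt
    have h4 : HasDerivAt (fun s => K (F s)) 1 z.1 :=
      (hasDerivAt_id z.1).congr_of_eventuallyEq h2
    have h5 := h3.unique h4
    intro h6
    rw [h6, mul_zero] at h5
    exact zero_ne_one h5

lemma branch_exists (hγ : Curve γ) {z : ℝ × ℝ} (hz : Good γ x y z) : ∃ F, Branch γ x y z F := by
  by_cases hf : cross (deriv γ z.2) (γ z.2 - y) = 0
  · have ht : cross (deriv γ z.1) (γ z.1 - x) ≠ 0 := by
      intro ht
      have := len_of_tangent_both hγ hz.rel ht hf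
      exact absurd hz.len (by rw [this]; exact lt_irrefl _)
    obtain ⟨K, hK⟩ := branchA (x := y) (y := x) (z := z.swap) hγ hz.rel.swap (acc_swap hz.acc) ht
    have hKan : AnalyticAt ℝ K z.2 := hK.an
    have hKb : K z.2 = z.1 := hK.base
    have hKne : deriv K z.2 ≠ 0 := hK.ne
    have gan : AnalyticAt ℝ (fun w : ℝ × ℝ => K w.2 - w.1) z :=
      (AnalyticAt.fun_comp hKan analyticAt_snd).sub analyticAt_fst
    have gd : HasDerivAt (fun s => K s - z.1) (deriv K z.2) z.2 :=
      hKan.differentiableAt.hasDerivAt.sub_const z.1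
    obtain ⟨F, hFan, hF0, hFe⟩ := ift gan (by simp only [hKb, sub_self]) gd hKne
    have hgr := tendsto_graph hFan.continuousAt hF0
    have h1 : ∀ᶠ s in 𝓝 z.1, K (F s) = s := by
      filter_upwards [hgr.eventually hFe] with s hs
      have := hs.mpr rfl
      linarith
    refine ⟨F, hFan, hF0, ?_, ?_, ?_⟩
    · have hKd : HasDerivAt K (deriv K z.2) (F z.1) := by
        rw [hF0]; exact hKan.differentiableAt.hasDerivAt
      have h3 : HasDerivAt (fun s => K (F s)) (deriv K z.2 * deriv F z.1) z.1 :=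
        hKd.comp z.1 hFan.differentiableAt.hasDerivAt
      have h4 : HasDerivAt (fun s => K (F s)) 1 z.1 :=
        (hasDerivAt_id z.1).congr_of_eventuallyEq h1
      have h5 := h3.unique h4
      intro h6
      rw [h6, mul_zero] at h5
      exact zero_ne_one h5
    · have hFt : Tendsto F (𝓝 z.1) (𝓝 z.2) := by
        have := hFan.continuousAt.tendsto
        rwa [hF0] at this
      have hKr : ∀ᶠ s in 𝓝 z.2, Rel γ y x s (K s) := hK.rel
      filter_upwards [h1, hFt.eventually hKr] with s h2 h3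
      rw [h2] at h3
      exact h3.swap
    · have hsw : Tendsto Prod.swap (𝓝 z) (𝓝 z.swap) := continuous_swap.continuousAt
      filter_upwards [hsw.eventually hK.uniq, hFe] with w h2 h3 h4
      have h5 : w.1 = K w.2 := h2 h4.swap
      exact h3.mp (by rw [h5]; ring)
  · exact branchA hγ hz.rel hz.acc hf

/-! ### the length is constant along branches -/

lemma unit_dot {τ v D : ℂ} (h : Par (rf τ v) D) :
    dot v τ / ‖v‖ = dot D τ / ‖D‖ := by
  obtain ⟨r, hr, rfl⟩ := h.exists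
  have hne := h.ne_left
  have hτ : τ ≠ 0 := by
    rintro rfl
    apply hne
    apply Complex.ext <;> simp [rf, dot]
  have hv : v ≠ 0 := by
    rintro rfl
    apply hne
    apply Complex.ext <;> simp [rf, dot]
  have hτp := dot_self_pos hτ
  have hn : ‖rf τ v‖ = dot τ τ * ‖v‖ := by
    have h1 := dot_rf_rf τ v v
    rw [dot_self, dot_self v, ← mul_pow] at h1
    have h2 : 0 ≤ dot τ τ * ‖v‖ := by positivity
    exact (pow_left_inj₀ (norm_nonneg _) h2 two_ne_zero).mp h1
  rw [norm_smul, Real.norm_of_nonneg hr.le, hn, dot_smul_left, dot_comm (rf τ v) τ, dot_tau_rf,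
    dot_comm v τ]
  have : ‖v‖ ≠ 0 := norm_ne_zero_iff.mpr hv
  field_simp

lemma len_deriv (hγ : Curve γ) {F : ℝ → ℝ} {t : ℝ} (hF : DifferentiableAt ℝ F t)
    (h : Rel γ x y t (F t)) : HasDerivAt (fun s => Len γ x y s (F s)) 0 t := by
  have hX : γ t - x ≠ 0 := by
    intro h0
    apply h.1.ne_left
    unfold out
    rw [h0]
    apply Complex.ext <;> simp [rf, dot]
  have hY : γ (F t) - y ≠ 0 := by
    intro h0
    apply h.2.ne_left
    unfold out
    rw [h0]
    apply Complex.ext <;> simp [rf, dot]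
  have hD : γ (F t) - γ t ≠ 0 := h.1.ne_right
  have hγF : HasDerivAt (fun s => γ (F s)) (deriv F t • deriv γ (F t)) t := by
    have := (hγ.hd (F t)).scomp t hF.hasDerivAt
    exact this
  have d1 := hd_norm ((hγ.hd t).sub_const x) hX
  have d2 : HasDerivAt (fun s => ‖γ (F s) - γ s‖)
      (dot (γ (F t) - γ t) (deriv F t • deriv γ (F t) - deriv γ t) / ‖γ (F t) - γ t‖) t :=
    hd_norm (a := fun s => γ (F s) - γ s) (hγF.sub (hγ.hd t)) hD
  have d3 := hd_norm (hγF.sub_const y) hY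
  have d := (d1.add d2).add d3
  have u1 := unit_dot h.1
  have u2 := unit_dot h.2
  have hnn : ‖γ t - γ (F t)‖ = ‖γ (F t) - γ t‖ := norm_sub_rev _ _
  have e2 : dot (γ t - γ (F t)) (deriv γ (F t)) = - dot (γ (F t) - γ t) (deriv γ (F t)) := by
    simp [dot]; ring
  rw [hnn, e2] at u2
  convert! d using 1
  have e3 : dot (γ (F t) - γ t) (deriv F t • deriv γ (F t) - deriv γ t) =
      deriv F t * dot (γ (F t) - γ t) (deriv γ (F t)) - dot (γ (F t) - γ t) (deriv γ t) := by
    simp [dot]; ring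
  have e4 : dot (γ (F t) - y) (deriv F t • deriv γ (F t)) =
      deriv F t * dot (γ (F t) - y) (deriv γ (F t)) := dot_smul_right _ _ _
  rw [e3, e4, u1, sub_div, mul_div_assoc, mul_div_assoc, u2]
  ring

lemma Branch.len_const (hγ : Curve γ) {z : ℝ × ℝ} {F : ℝ → ℝ} (h : Branch γ x y z F) :
    ∀ᶠ t in 𝓝 z.1, Len γ x y t (F t) = Len γ x y z.1 z.2 := by
  have h1 := h.rel.and h.an.eventually_analyticAt
  obtain ⟨ε, hε, h2⟩ := Metric.eventually_nhds_iff_ball.mp h1
  have hb : Metric.ball z.1 ε ∈ 𝓝 z.1 := Metric.ball_mem_nhds _ hε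
  filter_upwards [hb] with t ht
  have hconv : Convex ℝ (Metric.ball z.1 ε) := convex_ball _ _
  have h3 := hconv.norm_image_sub_le_of_norm_hasDerivWithin_le (f := fun s => Len γ x y s (F s))
    (f' := fun _ => 0) (C := 0)
    (fun s hs => (len_deriv hγ (h2 s hs).2.differentiableAt (h2 s hs).1).hasDerivWithinAt)
    (fun s _ => by simp) (Metric.mem_ball_self hε) ht
  rw [zero_mul] at h3
  have h4 := norm_le_zero_iff.mp h3
  have h5 : Len γ x y t (F t) = Len γ x y z.1 (F z.1) := by linarith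
  rw [h5, h.base]

/-- being a branch is an open condition along the branch -/
lemma Branch.eventually_branch {z : ℝ × ℝ} {F : ℝ → ℝ} (h : Branch γ x y z F) :
    ∀ᶠ t in 𝓝 z.1, Branch γ x y (t, F t) F := by
  have hgr := tendsto_graph h.an.continuousAt h.base
  have hd : ∀ᶠ t in 𝓝 z.1, deriv F t ≠ 0 := h.an.deriv.continuousAt.eventually_ne h.ne
  filter_upwards [h.an.eventually_analyticAt, hd, eventually_eventually_nhds.mpr h.rel,
    hgr.eventually (eventually_eventually_nhds.mpr h.uniq)] with t h1 h2 h3 h4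
  exact ⟨h1, rfl, h2, h3, h4⟩

lemma Branch.acc {z : ℝ × ℝ} {F : ℝ → ℝ} (h : Branch γ x y z F) :
    AccPt z (𝓟 (RelSet γ x y)) := by
  rw [accPt_iff_frequently]
  have hgr := tendsto_graph h.an.continuousAt h.base
  refine hgr.frequently ?_
  have h1 : ∃ᶠ t in 𝓝 z.1, t ≠ z.1 := by
    have : (𝓝[≠] z.1).NeBot := inferInstance
    exact (frequently_mem_iff_neBot.mpr this)
  refine (h1.and_eventually h.rel).mono ?_
  rintro t ⟨h2, h3⟩
  exact ⟨fun h4 => h2 (congrArg Prod.fst h4), h3⟩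

lemma Branch.good (hγ : Curve γ) {z : ℝ × ℝ} {F : ℝ → ℝ} (h : Branch γ x y z F)
    (hl : ‖x - y‖ < Len γ x y z.1 z.2) :
    ∀ᶠ t in 𝓝 z.1, Good γ x y (t, F t) := by
  filter_upwards [h.eventually_branch, h.len_const hγ, h.rel] with t h1 h2 h3
  exact ⟨h3, h1.acc, by rw [h2]; exact hl⟩

end part4

section part5

variable {γ : ℝ → ℂ} {x y : ℂ}

lemma cont_Len (hγ : Curve γ) : Continuous fun z : ℝ × ℝ => Len γ x y z.1 z.2 := by
  unfold Len
  have := hγ.cont
  fun_prop

lemma par_of_limit {a b : ℂ} (ha : a ≠ 0) (hb : b ≠ 0) (h0 : cross a b = 0) (h1 : 0 ≤ dot a b) :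
    Par a b := by
  refine ⟨h0, lt_of_le_of_ne h1 ?_⟩
  intro h2
  have := lagrange a b
  rw [h0, ← h2] at this
  have h3 := mul_pos (dot_self_pos ha) (dot_self_pos hb)
  rw [← this] at h3
  norm_num at h3

lemma out_ne_zero (hγ : Curve γ) (hx : ∀ t, γ t ≠ x) (t : ℝ) : out γ x t ≠ 0 :=
  rf_ne_zero (hγ.reg t) (sub_ne_zero.mpr (hx t))

lemma limit_rel (hγ : Curve γ) (hx : ∀ t, γ t ≠ x) (hy : ∀ t, γ t ≠ y) {z : ℕ → ℝ × ℝ} {w : ℝ × ℝ}
    (hz : ∀ n, Rel γ x y (z n).1 (z n).2) (hlim : Tendsto z atTop (𝓝 w))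
    (hlen : ‖x - y‖ < Len γ x y w.1 w.2) : Rel γ x y w.1 w.2 := by
  have h1 : Tendsto (fun n => (z n).1) atTop (𝓝 w.1) := (continuous_fst.tendsto w).comp hlim
  have h2 : Tendsto (fun n => (z n).2) atTop (𝓝 w.2) := (continuous_snd.tendsto w).comp hlim
  have cx : Continuous (fun v : ℝ × ℝ => out γ x v.1) := (hγ.cont_out x).comp continuous_fst
  have cy : Continuous (fun v : ℝ × ℝ => out γ y v.2) := (hγ.cont_out y).comp continuous_snd
  have c1 : Continuous (fun v : ℝ × ℝ => γ v.1) := hγ.cont.comp continuous_fst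
  have c2 : Continuous (fun v : ℝ × ℝ => γ v.2) := hγ.cont.comp continuous_snd
  by_cases heq : γ w.1 = γ w.2
  · exfalso
    have k1 : Tendsto (fun n => cross (out γ x (z n).1) (out γ y (z n).2)) atTop
        (𝓝 (cross (out γ x w.1) (out γ y w.2))) :=
      (cont_cross (cx.continuousAt (x := w)) (cy.continuousAt (x := w))).tendsto.comp hlim
    have k2 : Tendsto (fun n => dot (out γ x (z n).1) (out γ y (z n).2)) atTop
        (𝓝 (dot (out γ x w.1) (out γ y w.2))) :=
      (cont_dot (cx.continuousAt (x := w)) (cy.continuousAt (x := w))).tendsto.comp hlim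
    have k3 : ∀ n, cross (out γ x (z n).1) (out γ y (z n).2) = 0 ∧
        dot (out γ x (z n).1) (out γ y (z n).2) ≤ 0 := by
      intro n
      obtain ⟨c, hc, h3⟩ := (hz n).par_chord
      rw [h3, ← smul_neg]
      constructor
      · rw [cross_smul_right]
        have : cross (out γ x (z n).1) (-out γ x (z n).1) = 0 := by simp [cross]; ring
        rw [this, mul_zero]
      · rw [dot_smul_right]
        have : dot (out γ x (z n).1) (-out γ x (z n).1) = - dot (out γ x (z n).1) (out γ x (z n).1) := by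
          simp [dot]; ring
        rw [this]
        have := (dot_self_pos (hz n).1.ne_left)
        nlinarith
    have k4 : cross (out γ x w.1) (out γ y w.2) = 0 := by
      refine tendsto_nhds_unique k1 ?_
      simp only [(k3 _).1]
      exact tendsto_const_nhds
    have k5 : dot (out γ x w.1) (out γ y w.2) ≤ 0 := le_of_tendsto' k2 fun n => (k3 n).2
    obtain ⟨k, hk⟩ := hγ.inj _ _ heq
    have k6 : out γ y w.2 = out γ y w.1 := by rw [hk, hγ.out_per_int]
    rw [k6] at k4 k5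
    unfold out at k4 k5
    rw [cross_rf_rf] at k4
    rw [dot_rf_rf] at k5
    have hp := dot_self_pos (hγ.reg w.1)
    have k7 : cross (γ w.1 - x) (γ w.1 - y) = 0 := by
      rcases mul_eq_zero.mp k4 with h | h
      · have : 0 < dot (deriv γ w.1) (deriv γ w.1) ^ 2 := by positivity
        linarith
      · exact h
    have k8 : dot (γ w.1 - x) (γ w.1 - y) ≤ 0 := by
      by_contra hcon
      push Not at hcon
      have : 0 < dot (deriv γ w.1) (deriv γ w.1) ^ 2 * dot (γ w.1 - x) (γ w.1 - y) := by positivity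
      linarith
    have k9 : Par (γ w.1 - x) (-(γ w.1 - y)) := by
      apply par_of_limit (sub_ne_zero.mpr (hx _)) (neg_ne_zero.mpr (sub_ne_zero.mpr (hy _)))
      · have : cross (γ w.1 - x) (-(γ w.1 - y)) = - cross (γ w.1 - x) (γ w.1 - y) := by
          simp [cross]; ring
        rw [this, k7, neg_zero]
      · have : dot (γ w.1 - x) (-(γ w.1 - y)) = - dot (γ w.1 - x) (γ w.1 - y) := by
          simp [dot]; ring
        rw [this]; linarith
    have k10 := k9.add_norm
    have e1 : γ w.1 - x + -(γ w.1 - y) = y - x := by abel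
    rw [e1, norm_neg] at k10
    unfold Len at hlen
    rw [heq, sub_self, norm_zero, norm_sub_rev x y, k10, heq] at hlen
    linarith
  · have d12 : γ w.2 - γ w.1 ≠ 0 := sub_ne_zero.mpr (Ne.symm heq)
    have d21 : γ w.1 - γ w.2 ≠ 0 := sub_ne_zero.mpr heq
    constructor
    · apply par_of_limit (out_ne_zero hγ hx _) d12
      · have k1 : Tendsto (fun n => cross (out γ x (z n).1) (γ (z n).2 - γ (z n).1)) atTop
            (𝓝 (cross (out γ x w.1) (γ w.2 - γ w.1))) :=
          (cont_cross (cx.continuousAt (x := w)) ((c2.sub c1).continuousAt (x := w))).tendsto.comp hlim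
        refine tendsto_nhds_unique k1 ?_
        simp only [(hz _).1.1]
        exact tendsto_const_nhds
      · have k1 : Tendsto (fun n => dot (out γ x (z n).1) (γ (z n).2 - γ (z n).1)) atTop
            (𝓝 (dot (out γ x w.1) (γ w.2 - γ w.1))) :=
          (cont_dot (cx.continuousAt (x := w)) ((c2.sub c1).continuousAt (x := w))).tendsto.comp hlim
        exact ge_of_tendsto' k1 fun n => (hz n).1.2.le
    · apply par_of_limit (out_ne_zero hγ hy _) d21
      · have k1 : Tendsto (fun n => cross (out γ y (z n).2) (γ (z n).1 - γ (z n).2)) atTop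
            (𝓝 (cross (out γ y w.2) (γ w.1 - γ w.2))) :=
          (cont_cross (cy.continuousAt (x := w)) ((c1.sub c2).continuousAt (x := w))).tendsto.comp hlim
        refine tendsto_nhds_unique k1 ?_
        simp only [(hz _).2.1]
        exact tendsto_const_nhds
      · have k1 : Tendsto (fun n => dot (out γ y (z n).2) (γ (z n).1 - γ (z n).2)) atTop
            (𝓝 (dot (out γ y w.2) (γ w.1 - γ w.2))) :=
          (cont_dot (cy.continuousAt (x := w)) ((c1.sub c2).continuousAt (x := w))).tendsto.comp hlim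
        exact ge_of_tendsto' k1 fun n => (hz n).2.2.le

lemma limit_acc {z : ℕ → ℝ × ℝ} {w : ℝ × ℝ} (hz : ∀ n, Good γ x y (z n))
    (hlim : Tendsto z atTop (𝓝 w)) : AccPt w (𝓟 (RelSet γ x y)) := by
  rw [accPt_iff_frequently]
  by_contra hcon
  rw [not_frequently] at hcon
  obtain ⟨n, hn⟩ := (hlim.eventually hcon).exists
  have h1 : z n = w := by
    by_contra hne
    exact hn ⟨hne, (hz n).rel⟩
  have h2 := (hz n).acc
  rw [h1, accPt_iff_frequently] at h2
  exact h2 hcon

lemma limit_good (hγ : Curve γ) (hx : ∀ t, γ t ≠ x) (hy : ∀ t, γ t ≠ y) {z : ℕ → ℝ × ℝ}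
    {w : ℝ × ℝ} (hz : ∀ n, Good γ x y (z n)) (hlim : Tendsto z atTop (𝓝 w))
    (hlen : ‖x - y‖ < Len γ x y w.1 w.2) : Good γ x y w :=
  ⟨limit_rel hγ hx hy (fun n => (hz n).rel) hlim hlen, limit_acc hz hlim, hlen⟩

lemma Good.shift (hγ : Curve γ) {z : ℝ × ℝ} (h : Good γ x y z) (k l : ℤ) :
    Good γ x y (z.1 + k, z.2 + l) := by
  refine ⟨(Rel.shift hγ k l).mpr h.rel, ?_, by simpa only [Len_shift hγ] using h.len⟩
  have h1 := h.acc
  rw [accPt_iff_frequently] at h1 ⊢
  have hc : Tendsto (fun w : ℝ × ℝ => ((w.1 + k, w.2 + l) : ℝ × ℝ)) (𝓝 z) (𝓝 (z.1 + k, z.2 + l)) := by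
    have : Continuous (fun w : ℝ × ℝ => ((w.1 + k, w.2 + l) : ℝ × ℝ)) := by fun_prop
    exact this.tendsto z
  refine hc.frequently (h1.mono ?_)
  rintro w ⟨h2, h3⟩
  refine ⟨?_, (Rel.shift hγ k l).mpr h3⟩
  intro h4
  apply h2
  have h5 := congrArg Prod.fst h4
  have h6 := congrArg Prod.snd h4
  simp only at h5 h6
  exact Prod.ext (by linarith) (by linarith)

lemma Branch.shift (hγ : Curve γ) {z : ℝ × ℝ} {F : ℝ → ℝ} (h : Branch γ x y z F) (k l : ℤ) :
    Branch γ x y (z.1 + k, z.2 + l) (fun t => F (t - k) + l) ∧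
      deriv (fun t => F (t - k) + l) (z.1 + k) = deriv F z.1 := by
  have hc : Tendsto (fun t : ℝ => t - k) (𝓝 (z.1 + k)) (𝓝 z.1) := by
    have : Continuous (fun t : ℝ => t - k) := by fun_prop
    have h1 := this.tendsto (z.1 + k)
    rwa [add_sub_cancel_right] at h1
  have han : AnalyticAt ℝ (fun t => F (t - k) + l) (z.1 + k) := by
    have h0 : AnalyticAt ℝ F (z.1 + k - k) := by rw [add_sub_cancel_right]; exact h.an
    have ha : AnalyticAt ℝ (fun t : ℝ => t - (k : ℝ)) (z.1 + k) :=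
      analyticAt_id.sub analyticAt_const
    exact (AnalyticAt.fun_comp (f := fun t : ℝ => t - (k : ℝ)) h0 ha).add analyticAt_const
  have hd : HasDerivAt (fun t => F (t - k) + l) (deriv F z.1) (z.1 + k) := by
    have h0 : HasDerivAt F (deriv F z.1) (z.1 + k - k) := by
      rw [add_sub_cancel_right]; exact h.an.differentiableAt.hasDerivAt
    have h1 := (h0.comp (z.1 + k) ((hasDerivAt_id (z.1 + k)).sub_const (k : ℝ))).add_const (l : ℝ)
    simpa using h1
  refine ⟨⟨han, ?_, ?_, ?_, ?_⟩, hd.deriv⟩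
  · simp only [add_sub_cancel_right, h.base]
  · simp only [hd.deriv]; exact h.ne
  · have h1 := hc.eventually h.rel
    filter_upwards [h1] with t ht
    have := (Rel.shift hγ k l).mpr ht
    rwa [sub_add_cancel] at this
  · have hc2 : Tendsto (fun w : ℝ × ℝ => ((w.1 - k, w.2 - l) : ℝ × ℝ)) (𝓝 (z.1 + k, z.2 + l)) (𝓝 z) := by
      have : Continuous (fun w : ℝ × ℝ => ((w.1 - k, w.2 - l) : ℝ × ℝ)) := by fun_prop
      have h1 := this.tendsto (z.1 + k, z.2 + l)
      simpa using h1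
    filter_upwards [hc2.eventually h.uniq] with w h1 h2
    have h3 : Rel γ x y (w.1 - k) (w.2 - l) := by
      rw [← Rel.shift hγ k l, sub_add_cancel, sub_add_cancel]; exact h2
    have h4 : w.2 - l = F (w.1 - k) := h1 h3
    change w.2 = F (w.1 - k) + l
    linarith

/-- Two branches through the same point agree near it. -/
lemma Branch.agree {v : ℝ × ℝ} {F F' : ℝ → ℝ} (h' : Branch γ x y v F')
    (hu : ∀ᶠ w in 𝓝 v, Rel γ x y w.1 w.2 → w.2 = F w.1) : F' =ᶠ[𝓝 v.1] F := by
  have hgr := tendsto_graph h'.an.continuousAt h'.base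
  filter_upwards [hgr.eventually hu, h'.rel] with t h1 h2
  exact h1 h2

lemma deriv_pos (hγ : Curve γ) (hx : ∀ t, γ t ≠ x) (hy : ∀ t, γ t ≠ y) {z₀ : ℝ × ℝ} {F₀ : ℝ → ℝ}
    (hG₀ : Good γ x y z₀) (hB₀ : Branch γ x y z₀ F₀) : 0 < deriv F₀ z₀.1 := by
  by_contra hcon
  push Not at hcon
  have hneg : deriv F₀ z₀.1 < 0 := lt_of_le_of_ne hcon hB₀.ne
  set ℓ := Len γ x y z₀.1 z₀.2 with hℓ
  set A : Set (ℝ × ℝ) := {w | w.2 < w.1 ∧ w.1 < w.2 + 1 ∧ Good γ x y w ∧ Len γ x y w.1 w.2 = ℓ ∧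
    ∃ F, Branch γ x y w F ∧ deriv F w.1 < 0} with hA
  have hAshift : ∀ w ∈ A, ∀ k : ℤ, ((w.1 + k, w.2 + k) : ℝ × ℝ) ∈ A := by
    rintro w ⟨h1, h2, h3, h4, F, h5, h6⟩ k
    refine ⟨by simp only; linarith, by simp only; linarith, h3.shift hγ k k, ?_, _, (h5.shift hγ k k).1, ?_⟩
    · simp only [Len_shift hγ]; exact h4
    · simp only [(h5.shift hγ k k).2]; exact h6
  -- A is nonempty
  have hAne : A.Nonempty := by
    set k : ℤ := ⌊z₀.1 - z₀.2⌋ with hk
    have hfr := Int.self_sub_floor (z₀.1 - z₀.2)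
    have hlt := Int.fract_lt_one (z₀.1 - z₀.2)
    have hge := Int.fract_nonneg (z₀.1 - z₀.2)
    have hne : z₀.1 ≠ z₀.2 + k := by
      intro h0
      apply hG₀.rel.1.ne_right
      rw [h0, hγ.per_int, sub_self]
    refine ⟨(z₀.1 + (0 : ℤ), z₀.2 + k), ?_, ?_, hG₀.shift hγ 0 k, ?_, _, (hB₀.shift hγ 0 k).1, ?_⟩
    · have : z₀.2 + k ≤ z₀.1 := by rw [← hfr] at hge; linarith
      rcases this.lt_or_eq with h | h
      · simpa using h
      · exact absurd h.symm hne
    · simp only [Int.cast_zero, add_zero]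
      rw [← hfr] at hlt; linarith
    · simp only [Len_shift hγ]; rfl
    · rw [(hB₀.shift hγ 0 k).2]; exact hneg
  set S : Set ℝ := (fun w : ℝ × ℝ => w.1 - w.2) '' A with hS
  have hSne : S.Nonempty := hAne.image _
  have hSb : BddBelow S := ⟨0, by
    rintro _ ⟨w, hw, rfl⟩
    have : w.2 < w.1 := hw.1
    simp only; linarith⟩
  set m := sInf S with hm
  obtain ⟨u, -, hulim, huS⟩ := exists_seq_tendsto_sInf hSne hSb
  have hw' : ∀ n, ∃ w ∈ A, w.1 - w.2 = u n ∧ w.1 ∈ Icc (0 : ℝ) 1 := by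
    intro n
    obtain ⟨w, hw, hwu⟩ := huS n
    refine ⟨(w.1 + ((-⌊w.1⌋ : ℤ) : ℝ), w.2 + ((-⌊w.1⌋ : ℤ) : ℝ)), hAshift w hw _, ?_, ?_⟩
    · simp only
      rw [← hwu]
      simp only
      ring
    · have h1 := Int.floor_le w.1
      have h2 := Int.lt_floor_add_one w.1
      constructor
      · push_cast; linarith
      · push_cast; linarith
  choose w hwA hwu hwI using hw'
  have hcomp : IsCompact (Icc (0 : ℝ) 1 ×ˢ Icc (-1 : ℝ) 1) := isCompact_Icc.prod isCompact_Icc
  have hwmem : ∀ n, w n ∈ Icc (0 : ℝ) 1 ×ˢ Icc (-1 : ℝ) 1 := by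
    intro n
    have h1 := (hwA n).1
    have h2 := (hwA n).2.1
    have h3 := (hwI n).1
    have h4 := (hwI n).2
    exact ⟨hwI n, ⟨by linarith, by linarith⟩⟩
  obtain ⟨v, -, φ, hφ, hvlim⟩ := hcomp.tendsto_subseq hwmem
  have hlen : Len γ x y v.1 v.2 = ℓ := by
    have h1 : Tendsto (fun n => Len γ x y (w (φ n)).1 (w (φ n)).2) atTop (𝓝 (Len γ x y v.1 v.2)) :=
      ((cont_Len hγ).tendsto v).comp hvlim
    refine tendsto_nhds_unique h1 ?_
    have : ∀ n, Len γ x y (w (φ n)).1 (w (φ n)).2 = ℓ := fun n => (hwA (φ n)).2.2.2.1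
    simp only [this]
    exact tendsto_const_nhds
  have hvG : Good γ x y v := limit_good hγ hx hy (fun n => (hwA (φ n)).2.2.1) hvlim
    (by rw [hlen]; exact hG₀.len)
  have hvm : v.1 - v.2 = m := by
    have h1 : Tendsto (fun n => (w (φ n)).1 - (w (φ n)).2) atTop (𝓝 (v.1 - v.2)) := by
      have : Continuous fun p : ℝ × ℝ => p.1 - p.2 := by fun_prop
      exact (this.tendsto v).comp hvlim
    refine tendsto_nhds_unique h1 ?_
    have h2 : (fun n => (w (φ n)).1 - (w (φ n)).2) = u ∘ φ := by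
      funext n; exact hwu (φ n)
    rw [h2]
    exact hulim.comp hφ.tendsto_atTop
  have hm0 : 0 ≤ m := le_csInf hSne (by
    rintro _ ⟨w, hw, rfl⟩
    have : w.2 < w.1 := hw.1
    simp only; linarith)
  have hm1 : m < 1 := by
    obtain ⟨w1, hw1⟩ := hAne
    have h1 : m ≤ w1.1 - w1.2 := csInf_le hSb ⟨w1, hw1, rfl⟩
    have := hw1.2.1
    linarith
  have hmne : m ≠ 0 := by
    intro h0
    apply hvG.rel.1.ne_right
    have : v.1 = v.2 := by linarith
    rw [this, sub_self]
  have hmpos : 0 < m := lt_of_le_of_ne hm0 hmne.symm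
  obtain ⟨F, hB⟩ := branch_exists hγ hvG
  -- the derivative at v is negative
  have hev := hvlim.eventually (eventually_eventually_nhds.mpr hB.uniq)
  have hdn : ∀ᶠ n in atTop, deriv F (w (φ n)).1 < 0 := by
    filter_upwards [hev] with n hn
    obtain ⟨F', hB', hd'⟩ := (hwA (φ n)).2.2.2.2
    have hagr : F' =ᶠ[𝓝 (w (φ n)).1] F := Branch.agree hB' hn
    rw [← hagr.deriv_eq]; exact hd'
  have hdlim : Tendsto (fun n => deriv F (w (φ n)).1) atTop (𝓝 (deriv F v.1)) :=
    hB.an.deriv.continuousAt.tendsto.comp ((continuous_fst.tendsto v).comp hvlim)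
  have hdv : deriv F v.1 < 0 :=
    lt_of_le_of_ne (le_of_tendsto hdlim (hdn.mono fun n hn => hn.le)) hB.ne
  -- move along the branch
  have hslope := hB.an.differentiableAt.hasDerivAt.tendsto_slope
  have hs : ∀ᶠ t in 𝓝[≠] v.1, slope F v.1 t < 0 := hslope.eventually_lt_const hdv
  have hs' : ∀ᶠ t in 𝓝[<] v.1, slope F v.1 t < 0 :=
    hs.filter_mono (nhdsWithin_mono _ fun t ht => ne_of_lt ht)
  have hgr := tendsto_graph hB.an.continuousAt hB.base
  have e1 : ∀ᶠ t in 𝓝 v.1, F t < t := by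
    have : {p : ℝ × ℝ | p.2 < p.1} ∈ 𝓝 v :=
      (isOpen_lt continuous_snd continuous_fst).mem_nhds (show v.2 < v.1 by linarith)
    exact hgr.eventually this
  have e2 : ∀ᶠ t in 𝓝 v.1, t < F t + 1 := by
    have : {p : ℝ × ℝ | p.1 < p.2 + 1} ∈ 𝓝 v :=
      (isOpen_lt continuous_fst (continuous_snd.add continuous_const)).mem_nhds
        (show v.1 < v.2 + 1 by linarith)
    exact hgr.eventually this
  have e3 : ∀ᶠ t in 𝓝 v.1, deriv F t < 0 :=
    hB.an.deriv.continuousAt.eventually_lt_const hdv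
  have hall := ((e1.and (e2.and (e3.and ((hB.good hγ hvG.len).and
    (hB.eventually_branch.and (hB.len_const hγ)))))).filter_mono
    (nhdsWithin_le_nhds (s := Iio v.1))).and (hs'.and self_mem_nhdsWithin)
  obtain ⟨t, ⟨h1, h2, h3, h4, h5, h6⟩, h7, h8⟩ := hall.exists
  have hmem : ((t, F t) : ℝ × ℝ) ∈ A := ⟨h1, h2, h4, by simp only [h6, hlen], F, h5, h3⟩
  have h9 : m ≤ t - F t := csInf_le hSb ⟨(t, F t), hmem, rfl⟩
  have h8' : t < v.1 := h8
  rw [slope_def_field, div_neg_iff] at h7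
  rcases h7 with h7 | h7
  · rw [hB.base] at h7
    linarith [h7.1]
  · linarith [h7.2]

end part5

section part6

variable {γ : ℝ → ℂ} {x y : ℂ}

lemma finite_zeros (hγ : Curve γ) {v a : ℂ} (hv : v ≠ 0) :
    {f : ℝ | f ∈ Icc (0 : ℝ) 1 ∧ cross v (γ f - a) = 0}.Finite := by
  by_contra hinf
  obtain ⟨b, -, hb⟩ := Set.Infinite.exists_accPt_of_subset_isCompact hinf isCompact_Icc
    (fun f hf => hf.1)
  have han : AnalyticAt ℝ (fun f => cross v (γ f - a)) b :=
    an_cross analyticAt_const ((hγ.an b).sub analyticAt_const)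
  apply not_line hγ hv (a := a) b
  rw [← han.frequently_zero_iff_eventually_zero, frequently_nhdsWithin_iff]
  rw [accPt_iff_frequently] at hb
  exact hb.mono fun f hf => ⟨hf.2.2, hf.1⟩

lemma tendsto_Len (hγ : Curve γ) {z : ℕ → ℝ × ℝ} {w : ℝ × ℝ} (h : Tendsto z atTop (𝓝 w)) :
    Tendsto (fun n => Len γ x y (z n).1 (z n).2) atTop (𝓝 (Len γ x y w.1 w.2)) :=
  ((cont_Len (x := x) (y := y) hγ).tendsto w).comp h

lemma good_everywhere (hγ : Curve γ) (hx : ∀ t, γ t ≠ x) (hy : ∀ t, γ t ≠ y) {z₀ : ℝ × ℝ}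
    (hG : Good γ x y z₀) (t : ℝ) :
    ∃ f ∈ Icc (0 : ℝ) 1, Good γ x y (t, f) ∧ Len γ x y t f = Len γ x y z₀.1 z₀.2 := by
  set ℓ := Len γ x y z₀.1 z₀.2 with hℓ
  have hnorm : ∀ t f, Good γ x y (t, f) → Len γ x y t f = ℓ →
      ∃ f' ∈ Icc (0 : ℝ) 1, Good γ x y (t, f') ∧ Len γ x y t f' = ℓ := by
    intro t f h1 h2
    refine ⟨f + ((-⌊f⌋ : ℤ) : ℝ), ?_, ?_, ?_⟩
    · have h3 := Int.floor_le f
      have h4 := Int.lt_floor_add_one f
      constructor
      · push_cast; linarith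
      · push_cast; linarith
    · have := h1.shift hγ 0 (-⌊f⌋)
      simpa using this
    · have := Len_shift (x := x) (y := y) hγ (t := t) (f := f) 0 (-⌊f⌋)
      simp only [Int.cast_zero, add_zero] at this
      rw [this, h2]
  set T : Set ℝ := {t | ∃ f, Good γ x y (t, f) ∧ Len γ x y t f = ℓ} with hT
  have hopen : IsOpen T := by
    rw [isOpen_iff_mem_nhds]
    rintro t ⟨f, h1, h2⟩
    obtain ⟨F, hB⟩ := branch_exists hγ h1
    have h3 := hB.good hγ h1.len
    have h4 := hB.len_const hγ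
    filter_upwards [h3, h4] with s h5 h6
    exact ⟨F s, h5, by rw [h6]; exact h2⟩
  have hclosed : IsClosed T := by
    apply IsSeqClosed.isClosed
    intro u t hu hut
    have h1 : ∀ n, ∃ f ∈ Icc (0 : ℝ) 1, Good γ x y (u n, f) ∧ Len γ x y (u n) f = ℓ := by
      intro n
      obtain ⟨f, h2, h3⟩ := hu n
      exact hnorm _ _ h2 h3
    choose f hfI hfG hfL using h1
    obtain ⟨g, -, φ, hφ, hlim⟩ := isCompact_Icc.tendsto_subseq hfI
    have h2 : Tendsto (fun n => ((u (φ n), f (φ n)) : ℝ × ℝ)) atTop (𝓝 (t, g)) :=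
      (hut.comp hφ.tendsto_atTop).prodMk_nhds hlim
    have h3 : Len γ x y t g = ℓ := by
      have h4 : Tendsto (fun n => Len γ x y (u (φ n)) (f (φ n))) atTop (𝓝 (Len γ x y t g)) :=
        tendsto_Len (z := fun n => ((u (φ n), f (φ n)) : ℝ × ℝ)) (w := (t, g)) hγ h2
      have h5 : (fun n => Len γ x y (u (φ n)) (f (φ n))) = fun _ => ℓ := by
        funext n; exact hfL (φ n)
      rw [h5] at h4
      exact tendsto_nhds_unique h4 tendsto_const_nhds
    refine ⟨g, ?_, h3⟩
    have h5 : ‖x - y‖ < Len γ x y t g := by rw [h3]; exact hG.len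
    exact limit_good (z := fun n => ((u (φ n), f (φ n)) : ℝ × ℝ)) (w := (t, g)) hγ hx hy
      (fun n => hfG (φ n)) h2 h5
  have hne : T.Nonempty := ⟨z₀.1, z₀.2, hG, rfl⟩
  have huniv : T = univ := IsClopen.eq_univ ⟨hclosed, hopen⟩ hne
  have ht : t ∈ T := by rw [huniv]; trivial
  obtain ⟨f, h1, h2⟩ := ht
  exact hnorm _ _ h1 h2

lemma gap (hγ : Curve γ) (hx : ∀ t, γ t ≠ x) (hy : ∀ t, γ t ≠ y) :
    ∃ ε : ℝ, 0 < ε ∧ ∀ z, Good γ x y z → ‖x - y‖ + ε ≤ Len γ x y z.1 z.2 := by
  set Z : Set ℝ := {f : ℝ | f ∈ Icc (0 : ℝ) 1 ∧ cross (out γ x 0) (γ f - γ 0) = 0} with hZ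
  have hZf : Z.Finite := finite_zeros hγ (out_ne_zero hγ hx 0)
  set T : Set ℝ := {ℓ | ‖x - y‖ < ℓ} ∩ (fun f => Len γ x y 0 f) '' Z with hT
  have hTf : T.Finite := (hZf.image _).inter_of_right _
  have hmem : ∀ z, Good γ x y z → Len γ x y z.1 z.2 ∈ T := by
    intro z hz
    obtain ⟨f, hfI, hfG, hfL⟩ := good_everywhere hγ hx hy hz 0
    exact ⟨hz.len, f, ⟨hfI, hfG.rel.1.1⟩, hfL⟩
  rcases T.eq_empty_or_nonempty with h | h
  · refine ⟨1, one_pos, fun z hz => ?_⟩
    have := hmem z hz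
    rw [h] at this
    exact this.elim
  · obtain ⟨ℓ, hℓ, hmin⟩ := Set.exists_min_image T id hTf h
    have h1 : ‖x - y‖ < ℓ := hℓ.1
    refine ⟨ℓ - ‖x - y‖, by linarith, fun z hz => ?_⟩
    have := hmin _ (hmem z hz)
    simp only [id] at this
    linarith

lemma limit_good' (hγ : Curve γ) (hx : ∀ t, γ t ≠ x) (hy : ∀ t, γ t ≠ y) {z : ℕ → ℝ × ℝ}
    {w : ℝ × ℝ} (hz : ∀ n, Good γ x y (z n)) (hlim : Tendsto z atTop (𝓝 w)) : Good γ x y w := by
  obtain ⟨ε, hε, hgap⟩ := gap hγ hx hy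
  apply limit_good hγ hx hy hz hlim
  have h1 := tendsto_Len (x := x) (y := y) hγ hlim
  have h2 := ge_of_tendsto' h1 fun n => hgap (z n) (hz n)
  linarith

end part6

section part7

variable {γ : ℝ → ℂ} {x y : ℂ} {Ω : Set ℂ}

/-! ### Sides of the curve -/

/-- two-point difference quotients converge to the derivative -/
lemma slope2 (hγ : Curve γ) {a b : ℕ → ℝ} {t₀ : ℝ} (ha : Tendsto a atTop (𝓝 t₀))
    (hb : Tendsto b atTop (𝓝 t₀)) (hab : ∀ n, a n ≠ b n) :
    Tendsto (fun n => (a n - b n)⁻¹ • (γ (a n) - γ (b n))) atTop (𝓝 (deriv γ t₀)) := by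
  have hs : HasStrictDerivAt γ (deriv γ t₀) t₀ := (hγ.an t₀).hasStrictDerivAt
  have h1 := hs.isLittleO
  have h2 : Tendsto (fun n => ((a n, b n) : ℝ × ℝ)) atTop (𝓝 (t₀, t₀)) := ha.prodMk_nhds hb
  have h3 := h1.comp_tendsto h2
  have h4 : Tendsto (fun n => (a n - b n)⁻¹ • (γ (a n) - γ (b n) - (a n - b n) • deriv γ t₀)) atTop
      (𝓝 0) := by
    have := h3.tendsto_inv_smul_nhds_zero
    simpa [Function.comp_def] using this
  have h5 := h4.add_const (deriv γ t₀)
  rw [zero_add] at h5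
  refine h5.congr fun n => ?_
  have h6 : a n - b n ≠ 0 := sub_ne_zero.mpr (hab n)
  rw [smul_sub, smul_smul, inv_mul_cancel₀ h6, one_smul, sub_add_cancel]

/-- normalisation of parameters -/
lemma norm_param (c t : ℝ) : ∃ k : ℤ, t + k ∈ Icc (c - 1 / 2) (c + 1 / 2) := by
  refine ⟨-⌊t - c + 1 / 2⌋, ?_⟩
  have h1 := Int.floor_le (t - c + 1 / 2)
  have h2 := Int.lt_floor_add_one (t - c + 1 / 2)
  push_cast
  constructor <;> linarith

lemma param_limit (hγ : Curve γ) {c : ℝ} {s : ℕ → ℝ} (hs : ∀ n, s n ∈ Icc (c - 1 / 2) (c + 1 / 2))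
    (hlim : Tendsto (fun n => γ (s n)) atTop (𝓝 (γ c))) :
    ∃ φ : ℕ → ℕ, StrictMono φ ∧ Tendsto (fun n => s (φ n)) atTop (𝓝 c) := by
  obtain ⟨g, hg, φ, hφ, hlimφ⟩ := isCompact_Icc.tendsto_subseq hs
  refine ⟨φ, hφ, ?_⟩
  have h1 : Tendsto (fun n => γ (s (φ n))) atTop (𝓝 (γ g)) := (hγ.cont.tendsto g).comp hlimφ
  have h2 : Tendsto (fun n => γ (s (φ n))) atTop (𝓝 (γ c)) := hlim.comp hφ.tendsto_atTop
  obtain ⟨k, hk⟩ := hγ.inj _ _ (tendsto_nhds_unique h1 h2)
  have h3 : (k : ℝ) ≤ 1 / 2 := by have := hg.2; linarith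
  have h4 : -(1 / 2) ≤ (k : ℝ) := by have := hg.1; linarith
  have h5 : k = 0 := by
    have h6 : (k : ℝ) < 1 := by linarith
    have h7 : (-1 : ℝ) < k := by linarith
    have h8 : k < 1 := by exact_mod_cast h6
    have h9 : -1 < k := by exact_mod_cast h7
    omega
  rw [h5, Int.cast_zero, add_zero] at hk
  rw [← hk]
  exact hlimφ

lemma avoid (hγ : Curve γ) {t₀ : ℝ} {w₀ : ℂ} (h : cross (deriv γ t₀) w₀ ≠ 0) :
    ∀ᶠ p : ℝ × ℂ × ℝ in 𝓝 (t₀, w₀, 0), 0 < p.2.2 → γ p.1 + p.2.2 • p.2.1 ∉ range γ := by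
  by_contra hcon
  have hfreq : ∃ᶠ p : ℝ × ℂ × ℝ in 𝓝 (t₀, w₀, 0), 0 < p.2.2 ∧ ∃ s, γ s = γ p.1 + p.2.2 • p.2.1 := by
    rw [not_eventually] at hcon
    refine hcon.mono fun p hp => ?_
    push Not at hp
    exact ⟨hp.1, hp.2⟩
  obtain ⟨p, hp, hp'⟩ := exists_seq_forall_of_frequently hfreq
  have hp1 : Tendsto (fun n => (p n).1) atTop (𝓝 t₀) := (continuous_fst.tendsto _).comp hp
  have hp2 : Tendsto (fun n => (p n).2.1) atTop (𝓝 w₀) :=
    ((continuous_fst.comp continuous_snd).tendsto _).comp hp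
  have hp3 : Tendsto (fun n => (p n).2.2) atTop (𝓝 0) :=
    ((continuous_snd.comp continuous_snd).tendsto _).comp hp
  have hs : ∀ n, ∃ s ∈ Icc (t₀ - 1 / 2) (t₀ + 1 / 2), γ s = γ (p n).1 + (p n).2.2 • (p n).2.1 := by
    intro n
    obtain ⟨s, hs⟩ := (hp' n).2
    obtain ⟨k, hk⟩ := norm_param t₀ s
    exact ⟨s + k, hk, by rw [hγ.per_int, hs]⟩
  choose s hsI hsγ using hs
  have hlim : Tendsto (fun n => γ (s n)) atTop (𝓝 (γ t₀)) := by
    have h1 : Tendsto (fun n => γ (p n).1 + (p n).2.2 • (p n).2.1) atTop (𝓝 (γ t₀ + (0 : ℝ) • w₀)) :=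
      ((hγ.cont.tendsto t₀).comp hp1).add (hp3.smul hp2)
    rw [zero_smul, add_zero] at h1
    exact h1.congr fun n => (hsγ n).symm
  obtain ⟨φ, hφ, hsφ⟩ := param_limit hγ hsI hlim
  have hcr : Tendsto (fun n => cross (deriv γ t₀) (p (φ n)).2.1) atTop (𝓝 (cross (deriv γ t₀) w₀)) := by
    have h1 : ContinuousAt (fun w => cross (deriv γ t₀) w) w₀ := cont_cross continuousAt_const continuousAt_id
    exact h1.tendsto.comp (hp2.comp hφ.tendsto_atTop)
  obtain ⟨N, hN⟩ := eventually_atTop.mp (hcr.eventually_ne h)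
  -- shifted sequences
  set a : ℕ → ℝ := fun n => s (φ (n + N)) with ha
  set b : ℕ → ℝ := fun n => (p (φ (n + N))).1 with hb
  have hsh : Tendsto (fun n : ℕ => n + N) atTop atTop := tendsto_add_atTop_nat N
  have ha1 : Tendsto a atTop (𝓝 t₀) := hsφ.comp hsh
  have hb1 : Tendsto b atTop (𝓝 t₀) := (hp1.comp hφ.tendsto_atTop).comp hsh
  have hdiff : ∀ n, γ (a n) - γ (b n) = (p (φ (n + N))).2.2 • (p (φ (n + N))).2.1 := by
    intro n
    simp only [ha, hb, hsγ, add_sub_cancel_left]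
  have hab : ∀ n, a n ≠ b n := by
    intro n heq
    have h1 := hdiff n
    rw [heq, sub_self] at h1
    rcases smul_eq_zero.mp h1.symm with h2 | h2
    · exact (hp' (φ (n + N))).1.ne' h2
    · apply hN (n + N) (by omega)
      rw [h2]; simp [cross]
  have hsl := slope2 hγ ha1 hb1 hab
  set q : ℕ → ℝ := fun n => (a n - b n)⁻¹ * (p (φ (n + N))).2.2 with hq
  have hsl' : Tendsto (fun n => q n • (p (φ (n + N))).2.1) atTop (𝓝 (deriv γ t₀)) := by
    refine hsl.congr fun n => ?_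
    rw [hdiff, smul_smul]
  have hc1 : Tendsto (fun n => q n * cross (deriv γ t₀) (p (φ (n + N))).2.1) atTop (𝓝 0) := by
    have h1 : ContinuousAt (fun w => cross (deriv γ t₀) w) (deriv γ t₀) :=
      cont_cross continuousAt_const continuousAt_id
    have h2 := h1.tendsto.comp hsl'
    rw [cross_self] at h2
    refine h2.congr fun n => ?_
    simp only [Function.comp_def, cross_smul_right]
  have hc2 : Tendsto (fun n => cross (deriv γ t₀) (p (φ (n + N))).2.1) atTop
      (𝓝 (cross (deriv γ t₀) w₀)) := hcr.comp hsh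
  have hq0 : Tendsto q atTop (𝓝 0) := by
    have h1 := hc1.div hc2 h
    rw [zero_div] at h1
    refine h1.congr fun n => ?_
    have h2 := hN (n + N) (by omega)
    simp only [Pi.div_apply]
    exact mul_div_cancel_right₀ _ h2
  have hz := hq0.smul ((hp2.comp hφ.tendsto_atTop).comp hsh)
  rw [zero_smul] at hz
  exact hγ.reg t₀ (tendsto_nhds_unique hsl' hz)

/-- `Side γ A t w`: near `γ t`, the rays in directions near `w` start in `A`. -/
def Side (γ : ℝ → ℂ) (A : Set ℂ) (q : ℝ × ℂ) : Prop :=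
  ∀ᶠ p : ℝ × ℂ × ℝ in 𝓝 (q.1, q.2, 0), 0 < p.2.2 → γ p.1 + p.2.2 • p.2.1 ∈ A

lemma Side.ray {A : Set ℂ} {t : ℝ} {w : ℂ} (h : Side γ A (t, w)) :
    ∀ᶠ ε : ℝ in 𝓝[>] 0, γ t + ε • w ∈ A := by
  have h1 : Tendsto (fun ε : ℝ => ((t, w, ε) : ℝ × ℂ × ℝ)) (𝓝[>] 0) (𝓝 (t, w, 0)) := by
    have : Continuous (fun ε : ℝ => ((t, w, ε) : ℝ × ℂ × ℝ)) := by fun_prop
    exact (this.tendsto 0).mono_left nhdsWithin_le_nhds
  filter_upwards [h1.eventually h, self_mem_nhdsWithin] with ε h2 h3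
  exact h2 h3

lemma side_disjoint {A B : Set ℂ} (hAB : Disjoint A B) {q : ℝ × ℂ} (h1 : Side γ A q)
    (h2 : Side γ B q) : False := by
  obtain ⟨t, w⟩ := q
  obtain ⟨ε, h3, h4⟩ := (h1.ray.and h2.ray).exists
  exact Set.disjoint_left.mp hAB h3 h4

lemma side_open {A : Set ℂ} : IsOpen {q : ℝ × ℂ | Side γ A q} := by
  have h1 : IsOpen {p₀ : ℝ × ℂ × ℝ | ∀ᶠ p in 𝓝 p₀, 0 < p.2.2 → γ p.1 + p.2.2 • p.2.1 ∈ A} :=
    isOpen_setOfPred_eventually_nhds
  have h2 : Continuous fun q : ℝ × ℂ => ((q.1, q.2, 0) : ℝ × ℂ × ℝ) := by fun_prop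
  exact h1.preimage h2

lemma side_or (hγ : Curve γ) (hop : IsOpen Ω) (hfr : frontier Ω = range γ) {q : ℝ × ℂ}
    (h : cross (deriv γ q.1) q.2 ≠ 0) : Side γ Ω q ∨ Side γ (closure Ω)ᶜ q := by
  obtain ⟨δ, hδ, hball⟩ := Metric.eventually_nhds_iff_ball.mp (avoid hγ h)
  set B : Set (ℝ × ℂ × ℝ) := Metric.ball (q.1, q.2, 0) δ ∩ {p | 0 < p.2.2} with hB
  have hconv : Convex ℝ B := by
    refine (convex_ball _ _).inter ?_
    have h1 : IsLinearMap ℝ (fun p : ℝ × ℂ × ℝ => p.2.2) := ⟨fun _ _ => rfl, fun _ _ => rfl⟩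
    exact convex_halfSpace_gt h1 0
  have hcont : Continuous (fun p : ℝ × ℂ × ℝ => γ p.1 + p.2.2 • p.2.1) := by
    have := hγ.cont
    fun_prop
  have hpre : IsPreconnected ((fun p : ℝ × ℂ × ℝ => γ p.1 + p.2.2 • p.2.1) '' B) :=
    hconv.isPreconnected.image _ hcont.continuousOn
  have hsub : (fun p : ℝ × ℂ × ℝ => γ p.1 + p.2.2 • p.2.1) '' B ⊆ Ω ∪ (closure Ω)ᶜ := by
    rintro _ ⟨p, ⟨hp1, hp2⟩, rfl⟩
    have h1 := hball p hp1 hp2
    rw [← hfr, hop.frontier_eq] at h1
    by_cases h2 : γ p.1 + p.2.2 • p.2.1 ∈ Ω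
    · exact Or.inl h2
    · right
      intro h3
      exact h1 ⟨h3, h2⟩
  have hdis : Disjoint Ω (closure Ω)ᶜ := by
    rw [Set.disjoint_compl_right_iff_subset]; exact subset_closure
  rcases hpre.subset_or_subset hop isClosed_closure.isOpen_compl hdis hsub with h1 | h1
  · left
    refine Metric.eventually_nhds_iff_ball.mpr ⟨δ, hδ, fun p hp hp2 => ?_⟩
    exact h1 ⟨p, ⟨hp, hp2⟩, rfl⟩
  · right
    refine Metric.eventually_nhds_iff_ball.mpr ⟨δ, hδ, fun p hp hp2 => ?_⟩
    exact h1 ⟨p, ⟨hp, hp2⟩, rfl⟩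


lemma cross_I (a : ℂ) : cross a (Complex.I * a) = dot a a := by
  simp [cross, dot]

lemma cross_add_right (a b c : ℂ) : cross a (b + c) = cross a b + cross a c := by
  simp [cross]; ring

lemma cross_neg_right (a b : ℂ) : cross a (-b) = -cross a b := by
  simp [cross]; ring

lemma pos_side_preconn (hγ : Curve γ) :
    IsPreconnected {q : ℝ × ℂ | 0 < cross (deriv γ q.1) q.2} := by
  have h1 : IsPreconnected {p : ℝ × ℝ × ℝ | 0 < p.2.2} := by
    have h2 : IsLinearMap ℝ (fun p : ℝ × ℝ × ℝ => p.2.2) := ⟨fun _ _ => rfl, fun _ _ => rfl⟩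
    exact (convex_halfSpace_gt h2 0).isPreconnected
  have hc : Continuous (fun p : ℝ × ℝ × ℝ =>
      ((p.1, p.2.1 • deriv γ p.1 + p.2.2 • (Complex.I * deriv γ p.1)) : ℝ × ℂ)) := by
    have := hγ.cont_deriv
    fun_prop
  have h3 := h1.image _ hc.continuousOn
  convert! h3 using 1
  ext ⟨t, w⟩
  constructor
  · intro h
    have hp := dot_self_pos (hγ.reg t)
    have h4 := smul_decomp (deriv γ t) w
    refine ⟨(t, dot (deriv γ t) w / dot (deriv γ t) (deriv γ t),
      cross (deriv γ t) w / dot (deriv γ t) (deriv γ t)), div_pos h hp, ?_⟩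
    simp only [Prod.mk.injEq, true_and]
    rw [div_eq_inv_mul, div_eq_inv_mul, mul_smul, mul_smul, ← smul_add, ← h4, smul_smul,
      inv_mul_cancel₀ hp.ne', one_smul]
  · rintro ⟨⟨t', a, b⟩, h4, h5⟩
    simp only [Prod.mk.injEq] at h5
    obtain ⟨rfl, rfl⟩ := h5
    change 0 < cross (deriv γ t') (a • deriv γ t' + b • (Complex.I * deriv γ t'))
    rw [cross_add_right, cross_smul_right, cross_smul_right, cross_self, cross_I, mul_zero, zero_add]
    exact mul_pos h4 (dot_self_pos (hγ.reg t'))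

lemma neg_side_preconn (hγ : Curve γ) :
    IsPreconnected {q : ℝ × ℂ | cross (deriv γ q.1) q.2 < 0} := by
  have hc : Continuous (fun q : ℝ × ℂ => ((q.1, -q.2) : ℝ × ℂ)) := by fun_prop
  have h3 := (pos_side_preconn hγ).image _ hc.continuousOn
  convert! h3 using 1
  ext ⟨t, w⟩
  constructor
  · intro h
    refine ⟨(t, -w), ?_, by simp⟩
    change 0 < cross (deriv γ t) (-w)
    rw [cross_neg_right]
    have : cross (deriv γ t) w < 0 := h
    linarith
  · rintro ⟨⟨t', a⟩, h4, h5⟩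
    simp only [Prod.mk.injEq] at h5
    obtain ⟨rfl, rfl⟩ := h5
    have h6 : 0 < cross (deriv γ t') a := h4
    change cross (deriv γ t') (-a) < 0
    rw [cross_neg_right]
    linarith

lemma side_const (hγ : Curve γ) (hop : IsOpen Ω) (hfr : frontier Ω = range γ) {S : Set (ℝ × ℂ)}
    (hS : IsPreconnected S) (hne : ∀ q ∈ S, cross (deriv γ q.1) q.2 ≠ 0) :
    (∀ q ∈ S, Side γ Ω q) ∨ (∀ q ∈ S, Side γ (closure Ω)ᶜ q) := by
  have hdis : Disjoint Ω (closure Ω)ᶜ := by
    rw [Set.disjoint_compl_right_iff_subset]; exact subset_closure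
  have h1 : Disjoint {q : ℝ × ℂ | Side γ Ω q} {q : ℝ × ℂ | Side γ (closure Ω)ᶜ q} := by
    rw [Set.disjoint_left]
    intro q h2 h3
    exact side_disjoint hdis h2 h3
  have h2 : S ⊆ {q : ℝ × ℂ | Side γ Ω q} ∪ {q : ℝ × ℂ | Side γ (closure Ω)ᶜ q} := by
    intro q hq
    exact side_or hγ hop hfr (hne q hq)
  exact hS.subset_or_subset side_open side_open h1 h2

/-- a point of the curve where a ray leaves the closure -/
lemma exists_out (hγ : Curve γ) (hop : IsOpen Ω) (hfr : frontier Ω = range γ)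
    (hb : Bornology.IsBounded Ω) (hx : x ∈ Ω) :
    ∃ q : ℝ × ℂ, cross (deriv γ q.1) q.2 ≠ 0 ∧ Side γ (closure Ω)ᶜ q := by
  have hK : IsCompact (closure Ω) := hb.isCompact_closure
  obtain ⟨z, hz, hmax⟩ := hK.exists_isMaxOn ⟨x, subset_closure hx⟩ Complex.continuous_re.continuousOn
  have hnot : ∀ ε : ℝ, 0 < ε → z + ε • (1 : ℂ) ∉ closure Ω := by
    intro ε hε h1
    have h2 : (z + ε • (1 : ℂ)).re ≤ z.re := hmax h1
    simp at h2
    linarith
  have hzΩ : z ∉ Ω := by
    intro h1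
    have h2 : Tendsto (fun ε : ℝ => z + ε • (1 : ℂ)) (𝓝[>] 0) (𝓝 z) := by
      have : Continuous (fun ε : ℝ => z + ε • (1 : ℂ)) := by fun_prop
      have h3 := this.tendsto 0
      rw [zero_smul, add_zero] at h3
      exact h3.mono_left nhdsWithin_le_nhds
    obtain ⟨ε, h4, h5⟩ := ((h2.eventually (hop.mem_nhds h1)).and self_mem_nhdsWithin).exists
    exact hnot ε h5 (subset_closure h4)
  have hzf : z ∈ range γ := by
    rw [← hfr, hop.frontier_eq]; exact ⟨hz, hzΩ⟩
  obtain ⟨t, rfl⟩ := hzf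
  have hre : (deriv γ t).re = 0 := by
    have hloc : IsLocalMax (fun s => (γ s).re) t := by
      refine Filter.Eventually.of_forall fun s => ?_
      have : γ s ∈ closure Ω := by
        have : γ s ∈ frontier Ω := by rw [hfr]; exact mem_range_self s
        exact frontier_subset_closure this
      exact hmax this
    exact hloc.hasDerivAt_eq_zero (hd_re (hγ.hd t))
  have him : (deriv γ t).im ≠ 0 := by
    intro h1
    exact hγ.reg t (Complex.ext hre h1)
  have hcr : cross (deriv γ t) 1 ≠ 0 := by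
    simp only [cross, Complex.one_re, Complex.one_im, mul_zero, mul_one, zero_sub, ne_eq, neg_eq_zero]
    exact him
  refine ⟨(t, 1), hcr, ?_⟩
  rcases side_or hγ hop hfr (q := (t, 1)) hcr with h1 | h1
  · exfalso
    obtain ⟨ε, h2, h3⟩ := (h1.ray.and self_mem_nhdsWithin).exists
    exact hnot ε h3 (subset_closure h2)
  · exact h1

/-- a point of the curve seen transversally from `x` -/
lemma exists_in (hγ : Curve γ) (hop : IsOpen Ω) (hfr : frontier Ω = range γ) (hx : x ∈ Ω) :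
    ∃ t : ℝ, cross (deriv γ t) (x - γ t) ≠ 0 ∧ (∀ r : ℝ, 0 ≤ r → r < 1 → x + r • (γ t - x) ∈ Ω) := by
  have hcont : Continuous fun t => ‖γ t - x‖ := (hγ.cont.sub continuous_const).norm
  obtain ⟨t, -, hmin⟩ := isCompact_Icc.exists_isMinOn (s := Icc (0 : ℝ) 1)
    ⟨0, by constructor <;> norm_num⟩ hcont.continuousOn
  have hmin' : ∀ s, ‖γ t - x‖ ≤ ‖γ s - x‖ := by
    intro s
    obtain ⟨k, hk⟩ := norm_param (1 / 2) s
    have h1 : s + k ∈ Icc (0 : ℝ) 1 := by
      constructor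
      · have := hk.1; linarith
      · have := hk.2; linarith
    have h2 := hmin h1
    simp only [mem_ofPred_eq, hγ.per_int] at h2
    exact h2
  have hxC : ∀ s, γ s ≠ x := by
    intro s h1
    have h2 : x ∈ frontier Ω := by rw [hfr]; exact ⟨s, h1⟩
    rw [hop.frontier_eq] at h2
    exact h2.2 hx
  have hd : 0 < ‖γ t - x‖ := norm_pos_iff.mpr (sub_ne_zero.mpr (hxC t))
  have hball : Metric.ball x ‖γ t - x‖ ⊆ Ω := by
    have hpre : IsPreconnected (Metric.ball x ‖γ t - x‖) := (convex_ball _ _).isPreconnected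
    have hsub : Metric.ball x ‖γ t - x‖ ⊆ Ω ∪ (closure Ω)ᶜ := by
      intro z hz
      by_cases h2 : z ∈ Ω
      · exact Or.inl h2
      · right
        intro h3
        have h4 : z ∈ frontier Ω := by rw [hop.frontier_eq]; exact ⟨h3, h2⟩
        rw [hfr] at h4
        obtain ⟨s, rfl⟩ := h4
        have h5 := hmin' s
        rw [Metric.mem_ball, dist_eq_norm] at hz
        linarith
    have hdis : Disjoint Ω (closure Ω)ᶜ := by
      rw [Set.disjoint_compl_right_iff_subset]; exact subset_closure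
    rcases hpre.subset_or_subset hop isClosed_closure.isOpen_compl hdis hsub with h1 | h1
    · exact h1
    · exact absurd (subset_closure hx) (h1 (Metric.mem_ball_self hd))
  have hdot : dot (γ t - x) (deriv γ t) = 0 := by
    have hloc : IsLocalMin (fun s => ‖γ s - x‖) t := Filter.Eventually.of_forall hmin'
    have h1 := hloc.hasDerivAt_eq_zero (hd_norm ((hγ.hd t).sub_const x) (sub_ne_zero.mpr (hxC t)))
    rcases div_eq_zero_iff.mp h1 with h2 | h2
    · exact h2
    · exact absurd h2 hd.ne'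
  refine ⟨t, ?_, ?_⟩
  · intro h0
    have h1 : cross (γ t - x) (deriv γ t) = 0 := by
      rw [cross_comm]
      have : cross (deriv γ t) (γ t - x) = - cross (deriv γ t) (x - γ t) := by
        simp [cross]; ring
      rw [this, h0]; simp
    have h2 := lagrange (γ t - x) (deriv γ t)
    rw [h1, hdot] at h2
    have h3 := dot_self_pos (sub_ne_zero.mpr (hxC t))
    have h4 := dot_self_pos (hγ.reg t)
    have h5 := mul_pos h3 h4
    rw [← h2] at h5
    norm_num at h5
  · intro r h1 h2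
    apply hball
    rw [Metric.mem_ball, dist_eq_norm, add_sub_cancel_left, norm_smul, Real.norm_of_nonneg h1]
    nlinarith

/-- A domain bounded by the curve, lying on its left. -/
structure LDom (γ : ℝ → ℂ) (Ω : Set ℂ) : Prop where
  curve : Curve γ
  op : IsOpen Ω
  fr : frontier Ω = range γ
  bdd : Bornology.IsBounded Ω
  inn : ∀ q : ℝ × ℂ, 0 < cross (deriv γ q.1) q.2 → Side γ Ω q
  outt : ∀ q : ℝ × ℂ, cross (deriv γ q.1) q.2 < 0 → Side γ (closure Ω)ᶜ q

lemma Curve.reverse (hγ : Curve γ) : Curve (fun t => γ (-t)) ∧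
    ∀ t, deriv (fun t => γ (-t)) t = - deriv γ (-t) := by
  have hd : ∀ t, deriv (fun t => γ (-t)) t = - deriv γ (-t) := by
    intro t
    exact deriv_comp_neg γ t
  refine ⟨⟨?_, ?_, ?_, ?_⟩, hd⟩
  · intro t
    exact AnalyticAt.fun_comp (hγ.an (-t)) analyticAt_id.neg
  · intro t
    have h1 := hγ.per (-(t + 1))
    have h2 : -(t + 1) + 1 = -t := by ring
    rw [h2] at h1
    exact h1.symm
  · intro t
    rw [hd]
    exact neg_ne_zero.mpr (hγ.reg _)
  · intro s t h
    obtain ⟨k, hk⟩ := hγ.inj _ _ h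
    refine ⟨-k, ?_⟩
    push_cast
    linarith

lemma orient (hγ : Curve γ) (hop : IsOpen Ω) (hfr : frontier Ω = range γ)
    (hb : Bornology.IsBounded Ω) (hx : x ∈ Ω) :
    LDom γ Ω ∨ LDom (fun t => γ (-t)) Ω := by
  have hdis : Disjoint Ω (closure Ω)ᶜ := by
    rw [Set.disjoint_compl_right_iff_subset]; exact subset_closure
  obtain ⟨q₁, hq₁, hs₁⟩ := exists_out hγ hop hfr hb hx
  obtain ⟨t₂, ht₂, hv₂⟩ := exists_in hγ hop hfr hx
  have hs₂ : Side γ Ω (t₂, x - γ t₂) := by
    rcases side_or hγ hop hfr (q := (t₂, x - γ t₂)) ht₂ with h1 | h1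
    · exact h1
    · exfalso
      have h2 : ∀ᶠ ε : ℝ in 𝓝[>] 0, ε < 1 := nhdsWithin_le_nhds (Iio_mem_nhds one_pos)
      obtain ⟨ε, ⟨h3, h4⟩, h5⟩ := ((h1.ray.and h2).and self_mem_nhdsWithin).exists
      have h5' : 0 < ε := h5
      have h6 := hv₂ (1 - ε) (by linarith) (by linarith)
      have h7 : x + (1 - ε) • (γ t₂ - x) = γ t₂ + ε • (x - γ t₂) := by
        apply Complex.ext <;> simp <;> ring
      rw [h7] at h6
      exact h3 (subset_closure h6)
  have hpos := side_const hγ hop hfr (pos_side_preconn hγ) (fun q hq => (ne_of_gt hq))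
  have hneg := side_const hγ hop hfr (neg_side_preconn hγ) (fun q hq => (ne_of_lt hq))
  rcases hpos with hpos | hpos
  · -- positive side inside
    left
    refine ⟨hγ, hop, hfr, hb, hpos, ?_⟩
    rcases hneg with hneg | hneg
    · exfalso
      rcases lt_or_gt_of_ne hq₁ with h1 | h1
      · exact side_disjoint hdis (hneg q₁ h1) hs₁
      · exact side_disjoint hdis (hpos q₁ h1) hs₁
    · exact hneg
  · right
    obtain ⟨hγ', hd'⟩ := hγ.reverse
    have hneg' : ∀ q : ℝ × ℂ, cross (deriv γ q.1) q.2 < 0 → Side γ Ω q := by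
      rcases hneg with hneg | hneg
      · exact hneg
      · exfalso
        rcases lt_or_gt_of_ne ht₂ with h1 | h1
        · exact side_disjoint hdis hs₂ (hneg (t₂, x - γ t₂) h1)
        · exact side_disjoint hdis hs₂ (hpos (t₂, x - γ t₂) h1)
    have hconv : ∀ (A : Set ℂ) (q : ℝ × ℂ), Side γ A (-q.1, q.2) → Side (fun t => γ (-t)) A q := by
      intro A q h1
      have h2 : Tendsto (fun p : ℝ × ℂ × ℝ => ((-p.1, p.2) : ℝ × ℂ × ℝ)) (𝓝 (q.1, q.2, 0))
          (𝓝 (-q.1, q.2, 0)) := by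
        have : Continuous (fun p : ℝ × ℂ × ℝ => ((-p.1, p.2) : ℝ × ℂ × ℝ)) := by fun_prop
        exact this.tendsto (q.1, q.2, 0)
      exact h2.eventually h1
    refine ⟨hγ', hop, ?_, hb, ?_, ?_⟩
    · rw [hfr]
      ext z
      constructor
      · rintro ⟨s, rfl⟩
        exact ⟨-s, by simp⟩
      · rintro ⟨s, rfl⟩
        exact ⟨-s, rfl⟩
    · intro q hq
      apply hconv
      apply hneg'
      rw [hd'] at hq
      have : cross (-deriv γ (-q.1)) q.2 = - cross (deriv γ (-q.1)) q.2 := by simp [cross]; ring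
      rw [this] at hq
      change cross (deriv γ (-q.1)) q.2 < 0
      linarith
    · intro q hq
      apply hconv
      apply hpos (-q.1, q.2)
      rw [hd'] at hq
      have : cross (-deriv γ (-q.1)) q.2 = - cross (deriv γ (-q.1)) q.2 := by simp [cross]; ring
      rw [this] at hq
      change 0 < cross (deriv γ (-q.1)) q.2
      linarith

end part7

section part8

variable {γ : ℝ → ℂ} {x y : ℂ} {Ω : Set ℂ}

/-! ### Segments in the closure, and the bump lemma -/

/-- the closed segment from `a` to `b` lies in the closure of `Ω` -/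
def CSeg (Ω : Set ℂ) (a b : ℂ) : Prop := ∀ r : ℝ, 0 ≤ r → r ≤ 1 → a + r • (b - a) ∈ closure Ω

lemma CSeg.symm {a b : ℂ} (h : CSeg Ω a b) : CSeg Ω b a := by
  intro r h0 h1
  have h2 := h (1 - r) (by linarith) (by linarith)
  have h3 : a + (1 - r) • (b - a) = b + r • (a - b) := by
    apply Complex.ext <;> simp <;> ring
  rwa [h3] at h2

lemma cseg_cross (hD : LDom γ Ω) {a : ℂ} {t : ℝ} (h : CSeg Ω a (γ t)) :
    0 ≤ cross (deriv γ t) (a - γ t) := by
  by_contra hcon
  push Not at hcon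
  have h1 := (hD.outt (t, a - γ t) hcon).ray
  have h2 : ∀ᶠ ε : ℝ in 𝓝[>] 0, ε < 1 := nhdsWithin_le_nhds (Iio_mem_nhds one_pos)
  obtain ⟨ε, ⟨h3, h4⟩, h5⟩ := ((h1.and h2).and self_mem_nhdsWithin).exists
  have h5' : 0 < ε := h5
  exact h3 (h.symm ε h5'.le h4.le)

lemma deriv_deriv_nonpos {f : ℝ → ℝ} {t : ℝ} (hmax : IsLocalMax f t) (hc : ContinuousAt f t) :
    deriv (deriv f) t ≤ 0 := by
  by_contra hcon
  push Not at hcon
  have h1 : IsLocalMin f t := isLocalMin_of_deriv_deriv_pos hcon hmax.deriv_eq_zero hc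
  have h2 : f =ᶠ[𝓝 t] fun _ => f t := by
    filter_upwards [hmax, h1] with s h3 h4
    exact le_antisymm h3 h4
  have h3 : deriv f =ᶠ[𝓝 t] fun _ => 0 := by
    have := h2.deriv
    refine this.trans ?_
    filter_upwards with s
    exact deriv_const _ _
  have h4 := h3.deriv_eq
  rw [deriv_const] at h4
  linarith

lemma tangent_side (hD : LDom γ Ω) {a b : ℂ} {t c : ℝ} (h1 : CSeg Ω a (γ t)) (h2 : CSeg Ω (γ t) b)
    (ha : γ t ≠ a) (hc : 0 < c) (hb : b - γ t = c • (γ t - a))
    (ht : cross (deriv γ t) (γ t - a) = 0) :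
    ∀ᶠ s in 𝓝 t, cross (deriv γ t) (γ s - γ t) ≤ 0 := by
  set τ := deriv γ t with hτ
  have hτp : 0 < dot τ τ := dot_self_pos (hD.curve.reg t)
  have hX : γ t - a ≠ 0 := sub_ne_zero.mpr ha
  have hτX : τ = (dot (γ t - a) τ / dot (γ t - a) (γ t - a)) • (γ t - a) := by
    apply eq_smul_of_cross hX
    rw [cross_comm, ht, neg_zero]
  set κ := dot (γ t - a) τ / dot (γ t - a) (γ t - a) with hκ
  have hside : Side γ (closure Ω)ᶜ (t, -(Complex.I * τ)) := by
    apply hD.outt
    change cross τ (-(Complex.I * τ)) < 0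
    rw [cross_neg_right, cross_I]
    linarith
  set α : ℝ → ℝ := fun s => dot τ (γ s - γ t) / dot τ τ with hα
  set β : ℝ → ℝ := fun s => cross τ (γ s - γ t) / dot τ τ with hβ
  have hαc : Tendsto (fun s => α s * κ) (𝓝 t) (𝓝 0) := by
    have h3 : ContinuousAt (fun s => α s * κ) t :=
      ((cont_dot continuousAt_const (hD.curve.cont.continuousAt.sub continuousAt_const)).div_const
        (dot τ τ)).mul continuousAt_const
    have h4 := h3.tendsto
    have h5 : α t * κ = 0 := by simp [hα, dot]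
    rwa [h5] at h4
  have hβc : Tendsto β (𝓝 t) (𝓝 0) := by
    have h3 : ContinuousAt β t :=
      (cont_cross continuousAt_const (hD.curve.cont.continuousAt.sub continuousAt_const)).div_const
        (dot τ τ)
    have h4 := h3.tendsto
    have h5 : β t = 0 := by simp [hβ, cross]
    rwa [h5] at h4
  have htend : Tendsto (fun s => ((s, -(Complex.I * τ), β s) : ℝ × ℂ × ℝ)) (𝓝 t)
      (𝓝 (t, -(Complex.I * τ), 0)) :=
    tendsto_id.prodMk_nhds (tendsto_const_nhds.prodMk_nhds hβc)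
  have e1 : ∀ᶠ s in 𝓝 t, -1 < α s * κ := hαc.eventually (lt_mem_nhds (by norm_num))
  have e2 : ∀ᶠ s in 𝓝 t, α s * κ < c := hαc.eventually (gt_mem_nhds hc)
  filter_upwards [htend.eventually hside, e1, e2] with s h3 h4 h5
  by_contra hcon
  push Not at hcon
  have hβp : 0 < β s := div_pos hcon hτp
  have h6 := h3 hβp
  apply h6
  have h7 : γ s + β s • (-(Complex.I * τ)) = γ t + (α s * κ) • (γ t - a) := by
    have h8 := smul_decomp τ (γ s - γ t)
    have h9 : γ s - γ t = α s • τ + β s • (Complex.I * τ) := by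
      have h10 : (dot τ τ)⁻¹ • ((dot τ τ) • (γ s - γ t)) = γ s - γ t := by
        rw [smul_smul, inv_mul_cancel₀ hτp.ne', one_smul]
      rw [← h10, h8, smul_add, smul_smul, smul_smul]
      simp only [hα, hβ, div_eq_inv_mul]
    rw [mul_smul, ← hτX, smul_neg]
    have h11 : γ s = γ t + (α s • τ + β s • (Complex.I * τ)) := by rw [← h9]; abel
    rw [h11]; abel
  rw [h7]
  rcases le_total (α s * κ) 0 with h8 | h8
  · have h9 := h1.symm (-(α s * κ)) (by linarith) (by linarith)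
    have h10 : γ t + -(α s * κ) • (a - γ t) = γ t + (α s * κ) • (γ t - a) := by
      apply Complex.ext <;> simp <;> ring
    rwa [h10] at h9
  · have h9 := h2 (α s * κ / c) (by positivity) (by rw [div_le_one hc]; exact h5.le)
    have h10 : γ t + (α s * κ / c) • (b - γ t) = γ t + (α s * κ) • (γ t - a) := by
      rw [hb, smul_smul, div_mul_cancel₀ _ hc.ne']
    rwa [h10] at h9

lemma bump (hD : LDom γ Ω) (hx : ∀ t, γ t ≠ x) (hy : ∀ t, γ t ≠ y) {t₀ f₀ : ℝ}
    (hG : Good γ x y (t₀, f₀)) (h1 : CSeg Ω x (γ t₀)) (h2 : CSeg Ω (γ t₀) (γ f₀))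
    (ht : cross (deriv γ t₀) (γ t₀ - x) = 0) : False := by
  have hγ := hD.curve
  obtain ⟨F, hB⟩ := branch_exists hγ hG
  have hF' : 0 < deriv F t₀ := deriv_pos hγ hx hy hG hB
  have hFan : AnalyticAt ℝ F t₀ := hB.an
  have hF0 : F t₀ = f₀ := hB.base
  set τ₀ := deriv γ t₀ with hτ₀
  set X₀ := γ t₀ - x with hX₀
  have hτp : 0 < dot τ₀ τ₀ := dot_self_pos (hγ.reg t₀)
  have hX0 : X₀ ≠ 0 := sub_ne_zero.mpr (hx t₀)
  have hXp : 0 < dot X₀ X₀ := dot_self_pos hX0
  have hout0 : out γ x t₀ = (dot τ₀ τ₀) • X₀ := rf_of_cross_zero ht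
  obtain ⟨l, hl, hlD⟩ := hG.rel.1.exists
  have hchord : γ f₀ - γ t₀ = (l * dot τ₀ τ₀) • X₀ := by
    have : γ f₀ - γ t₀ = l • out γ x t₀ := hlD
    rw [this, hout0, smul_smul]
  have hcpos : 0 < l * dot τ₀ τ₀ := mul_pos hl hτp
  -- second order condition
  have hside := tangent_side hD h1 h2 (hx t₀) hcpos hchord ht
  set ζ : ℝ → ℝ := fun s => cross τ₀ (γ s - γ t₀) with hζ
  have hζd : ∀ s, HasDerivAt ζ (cross τ₀ (deriv γ s)) s := by
    intro s
    have h3 := hd_cross (hasDerivAt_const s τ₀) ((hγ.hd s).sub_const (γ t₀))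
    convert! h3 using 1
    simp [cross]
  have hζd' : deriv ζ = fun s => cross τ₀ (deriv γ s) := by
    funext s; exact (hζd s).deriv
  have hγ2 : HasDerivAt (deriv γ) (deriv (deriv γ) t₀) t₀ :=
    (hγ.an_deriv t₀).differentiableAt.hasDerivAt
  have hζdd : deriv (deriv ζ) t₀ = cross τ₀ (deriv (deriv γ) t₀) := by
    rw [hζd']
    have h3 := hd_cross (hasDerivAt_const t₀ τ₀) hγ2
    rw [h3.deriv]
    simp [cross]
  have hmax : IsLocalMax ζ t₀ := by
    filter_upwards [hside] with s hs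
    have : ζ t₀ = 0 := by simp [hζ, cross]
    rw [this]
    exact hs
  have hsec := deriv_deriv_nonpos hmax (hζd t₀).continuousAt
  rw [hζdd] at hsec
  have hτX : τ₀ = (dot X₀ τ₀ / dot X₀ X₀) • X₀ := by
    apply eq_smul_of_cross hX0
    rw [cross_comm, ht, neg_zero]
  rw [hτX, cross_smul_left] at hsec
  -- differentiate the chord equation
  have houtp : 0 < dot (out γ x t₀) (out γ x t₀) := dot_self_pos (out_ne_zero hγ hx t₀)
  set lam : ℝ → ℝ := fun t => dot (out γ x t) (γ (F t) - γ t) / dot (out γ x t) (out γ x t) with hlam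
  have hγF : HasDerivAt (fun s => γ (F s)) (deriv F t₀ • deriv γ (F t₀)) t₀ :=
    (hγ.hd (F t₀)).scomp t₀ hFan.differentiableAt.hasDerivAt
  have hXd : HasDerivAt (fun s => γ s - x) τ₀ t₀ := (hγ.hd t₀).sub_const x
  have hod : HasDerivAt (out γ x) (deriv (out γ x) t₀) t₀ :=
    (hγ.an_out x t₀).differentiableAt.hasDerivAt
  have hlamd : DifferentiableAt ℝ lam t₀ := by
    have h3 := hd_dot hod (hγF.sub (hγ.hd t₀))
    have h4 := hd_dot hod hod
    exact (h3.div h4 houtp.ne').differentiableAt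
  have hlam0 : 0 < lam t₀ := by
    have h3 : 0 < dot (out γ x t₀) (γ (F t₀) - γ t₀) := by rw [hF0]; exact hG.rel.1.2
    exact div_pos h3 houtp
  set G : ℝ → ℝ := fun t => 2 * dot (deriv γ t) (γ t - x) * cross X₀ (deriv γ t) -
    dot (deriv γ t) (deriv γ t) * cross X₀ (γ t - γ t₀) with hGdef
  have hkey : ∀ᶠ t in 𝓝 t₀, cross X₀ (γ (F t) - γ t₀) = cross X₀ (γ t - γ t₀) + lam t * G t := by
    filter_upwards [hB.rel] with t hrel
    have hne : out γ x t ≠ 0 := hrel.1.ne_left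
    have h3 : γ (F t) - γ t = lam t • out γ x t := eq_smul_of_cross hne hrel.1.1
    have h4 : γ (F t) - γ t₀ = (γ t - γ t₀) + lam t • out γ x t := by rw [← h3]; abel
    rw [h4, cross_add_right, cross_smul_right]
    congr 2
    simp only [hGdef, out, rf, hX₀, cross, dot, Complex.sub_re, Complex.sub_im, Complex.smul_re,
      Complex.smul_im, smul_eq_mul]
    ring
  have hcr0 : cross X₀ τ₀ = 0 := by rw [cross_comm, ht, neg_zero]
  have hG0 : G t₀ = 0 := by
    simp only [hGdef]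
    rw [← hτ₀, hcr0, sub_self]
    simp [cross]
  have hGd : HasDerivAt G (2 * dot τ₀ X₀ * cross X₀ (deriv (deriv γ) t₀)) t₀ := by
    have d1 := (hd_dot hγ2 hXd).const_mul 2
    have d2 := hd_cross (hasDerivAt_const t₀ X₀) hγ2
    have d3 := hd_dot hγ2 hγ2
    have d4 := hd_cross (hasDerivAt_const t₀ X₀) ((hγ.hd t₀).sub_const (γ t₀))
    have d := (d1.mul d2).sub (d3.mul d4)
    convert! d using 1
    rw [← hτ₀, ← hX₀, hcr0, sub_self]
    have e0 : cross (0 : ℂ) τ₀ = 0 := by simp [cross]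
    have e1 : cross (0 : ℂ) 0 = 0 := by simp [cross]
    have e2 : cross X₀ 0 = 0 := by simp [cross]
    rw [e0, e1, e2]
    ring
  have hL : HasDerivAt (fun t => cross X₀ (γ (F t) - γ t₀)) (deriv F t₀ * cross X₀ (deriv γ f₀)) t₀ := by
    have h3 := hd_cross (hasDerivAt_const t₀ X₀) (hγF.sub_const (γ t₀))
    convert! h3 using 1
    rw [hF0, cross_smul_right]
    simp [cross]
  have hR : HasDerivAt (fun t => cross X₀ (γ t - γ t₀) + lam t * G t)
      (0 + (deriv lam t₀ * 0 + lam t₀ * (2 * dot τ₀ X₀ * cross X₀ (deriv (deriv γ) t₀)))) t₀ := by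
    have h3 := hd_cross (hasDerivAt_const t₀ X₀) ((hγ.hd t₀).sub_const (γ t₀))
    have h4 := hlamd.hasDerivAt.mul hGd
    rw [hG0] at h4
    have h5 := h3.add h4
    convert! h5 using 1
    rw [← hτ₀, hcr0]
    simp [cross]
  have heq := hL.unique (hR.congr_of_eventuallyEq hkey)
  -- arrival at `f₀` is transversal
  have harr : 0 ≤ cross (deriv γ f₀) (γ t₀ - γ f₀) := cseg_cross hD h2
  have hdir : γ t₀ - γ f₀ = -((l * dot τ₀ τ₀) • X₀) := by rw [← hchord]; abel
  rw [hdir, cross_neg_right, cross_smul_right] at harr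
  have hcf : 0 ≤ cross X₀ (deriv γ f₀) := by
    rw [cross_comm]
    have h3 : 0 ≤ (l * dot τ₀ τ₀) * (- cross (deriv γ f₀) X₀) := by linarith
    exact nonneg_of_mul_nonneg_right h3 hcpos
  have hcfne : cross X₀ (deriv γ f₀) ≠ 0 := by
    intro h0
    have h3 : cross (out γ x t₀) (deriv γ f₀) = 0 := by
      rw [hout0, cross_smul_left, h0, mul_zero]
    have h4 := (trans_iff hγ hG.rel).mp h3
    have h5 := len_of_tangent_both hγ hG.rel ht h4
    have h6 := hG.len
    rw [h5] at h6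
    exact lt_irrefl _ h6
  have hcfp : 0 < cross X₀ (deriv γ f₀) := lt_of_le_of_ne hcf hcfne.symm
  have hLp : 0 < deriv F t₀ * cross X₀ (deriv γ f₀) := mul_pos hF' hcfp
  have hRp : 0 < lam t₀ * (2 * dot τ₀ X₀ * cross X₀ (deriv (deriv γ) t₀)) := by
    have : lam t₀ * (2 * dot τ₀ X₀ * cross X₀ (deriv (deriv γ) t₀)) =
      0 + (deriv lam t₀ * 0 + lam t₀ * (2 * dot τ₀ X₀ * cross X₀ (deriv (deriv γ) t₀))) := by ring
    rw [this, ← heq]; exact hLp
  have h7 : 0 < 2 * dot τ₀ X₀ * cross X₀ (deriv (deriv γ) t₀) :=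
    (mul_pos_iff_of_pos_left hlam0).mp hRp
  have h8 : dot X₀ τ₀ / dot X₀ X₀ * cross X₀ (deriv (deriv γ) t₀) =
      (2 * dot τ₀ X₀ * cross X₀ (deriv (deriv γ) t₀)) / (2 * dot X₀ X₀) := by
    rw [dot_comm X₀ τ₀]; field_simp
  rw [h8] at hsec
  have h9 : 0 < (2 * dot τ₀ X₀ * cross X₀ (deriv (deriv γ) t₀)) / (2 * dot X₀ X₀) := by positivity
  linarith

end part8

section part9

variable {γ : ℝ → ℂ} {x y : ℂ} {Ω : Set ℂ}

/-! ### Visibility -/

/-- the half-open segment from `a` to `b` lies in `Ω` -/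
def Vis (Ω : Set ℂ) (a b : ℂ) : Prop := ∀ r : ℝ, 0 ≤ r → r < 1 → a + r • (b - a) ∈ Ω

lemma Vis.cseg {a b : ℂ} (h : Vis Ω a b) : CSeg Ω a b := by
  have hcl : IsClosed {r : ℝ | a + r • (b - a) ∈ closure Ω} := by
    have hc : Continuous fun r : ℝ => a + r • (b - a) := by fun_prop
    exact isClosed_closure.preimage hc
  have hsub : Ico (0 : ℝ) 1 ⊆ {r : ℝ | a + r • (b - a) ∈ closure Ω} := by
    intro r hr
    exact subset_closure (h r hr.1 hr.2)
  have h2 := hcl.closure_subset_iff.mpr hsub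
  rw [closure_Ico (by norm_num : (0 : ℝ) ≠ 1)] at h2
  intro r h0 h1
  exact h2 ⟨h0, h1⟩

lemma first_hit (hop : IsOpen Ω) (hfr : frontier Ω = range γ) {a q : ℂ} (ha : a ∈ Ω)
    (hq : q ∉ Ω) : ∃ r : ℝ, 0 < r ∧ r ≤ 1 ∧ ∃ s, γ s = a + r • (q - a) ∧ Vis Ω a (γ s) := by
  have hc : Continuous fun r : ℝ => a + r • (q - a) := by fun_prop
  set S : Set ℝ := Icc (0 : ℝ) 1 ∩ (fun r : ℝ => a + r • (q - a)) ⁻¹' Ωᶜ with hS
  have hScomp : IsCompact S := isCompact_Icc.inter_right (hop.isClosed_compl.preimage hc)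
  have hSne : S.Nonempty := by
    refine ⟨1, ⟨by norm_num, le_refl _⟩, ?_⟩
    simp only [mem_preimage, one_smul, mem_compl_iff]
    rwa [add_sub_cancel]
  obtain ⟨r₀, hr₀, hmin⟩ := hScomp.exists_isLeast hSne
  have hr₀Ω : a + r₀ • (q - a) ∉ Ω := hr₀.2
  have hpos : 0 < r₀ := by
    rcases hr₀.1.1.lt_or_eq with h | h
    · exact h
    · exfalso
      apply hr₀Ω
      rw [← h, zero_smul, add_zero]; exact ha
  have hlt : ∀ r : ℝ, 0 ≤ r → r < r₀ → a + r • (q - a) ∈ Ω := by
    intro r h0 h1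
    by_contra h2
    have h3 : r ∈ S := ⟨⟨h0, h1.le.trans hr₀.1.2⟩, h2⟩
    exact absurd (hmin h3) (not_le.mpr h1)
  have hvis : Vis Ω a (a + r₀ • (q - a)) := by
    intro ρ h0 h1
    have h2 : a + ρ • (a + r₀ • (q - a) - a) = a + (ρ * r₀) • (q - a) := by
      rw [add_sub_cancel_left, smul_smul]
    rw [h2]
    exact hlt _ (by positivity) (by nlinarith)
  have hclo : a + r₀ • (q - a) ∈ closure Ω := by
    have := hvis.cseg 1 (by norm_num) le_rfl
    rwa [one_smul, add_sub_cancel] at this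
  have hfront : a + r₀ • (q - a) ∈ range γ := by
    rw [← hfr, hop.frontier_eq]; exact ⟨hclo, hr₀Ω⟩
  obtain ⟨s, hs⟩ := hfront
  exact ⟨r₀, hpos, hr₀.1.2, s, hs, by rw [hs]; exact hvis⟩

lemma curve_notMem (hop : IsOpen Ω) (hfr : frontier Ω = range γ) (s : ℝ) : γ s ∉ Ω := by
  intro h
  have h2 : γ s ∈ frontier Ω := by rw [hfr]; exact mem_range_self s
  rw [hop.frontier_eq] at h2
  exact h2.2 h

/-- If `γ t` is not visible, the segment is blocked strictly before. -/
lemma blocked (hop : IsOpen Ω) (hfr : frontier Ω = range γ) (hxΩ : x ∈ Ω) {b : ℂ}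
    (h : ¬ Vis Ω x b) : ∃ ρ : ℝ, 0 < ρ ∧ ρ < 1 ∧ ∃ s, γ s = x + ρ • (b - x) ∧ Vis Ω x (γ s) := by
  unfold Vis at h
  push Not at h
  obtain ⟨r, h0, h1, h2⟩ := h
  obtain ⟨r', h3, h4, s, h5, h6⟩ := first_hit hop hfr hxΩ h2
  have hr : 0 < r := by
    rcases h0.lt_or_eq with h | h
    · exact h
    · exfalso; apply h2; rw [← h, zero_smul, add_zero]; exact hxΩ
  refine ⟨r' * r, mul_pos h3 hr, by nlinarith, s, ?_, h6⟩
  rw [h5, add_sub_cancel_left, smul_smul]

lemma vis_limit (hγ : Curve γ) (hop : IsOpen Ω) (hfr : frontier Ω = range γ) (hxΩ : x ∈ Ω) {g : ℝ}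
    (hv : Vis Ω x (γ g)) {t : ℕ → ℝ} (ht : Tendsto t atTop (𝓝 g))
    (hn : ∀ n, ¬ Vis Ω x (γ (t n))) :
    ∃ (φ : ℕ → ℕ) (s ρ : ℕ → ℝ), StrictMono φ ∧ Tendsto s atTop (𝓝 g) ∧ Tendsto ρ atTop (𝓝 1) ∧
      ∀ n, 0 < ρ n ∧ ρ n < 1 ∧ γ (s n) = x + ρ n • (γ (t (φ n)) - x) := by
  have h1 : ∀ n, ∃ z : ℝ × ℝ, z ∈ Icc (0 : ℝ) 1 ×ˢ Icc (g - 1 / 2) (g + 1 / 2) ∧ 0 < z.1 ∧ z.1 < 1 ∧
      γ z.2 = x + z.1 • (γ (t n) - x) := by
    intro n
    obtain ⟨ρ, h2, h3, s, h4, -⟩ := blocked hop hfr hxΩ (hn n)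
    obtain ⟨k, hk⟩ := norm_param g s
    exact ⟨(ρ, s + k), ⟨⟨h2.le, h3.le⟩, hk⟩, h2, h3, by simp only [hγ.per_int, h4]⟩
  choose z hzI hz0 hz1 hzγ using h1
  obtain ⟨w, -, φ, hφ, hlim⟩ := (isCompact_Icc.prod isCompact_Icc).tendsto_subseq hzI
  have l1 : Tendsto (fun n => (z (φ n)).1) atTop (𝓝 w.1) := (continuous_fst.tendsto w).comp hlim
  have l2 : Tendsto (fun n => (z (φ n)).2) atTop (𝓝 w.2) := (continuous_snd.tendsto w).comp hlim
  have l3 : Tendsto (fun n => γ (t (φ n))) atTop (𝓝 (γ g)) :=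
    (hγ.cont.tendsto g).comp (ht.comp hφ.tendsto_atTop)
  have l4 : Tendsto (fun n => γ (z (φ n)).2) atTop (𝓝 (γ w.2)) := (hγ.cont.tendsto w.2).comp l2
  have l5 : Tendsto (fun n => γ (z (φ n)).2) atTop (𝓝 (x + w.1 • (γ g - x))) := by
    have h2 : Tendsto (fun n => x + (z (φ n)).1 • (γ (t (φ n)) - x)) atTop
        (𝓝 (x + w.1 • (γ g - x))) := tendsto_const_nhds.add (l1.smul (l3.sub_const x))
    exact h2.congr fun n => (hzγ (φ n)).symm
  have h3 : γ w.2 = x + w.1 • (γ g - x) := tendsto_nhds_unique l4 l5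
  have hw1 : w.1 ≤ 1 := le_of_tendsto' l1 fun n => (hz1 (φ n)).le
  have hw0 : 0 ≤ w.1 := ge_of_tendsto' l1 fun n => (hz0 (φ n)).le
  have hw : w.1 = 1 := by
    by_contra h4
    apply curve_notMem hop hfr w.2
    rw [h3]
    exact hv w.1 hw0 (lt_of_le_of_ne hw1 h4)
  rw [hw, one_smul, add_sub_cancel] at h3
  rw [h3] at l4
  obtain ⟨ψ, hψ, hψl⟩ := param_limit hγ (c := g) (s := fun n => (z (φ n)).2)
    (fun n => (hzI (φ n)).2) l4
  refine ⟨fun n => φ (ψ n), fun n => (z (φ (ψ n))).2, fun n => (z (φ (ψ n))).1, hφ.comp hψ, hψl, ?_, ?_⟩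
  · rw [hw] at l1
    exact l1.comp hψ.tendsto_atTop
  · intro n
    exact ⟨hz0 _, hz1 _, hzγ _⟩

lemma vt_open (hD : LDom γ Ω) (hxΩ : x ∈ Ω) {t : ℝ} (hv : Vis Ω x (γ t))
    (hT : 0 < cross (deriv γ t) (x - γ t)) :
    ∀ᶠ s in 𝓝 t, Vis Ω x (γ s) ∧ 0 < cross (deriv γ s) (x - γ s) := by
  have hγ := hD.curve
  have h1 : ∀ᶠ s in 𝓝 t, 0 < cross (deriv γ s) (x - γ s) := by
    have : ContinuousAt (fun s => cross (deriv γ s) (x - γ s)) t :=
      cont_cross hγ.cont_deriv.continuousAt (continuousAt_const.sub hγ.cont.continuousAt)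
    exact this.eventually_const_lt hT
  have h2 : ∀ᶠ s in 𝓝 t, Vis Ω x (γ s) := by
    by_contra hcon
    rw [not_eventually] at hcon
    obtain ⟨u, hu, hun⟩ := exists_seq_forall_of_frequently hcon
    obtain ⟨φ, s, ρ, hφ, hs, hρ, hall⟩ := vis_limit hγ hD.op hD.fr hxΩ hv hu hun
    have hside := hD.inn (t, x - γ t) hT
    have hut : Tendsto (fun n => u (φ n)) atTop (𝓝 t) := hu.comp hφ.tendsto_atTop
    have h3 : Tendsto (fun n => ((u (φ n), x - γ (u (φ n)), 1 - ρ n) : ℝ × ℂ × ℝ)) atTop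
        (𝓝 (t, x - γ t, 0)) := by
      refine hut.prodMk_nhds (Tendsto.prodMk_nhds ?_ ?_)
      · exact tendsto_const_nhds.sub ((hγ.cont.tendsto t).comp hut)
      · have := (tendsto_const_nhds (x := (1 : ℝ))).sub hρ
        rwa [sub_self] at this
    obtain ⟨n, hn⟩ := (h3.eventually hside).exists
    have h4 := hn (by have := (hall n).2.1; simp only; linarith)
    have h5 : γ (u (φ n)) + (1 - ρ n) • (x - γ (u (φ n))) = γ (s n) := by
      rw [(hall n).2.2]
      apply Complex.ext <;> simp <;> ring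
    simp only at h4
    rw [h5] at h4
    exact curve_notMem hD.op hD.fr _ h4
  exact h2.and h1

end part9

section part10

variable {γ : ℝ → ℂ} {x y : ℂ} {Ω : Set ℂ}

/-! ### Tangential first hits are limits of transversal first hits -/

lemma psi_deriv (hγ : Curve γ) {D : ℂ} {t : ℝ} (hu : dot D (γ t - x) ≠ 0) :
    HasDerivAt (fun s => cross D (γ s - x) / dot D (γ s - x))
      (dot D D * cross (γ t - x) (deriv γ t) / dot D (γ t - x) ^ 2) t := by
  have h1 := hd_cross (hasDerivAt_const t D) ((hγ.hd t).sub_const x)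
  have h2 := hd_dot (hasDerivAt_const t D) ((hγ.hd t).sub_const x)
  have h3 := h1.div h2 hu
  convert! h3 using 1
  congr 1
  simp only [cross, dot, Complex.sub_re, Complex.sub_im, Complex.zero_re, Complex.zero_im]
  ring

/-- the transversality function does not vanish near a point, except possibly at it -/
lemma T_isolated (hγ : Curve γ) {g : ℝ} (hxg : γ g ≠ x) :
    ∀ᶠ t in 𝓝[≠] g, cross (γ t - x) (deriv γ t) ≠ 0 := by
  have han : AnalyticAt ℝ (fun t => cross (γ t - x) (deriv γ t)) g :=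
    an_cross ((hγ.an g).sub analyticAt_const) (hγ.an_deriv g)
  rcases han.eventually_eq_zero_or_eventually_ne_zero with h | h
  · exfalso
    set D := γ g - x with hD
    have hD0 : D ≠ 0 := sub_ne_zero.mpr hxg
    have hu : ∀ᶠ t in 𝓝 g, 0 < dot D (γ t - x) := by
      have hc : ContinuousAt (fun t => dot D (γ t - x)) g :=
        cont_dot continuousAt_const (hγ.cont.continuousAt.sub continuousAt_const)
      exact hc.eventually_const_lt (dot_self_pos hD0)
    obtain ⟨ε, hε, hball⟩ := Metric.eventually_nhds_iff_ball.mp (h.and hu)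
    apply not_line hγ hD0 (a := x) g
    filter_upwards [Metric.ball_mem_nhds g hε] with t ht
    have h3 := (convex_ball g ε).norm_image_sub_le_of_norm_hasDerivWithin_le
      (f := fun s => cross D (γ s - x) / dot D (γ s - x)) (f' := fun _ => 0) (C := 0)
      (fun s hs => by
        have h4 := psi_deriv hγ (x := x) (D := D) (t := s) (hball s hs).2.ne'
        rw [(hball s hs).1, mul_zero, zero_div] at h4
        exact h4.hasDerivWithinAt)
      (fun s _ => by simp) (Metric.mem_ball_self hε) ht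
    rw [zero_mul] at h3
    have h4 := norm_le_zero_iff.mp h3
    have h5 : cross D (γ g - x) / dot D (γ g - x) = 0 := by
      rw [← hD, cross_self, zero_div]
    rw [h5, sub_zero] at h4
    rcases div_eq_zero_iff.mp h4 with h6 | h6
    · exact h6
    · exact absurd h6 (hball t ht).2.ne'
  · exact h

lemma V_aux (hγ : Curve γ) (hop : IsOpen Ω) (hfr : frontier Ω = range γ) (hxΩ : x ∈ Ω) {g : ℝ}
    (hv : Vis Ω x (γ g)) (hκ : 0 < dot (γ g - x) (deriv γ g)) :
    ∃ᶠ t in 𝓝 g, Vis Ω x (γ t) ∧ cross (γ t - x) (deriv γ t) ≠ 0 := by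
  by_contra hcon
  rw [not_frequently] at hcon
  have hxg : γ g ≠ x := by
    intro h; apply curve_notMem hop hfr g; rw [h]; exact hxΩ
  set D := γ g - x with hD
  have hD0 : D ≠ 0 := sub_ne_zero.mpr hxg
  have hu : ∀ᶠ t in 𝓝 g, 0 < dot D (γ t - x) := by
    have hc : ContinuousAt (fun t => dot D (γ t - x)) g :=
      cont_dot continuousAt_const (hγ.cont.continuousAt.sub continuousAt_const)
    exact hc.eventually_const_lt (dot_self_pos hD0)
  have hu' : ∀ᶠ t in 𝓝 g, 0 < dot D (deriv γ t) := by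
    have hc : ContinuousAt (fun t => dot D (deriv γ t)) g :=
      cont_dot continuousAt_const hγ.cont_deriv.continuousAt
    exact hc.eventually_const_lt hκ
  have hT := T_isolated hγ hxg
  rw [eventually_nhdsWithin_iff] at hT
  obtain ⟨ε, hε, hball⟩ := Metric.eventually_nhds_iff_ball.mp ((hu.and hu').and hT)
  -- a sequence of invisible points from the left
  have hfreq : ∃ᶠ t in 𝓝 g, t < g ∧ ¬ Vis Ω x (γ t) := by
    have h1 : ∀ᶠ t in 𝓝[<] g, ¬ Vis Ω x (γ t) := by
      filter_upwards [nhdsWithin_le_nhds hcon, (T_isolated hγ hxg).filter_mono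
        (nhdsWithin_mono g fun t (ht : t < g) => ne_of_lt ht)] with t h2 h3 h4
      exact h2 ⟨h4, h3⟩
    have h2 : ∃ᶠ t in 𝓝[<] g, ¬ Vis Ω x (γ t) := h1.frequently
    rw [frequently_nhdsWithin_iff] at h2
    exact h2.mono fun t h => ⟨h.2, h.1⟩
  obtain ⟨t, ht, htn⟩ := exists_seq_forall_of_frequently hfreq
  obtain ⟨φ, s, ρ, hφ, hs, hρ, hall⟩ := vis_limit hγ hop hfr hxΩ hv ht (fun n => (htn n).2)
  have htφ : Tendsto (fun n => t (φ n)) atTop (𝓝 g) := ht.comp hφ.tendsto_atTop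
  have hb := Metric.ball_mem_nhds g hε
  obtain ⟨n, hn1, hn2⟩ := ((hs.eventually hb).and (htφ.eventually hb)).exists
  set a := s n with ha
  set b := t (φ n) with hb'
  have hbg : b < g := (htn (φ n)).1
  have hab : γ a - x = ρ n • (γ b - x) := by
    have := (hall n).2.2
    rw [this, add_sub_cancel_left]
  have hub : 0 < dot D (γ b - x) := (hball b hn2).1.1
  have hua : dot D (γ a - x) < dot D (γ b - x) := by
    rw [hab, dot_smul_right]
    nlinarith [(hall n).2.1]
  have hmono : StrictMonoOn (fun t => dot D (γ t - x)) (Metric.ball g ε) := by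
    apply strictMonoOn_of_deriv_pos (convex_ball g ε)
    · have hc : Continuous (fun t => dot D (γ t - x)) := by
        rw [continuous_iff_continuousAt]
        intro t
        exact cont_dot continuousAt_const (hγ.cont.continuousAt.sub continuousAt_const)
      exact hc.continuousOn
    · intro c hc
      rw [interior_eq_iff_isOpen.mpr Metric.isOpen_ball] at hc
      have h1 := hd_dot (hasDerivAt_const c D) ((hγ.hd c).sub_const x)
      rw [h1.deriv]
      have h2 := (hball c hc).1.2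
      simpa [dot] using h2
  have hlt : a < b := (hmono.lt_iff_lt hn1 hn2).mp hua
  -- Rolle
  have hIcc : Icc a b ⊆ Metric.ball g ε := (convex_ball g ε).ordConnected.out hn1 hn2
  have hd : ∀ c ∈ Icc a b, HasDerivAt (fun s => cross D (γ s - x) / dot D (γ s - x))
      (dot D D * cross (γ c - x) (deriv γ c) / dot D (γ c - x) ^ 2) c := fun c hc =>
    psi_deriv hγ (hball c (hIcc hc)).1.1.ne'
  have hends : cross D (γ a - x) / dot D (γ a - x) = cross D (γ b - x) / dot D (γ b - x) := by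
    rw [hab, cross_smul_right, dot_smul_right, mul_div_mul_left _ _ (hall n).1.ne']
  obtain ⟨c, hc, hc0⟩ := exists_hasDerivAt_eq_zero hlt
    (fun c hc => (hd c hc).continuousAt.continuousWithinAt) hends
    (fun c hc => hd c (Ioo_subset_Icc_self hc))
  have hcb := hball c (hIcc (Ioo_subset_Icc_self hc))
  have hcg : c ≠ g := by
    have := hc.2
    intro h; rw [h] at this; linarith
  rcases div_eq_zero_iff.mp hc0 with h1 | h1
  · rcases mul_eq_zero.mp h1 with h2 | h2
    · exact (dot_self_pos hD0).ne' h2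
    · exact hcb.2 hcg h2
  · exact (pow_ne_zero 2 hcb.1.1.ne') h1

lemma lemmaV (hγ : Curve γ) (hop : IsOpen Ω) (hfr : frontier Ω = range γ) (hxΩ : x ∈ Ω) {g : ℝ}
    (hv : Vis Ω x (γ g)) (hT : cross (γ g - x) (deriv γ g) = 0) :
    ∃ᶠ t in 𝓝 g, Vis Ω x (γ t) ∧ cross (γ t - x) (deriv γ t) ≠ 0 := by
  have hxg : γ g ≠ x := by
    intro h; apply curve_notMem hop hfr g; rw [h]; exact hxΩ
  have hne : dot (γ g - x) (deriv γ g) ≠ 0 := by
    intro h0
    have h1 := lagrange (γ g - x) (deriv γ g)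
    rw [hT, h0] at h1
    have h2 := mul_pos (dot_self_pos (sub_ne_zero.mpr hxg)) (dot_self_pos (hγ.reg g))
    rw [← h1] at h2
    norm_num at h2
  rcases lt_or_gt_of_ne hne with h | h
  · obtain ⟨hγ', hd'⟩ := hγ.reverse
    have hfr' : frontier Ω = range (fun t => γ (-t)) := by
      rw [hfr]
      ext z
      constructor
      · rintro ⟨s, rfl⟩
        exact ⟨-s, by simp⟩
      · rintro ⟨s, rfl⟩
        exact ⟨-s, rfl⟩
    have h1 := V_aux (g := -g) hγ' hop hfr' hxΩ (by simpa using hv) (by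
      rw [hd']
      simp only [neg_neg]
      have : dot (γ g - x) (-deriv γ g) = - dot (γ g - x) (deriv γ g) := by simp [dot]; ring
      rw [this]; linarith)
    have h2 : Tendsto (fun t : ℝ => -t) (𝓝 (-g)) (𝓝 g) := by
      have := (continuous_neg.tendsto (-g))
      rwa [neg_neg] at this
    refine h2.frequently (h1.mono ?_)
    rintro t ⟨h3, h4⟩
    refine ⟨h3, ?_⟩
    rw [hd'] at h4
    intro h5
    apply h4
    have : cross (γ (-t) - x) (-deriv γ (-t)) = - cross (γ (-t) - x) (deriv γ (-t)) := by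
      simp [cross]; ring
    rw [this, h5, neg_zero]
  · exact V_aux hγ hop hfr hxΩ hv h

/-! ### The restricted relation -/

structure RR (γ : ℝ → ℂ) (Ω : Set ℂ) (x y : ℂ) (t f : ℝ) : Prop where
  good : Good γ x y (t, f)
  s1 : CSeg Ω x (γ t)
  s2 : CSeg Ω (γ t) (γ f)
  s3 : CSeg Ω (γ f) y

lemma RR.swap {t f : ℝ} (h : RR γ Ω x y t f) : RR γ Ω y x f t :=
  ⟨h.good.swap, h.s3.symm, h.s2.symm, h.s1.symm⟩

lemma cseg_limit {a b : ℕ → ℂ} {a' b' : ℂ} (h : ∀ n, CSeg Ω (a n) (b n))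
    (ha : Tendsto a atTop (𝓝 a')) (hb : Tendsto b atTop (𝓝 b')) : CSeg Ω a' b' := by
  intro r h0 h1
  have h2 : Tendsto (fun n => a n + r • (b n - a n)) atTop (𝓝 (a' + r • (b' - a'))) :=
    ha.add ((hb.sub ha).const_smul r)
  exact isClosed_closure.mem_of_tendsto h2 (Eventually.of_forall fun n => h n r h0 h1)

lemma RR_limit (hγ : Curve γ) (hx : ∀ t, γ t ≠ x) (hy : ∀ t, γ t ≠ y) {t f : ℕ → ℝ} {t' f' : ℝ}
    (h : ∀ n, RR γ Ω x y (t n) (f n)) (ht : Tendsto t atTop (𝓝 t')) (hf : Tendsto f atTop (𝓝 f')) :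
    RR γ Ω x y t' f' := by
  have h1 : Tendsto (fun n => γ (t n)) atTop (𝓝 (γ t')) := (hγ.cont.tendsto _).comp ht
  have h2 : Tendsto (fun n => γ (f n)) atTop (𝓝 (γ f')) := (hγ.cont.tendsto _).comp hf
  refine ⟨?_, ?_, ?_, ?_⟩
  · exact limit_good' (z := fun n => ((t n, f n) : ℝ × ℝ)) (w := (t', f')) hγ hx hy
      (fun n => (h n).good) (ht.prodMk_nhds hf)
  · exact cseg_limit (fun n => (h n).s1) tendsto_const_nhds h1
  · exact cseg_limit (fun n => (h n).s2) h1 h2
  · exact cseg_limit (fun n => (h n).s3) h2 tendsto_const_nhds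

lemma RR.shift (hγ : Curve γ) {t f : ℝ} (h : RR γ Ω x y t f) (k l : ℤ) :
    RR γ Ω x y (t + k) (f + l) :=
  ⟨h.good.shift hγ k l, by rw [hγ.per_int]; exact h.s1, by
    rw [hγ.per_int, hγ.per_int]; exact h.s2, by rw [hγ.per_int]; exact h.s3⟩

/-- transversality at both ends of the chord -/
lemma RR.trans (hD : LDom γ Ω) (hx : ∀ t, γ t ≠ x) (hy : ∀ t, γ t ≠ y) {t f : ℝ}
    (h : RR γ Ω x y t f) : 0 < cross (deriv γ t) (x - γ t) := by
  have h1 := cseg_cross hD h.s1
  refine lt_of_le_of_ne h1 fun h2 => ?_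
  apply bump hD hx hy h.good h.s1 h.s2
  have : cross (deriv γ t) (γ t - x) = - cross (deriv γ t) (x - γ t) := by simp [cross]; ring
  rw [this, ← h2, neg_zero]

section star
variable (hD : LDom γ Ω) (hxΩ : x ∈ Ω) (hyΩ : y ∈ Ω)
  (hK : ∀ t, Vis Ω x (γ t) → 0 < cross (deriv γ t) (x - γ t) → ∃ f ∈ Icc (0 : ℝ) 1, RR γ Ω x y t f)

include hD in
lemma ne_of_mem (hxΩ : x ∈ Ω) (t : ℝ) : γ t ≠ x := by
  intro h; apply curve_notMem hD.op hD.fr t; rw [h]; exact hxΩ

include hD hxΩ hyΩ hK in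
lemma vis_trans {g : ℝ} (hv : Vis Ω x (γ g)) : 0 < cross (deriv γ g) (x - γ g) := by
  have hγ := hD.curve
  have h1 := cseg_cross hD hv.cseg
  refine lt_of_le_of_ne h1 fun h2 => ?_
  have h3 : cross (γ g - x) (deriv γ g) = cross (deriv γ g) (x - γ g) := by simp [cross]; ring
  have h4 := lemmaV hγ hD.op hD.fr hxΩ hv (by rw [h3, ← h2])
  obtain ⟨t, ht, htn⟩ := exists_seq_forall_of_frequently h4
  have h5 : ∀ n, ∃ f ∈ Icc (0 : ℝ) 1, RR γ Ω x y (t n) f := by
    intro n
    apply hK _ (htn n).1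
    have h6 := cseg_cross hD (htn n).1.cseg
    refine lt_of_le_of_ne h6 fun h7 => ?_
    apply (htn n).2
    have h8 : cross (γ (t n) - x) (deriv γ (t n)) = cross (deriv γ (t n)) (x - γ (t n)) := by
      simp [cross]; ring
    rw [h8, ← h7]
  choose f hfI hf using h5
  obtain ⟨f', -, φ, hφ, hlim⟩ := isCompact_Icc.tendsto_subseq hfI
  have h6 : RR γ Ω x y g f' := RR_limit hγ (ne_of_mem hD hxΩ) (ne_of_mem hD hyΩ)
    (fun n => hf (φ n)) (ht.comp hφ.tendsto_atTop) hlim
  have h7 := h6.trans hD (ne_of_mem hD hxΩ) (ne_of_mem hD hyΩ)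
  rw [← h2] at h7
  exact lt_irrefl _ h7

include hD hxΩ hyΩ hK in
lemma vis_all (t : ℝ) : Vis Ω x (γ t) := by
  have hγ := hD.curve
  set T : Set ℝ := {t | Vis Ω x (γ t)} with hT
  have hopen : IsOpen T := by
    rw [isOpen_iff_mem_nhds]
    intro t ht
    filter_upwards [vt_open hD hxΩ ht (vis_trans hD hxΩ hyΩ hK ht)] with s hs
    exact hs.1
  have hclosed : IsClosed T := by
    apply IsSeqClosed.isClosed
    intro u t hu hut
    have h1 : CSeg Ω x (γ t) :=
      cseg_limit (fun n => (hu n).cseg) tendsto_const_nhds ((hγ.cont.tendsto _).comp hut)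
    by_contra hcon
    obtain ⟨ρ, h2, h3, s, h4, h5⟩ := blocked hD.op hD.fr hxΩ hcon
    have h6 := vis_trans hD hxΩ hyΩ hK h5
    have h7 : cross (deriv γ s) (γ s - x) < 0 := by
      have : cross (deriv γ s) (γ s - x) = - cross (deriv γ s) (x - γ s) := by simp [cross]; ring
      rw [this]; linarith
    have h8 := (hD.outt (s, γ s - x) h7).ray
    have h9 : ∀ᶠ ε : ℝ in 𝓝[>] 0, (1 + ε) * ρ < 1 := by
      have hc : Continuous fun ε : ℝ => (1 + ε) * ρ := by fun_prop
      have := hc.tendsto 0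
      exact (this.mono_left nhdsWithin_le_nhds).eventually (gt_mem_nhds (by simpa using h3))
    obtain ⟨ε, ⟨h10, h11⟩, h12⟩ := ((h8.and h9).and self_mem_nhdsWithin).exists
    have h12' : 0 < ε := h12
    apply h10
    have h13 : γ s + ε • (γ s - x) = x + ((1 + ε) * ρ) • (γ t - x) := by
      rw [h4]
      apply Complex.ext <;> simp <;> ring
    rw [h13]
    exact h1 _ (by positivity) h11.le
  have hne : T.Nonempty := by
    obtain ⟨t, -, h⟩ := exists_in hγ hD.op hD.fr hxΩ
    exact ⟨t, h⟩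
  have huniv : T = univ := IsClopen.eq_univ ⟨hclosed, hopen⟩ hne
  have : t ∈ T := by rw [huniv]; trivial
  exact this

end star

end part10

section part11

variable {γ : ℝ → ℂ} {x y : ℂ} {Ω : Set ℂ}

/-! ### The relation is a bijection of the curve -/

lemma chord_le (hD : LDom γ Ω) {a : ℂ} {f f' r : ℝ} (hr : 1 < r) (hpar : γ f' - a = r • (γ f - a))
    (h2 : CSeg Ω a (γ f')) (hT : 0 < cross (deriv γ f) (a - γ f)) : False := by
  have h7 : cross (deriv γ f) (γ f - a) < 0 := by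
    have : cross (deriv γ f) (γ f - a) = - cross (deriv γ f) (a - γ f) := by simp [cross]; ring
    rw [this]; linarith
  have h8 := (hD.outt (f, γ f - a) h7).ray
  have h9 : ∀ᶠ ε : ℝ in 𝓝[>] 0, 1 + ε < r := by
    have hc : Continuous fun ε : ℝ => 1 + ε := by fun_prop
    have := hc.tendsto 0
    exact (this.mono_left nhdsWithin_le_nhds).eventually (gt_mem_nhds (by simpa using hr))
  obtain ⟨ε, ⟨h10, h11⟩, h12⟩ := ((h8.and h9).and self_mem_nhdsWithin).exists
  have h12' : 0 < ε := h12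
  have hr0 : 0 < r := by linarith
  apply h10
  have h13 : γ f + ε • (γ f - a) = a + ((1 + ε) / r) • (γ f' - a) := by
    rw [hpar, smul_smul, div_mul_cancel₀ _ hr0.ne', add_smul, one_smul]
    abel
  rw [h13]
  exact h2 _ (by positivity) (by rw [div_le_one hr0]; exact h11.le)

lemma chord_unique (hD : LDom γ Ω) {a : ℂ} {f f' : ℝ} (hpar : Par (γ f - a) (γ f' - a))
    (h1 : CSeg Ω a (γ f)) (h2 : CSeg Ω a (γ f')) (hT : 0 < cross (deriv γ f) (a - γ f))
    (hT' : 0 < cross (deriv γ f') (a - γ f')) : γ f = γ f' := by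
  obtain ⟨r, hr, hr'⟩ := hpar.exists
  rcases lt_trichotomy r 1 with h | h | h
  · exfalso
    have h3 : 1 < r⁻¹ := (one_lt_inv₀ hr).mpr h
    refine chord_le hD h3 ?_ h1 hT'
    rw [hr', smul_smul, inv_mul_cancel₀ hr.ne', one_smul]
  · rw [h, one_smul] at hr'
    have := sub_left_inj.mp hr'
    exact this.symm
  · exact (chord_le hD h hr' h2 hT).elim

lemma RR.arrive (hD : LDom γ Ω) (hx : ∀ t, γ t ≠ x) (hy : ∀ t, γ t ≠ y) {t f : ℝ}
    (h : RR γ Ω x y t f) : 0 < cross (deriv γ f) (γ t - γ f) := by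
  have h1 : 0 < cross (deriv γ f) (y - γ f) := h.swap.trans hD hy hx
  obtain ⟨r, hr, hr'⟩ := h.good.rel.2.exists
  have h2 : γ t - γ f = r • out γ y f := hr'
  rw [h2, cross_smul_right]
  unfold out
  rw [cross_tau_rf]
  have h3 : cross (deriv γ f) (γ f - y) = - cross (deriv γ f) (y - γ f) := by simp [cross]; ring
  rw [h3]
  have h4 := dot_self_pos (hD.curve.reg f)
  have : r * (-dot (deriv γ f) (deriv γ f) * -cross (deriv γ f) (y - γ f)) =
    r * (dot (deriv γ f) (deriv γ f) * cross (deriv γ f) (y - γ f)) := by ring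
  rw [this]
  positivity

lemma RR_unique (hD : LDom γ Ω) (hx : ∀ t, γ t ≠ x) (hy : ∀ t, γ t ≠ y) {t f f' : ℝ}
    (h : RR γ Ω x y t f) (h' : RR γ Ω x y t f') : ∃ k : ℤ, f' = f + k := by
  have h1 : Par (γ f - γ t) (γ f' - γ t) := h.good.rel.1.symm.trans h'.good.rel.1
  have h2 := chord_unique hD h1 h.s2 h'.s2 (h.arrive hD hx hy) (h'.arrive hD hx hy)
  exact hD.curve.inj _ _ h2.symm

lemma int_eq_zero_of_near {c a : ℝ} {k : ℤ} (h : a ∈ Icc (c - 1 / 2) (c + 1 / 2))
    (hk : a = c + k) : k = 0 := by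
  have h3 : (k : ℝ) ≤ 1 / 2 := by have := h.2; linarith
  have h4 : -(1 / 2) ≤ (k : ℝ) := by have := h.1; linarith
  have h6 : (k : ℝ) < 1 := by linarith
  have h7 : (-1 : ℝ) < k := by linarith
  have h8 : k < 1 := by exact_mod_cast h6
  have h9 : -1 < k := by exact_mod_cast h7
  omega

lemma RR_nbhd (hD : LDom γ Ω) (hx : ∀ t, γ t ≠ x) (hy : ∀ t, γ t ≠ y)
    (hall : ∀ t, ∃ f, RR γ Ω x y t f) {t f : ℝ} {F : ℝ → ℝ} (h : RR γ Ω x y t f)
    (hB : Branch γ x y (t, f) F) : ∀ᶠ s in 𝓝 t, RR γ Ω x y s (F s) := by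
  have hγ := hD.curve
  by_contra hcon
  rw [not_eventually] at hcon
  obtain ⟨u, hu, hun⟩ := exists_seq_forall_of_frequently hcon
  have h1 : ∀ n, ∃ g ∈ Icc (f - 1 / 2) (f + 1 / 2), RR γ Ω x y (u n) g := by
    intro n
    obtain ⟨g, hg⟩ := hall (u n)
    obtain ⟨k, hk⟩ := norm_param f g
    refine ⟨g + k, hk, ?_⟩
    have := hg.shift hγ 0 k
    simpa using this
  choose g hgI hg using h1
  obtain ⟨g', hg'I, φ, hφ, hlim⟩ := isCompact_Icc.tendsto_subseq hgI
  have h2 : RR γ Ω x y t g' := RR_limit hγ hx hy (fun n => hg (φ n)) (hu.comp hφ.tendsto_atTop) hlim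
  obtain ⟨k, hk⟩ := RR_unique hD hx hy h h2
  have hk0 := int_eq_zero_of_near hg'I hk
  rw [hk0, Int.cast_zero, add_zero] at hk
  rw [hk] at hlim
  have h3 : Tendsto (fun n => ((u (φ n), g (φ n)) : ℝ × ℝ)) atTop (𝓝 (t, f)) :=
    (hu.comp hφ.tendsto_atTop).prodMk_nhds hlim
  obtain ⟨n, hn⟩ := (h3.eventually hB.uniq).exists
  have h4 : g (φ n) = F (u (φ n)) := hn (hg (φ n)).good.rel
  apply hun (φ n)
  rw [← h4]
  exact hg (φ n)

lemma RR_surj (hD : LDom γ Ω) (hx : ∀ t, γ t ≠ x) (hy : ∀ t, γ t ≠ y)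
    (hall : ∀ t, ∃ f, RR γ Ω x y t f) (f : ℝ) : ∃ t, RR γ Ω x y t f := by
  have hγ := hD.curve
  set T : Set ℝ := {f | ∃ t, RR γ Ω x y t f} with hT
  have hopen : IsOpen T := by
    rw [isOpen_iff_mem_nhds]
    rintro f ⟨t, ht⟩
    obtain ⟨F, hB⟩ := branch_exists hγ ht.good
    have h1 := RR_nbhd hD hx hy hall ht hB
    have h2 : HasStrictDerivAt F (deriv F t) t := AnalyticAt.hasStrictDerivAt hB.an
    have h3 := h2.map_nhds_eq hB.ne
    have h4 : F t = f := hB.base
    rw [h4] at h3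
    rw [← h3, mem_map]
    filter_upwards [h1] with s hs
    exact ⟨s, hs⟩
  have hclosed : IsClosed T := by
    apply IsSeqClosed.isClosed
    intro u f hu huf
    have h1 : ∀ n, ∃ t ∈ Icc ((0 : ℝ) - 1 / 2) (0 + 1 / 2), RR γ Ω x y t (u n) := by
      intro n
      obtain ⟨t, ht⟩ := hu n
      obtain ⟨k, hk⟩ := norm_param 0 t
      refine ⟨t + k, hk, ?_⟩
      have := ht.shift hγ k 0
      simpa using this
    choose t htI ht using h1
    obtain ⟨t', -, φ, hφ, hlim⟩ := isCompact_Icc.tendsto_subseq htI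
    exact ⟨t', RR_limit hγ hx hy (fun n => ht (φ n)) hlim (huf.comp hφ.tendsto_atTop)⟩
  have hne : T.Nonempty := by
    obtain ⟨f, hf⟩ := hall 0
    exact ⟨f, 0, hf⟩
  have huniv : T = univ := IsClopen.eq_univ ⟨hclosed, hopen⟩ hne
  have : f ∈ T := by rw [huniv]; trivial
  exact this

/-! ### The final contradiction -/

lemma step (hγ : Curve γ) {p s : ℝ} {F F₂ : ℝ → ℝ} (hF : Branch γ x y (p, s) F)
    (hF' : 0 < deriv F p) (hF₂ : Branch γ x y (s, p) F₂)
    (hd : cross (deriv γ p) (γ p - γ s) < 0) (hX : cross (γ s - x) (x - y) = 0)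
    (hc : cross (deriv γ s) (x - y) ≠ 0) :
    ∀ᶠ t in 𝓝[>] p, s < F t ∧ 0 < (F₂ (F t) - t) * cross (deriv γ s) (x - y) := by
  have hFan : AnalyticAt ℝ F p := hF.an
  have hFs : F p = s := hF.base
  have hF₂an : AnalyticAt ℝ F₂ s := hF₂.an
  have hF₂p : F₂ s = p := hF₂.base
  set c₀ := cross (deriv γ s) (x - y) with hc₀
  -- `F t > s`
  have h1 : ∀ᶠ t in 𝓝[>] p, s < F t := by
    have hs : Tendsto (slope F p) (𝓝[≠] p) (𝓝 (deriv F p)) :=
      hFan.differentiableAt.hasDerivAt.tendsto_slope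
    have h2 : ∀ᶠ t in 𝓝[≠] p, 0 < slope F p t := hs.eventually_const_lt hF'
    have h3 : ∀ᶠ t in 𝓝[>] p, 0 < slope F p t :=
      h2.filter_mono (nhdsWithin_mono _ fun t (ht : p < t) => ne_of_gt ht)
    filter_upwards [h3, self_mem_nhdsWithin] with t h4 h5
    have h5' : p < t := h5
    rw [slope_def_field, hFs, div_pos_iff_of_pos_right (by linarith)] at h4
    linarith
  -- sign of `cross (γ t' - x) (x - y)` to the right of `s`
  have h2 : ∀ᶠ t' in 𝓝[>] s, 0 < cross (γ t' - x) (x - y) * c₀ := by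
    have hdd : HasDerivAt (fun t' => cross (γ t' - x) (x - y)) c₀ s := by
      have := hd_cross ((hγ.hd s).sub_const x) (hasDerivAt_const s (x - y))
      convert! this using 1
      simp [cross, hc₀]
    have hs := hdd.tendsto_slope
    have h3 : ∀ᶠ t in 𝓝[≠] s, 0 < slope (fun t' => cross (γ t' - x) (x - y)) s t * c₀ := by
      have h4 : Tendsto (fun t => slope (fun t' => cross (γ t' - x) (x - y)) s t * c₀) (𝓝[≠] s)
          (𝓝 (c₀ * c₀)) := hs.mul_const c₀
      exact h4.eventually_const_lt (mul_self_pos.mpr hc)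
    have h5 : ∀ᶠ t in 𝓝[>] s, 0 < slope (fun t' => cross (γ t' - x) (x - y)) s t * c₀ :=
      h3.filter_mono (nhdsWithin_mono _ fun t (ht : s < t) => ne_of_gt ht)
    filter_upwards [h5, self_mem_nhdsWithin] with t h6 h7
    have h7' : s < t := h7
    have h8 : 0 < t - s := by linarith
    rw [slope_def_field, hX, sub_zero] at h6
    have h9 : cross (γ t - x) (x - y) * c₀ =
        (cross (γ t - x) (x - y) / (t - s) * c₀) * (t - s) := by field_simp
    rw [h9]
    exact mul_pos h6 h8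
  have hFt : Tendsto F (𝓝[>] p) (𝓝[>] s) := by
    rw [tendsto_nhdsWithin_iff]
    refine ⟨?_, h1⟩
    have := hFan.continuousAt.tendsto
    rw [hFs] at this
    exact this.mono_left nhdsWithin_le_nhds
  have hF₂t : Tendsto (fun t => F₂ (F t)) (𝓝[>] p) (𝓝 p) := by
    have h3 : Tendsto F₂ (𝓝 s) (𝓝 p) := by
      have := hF₂an.continuousAt.tendsto
      rwa [hF₂p] at this
    exact h3.comp (hFt.mono_right nhdsWithin_le_nhds)
  -- uniform monotonicity
  have h3 : ∀ᶠ z : ℝ × ℂ in 𝓝 (p, γ p - γ s), cross (deriv γ z.1) z.2 < 0 := by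
    have hcc : ContinuousAt (fun z : ℝ × ℂ => cross (deriv γ z.1) z.2) (p, γ p - γ s) :=
      cont_cross (hγ.cont_deriv.continuousAt.comp continuousAt_fst) continuousAt_snd
    exact hcc.eventually_lt_const hd
  rw [nhds_prod_eq, Filter.eventually_prod_iff] at h3
  obtain ⟨pa, hpa, pb, hpb, hab⟩ := h3
  obtain ⟨ε, hε, hball⟩ := Metric.eventually_nhds_iff_ball.mp hpa
  have hW : Tendsto (fun t => γ t - γ (F t)) (𝓝[>] p) (𝓝 (γ p - γ s)) := by
    refine Tendsto.sub ?_ ?_
    · exact (hγ.cont.tendsto p).mono_left nhdsWithin_le_nhds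
    · exact (hγ.cont.tendsto s).comp (hFt.mono_right nhdsWithin_le_nhds)
  have hrelF : ∀ᶠ t in 𝓝[>] p, Rel γ x y t (F t) :=
    (show ∀ᶠ t in 𝓝 p, Rel γ x y t (F t) from hF.rel).filter_mono nhdsWithin_le_nhds
  have hrelF₂ : ∀ᶠ t in 𝓝[>] p, Rel γ x y (F t) (F₂ (F t)) :=
    (hFt.mono_right nhdsWithin_le_nhds).eventually
      (show ∀ᶠ t in 𝓝 s, Rel γ x y t (F₂ t) from hF₂.rel)
  have hb := Metric.ball_mem_nhds p hε
  filter_upwards [h1, hFt.eventually h2, hW.eventually hpb, hrelF, hrelF₂, hF₂t.eventually hb,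
    nhdsWithin_le_nhds hb] with t k1 k2 k3 k4 k5 k6 k7
  refine ⟨k1, ?_⟩
  set t' := F t with ht'
  set t'' := F₂ t' with ht''
  set W := γ t - γ t' with hW'
  have hanti : StrictAntiOn (fun u => cross (γ u) W) (Metric.ball p ε) := by
    apply strictAntiOn_of_deriv_neg (convex_ball p ε)
    · have hc : Continuous (fun u => cross (γ u) W) := by
        rw [continuous_iff_continuousAt]
        intro t
        exact cont_cross hγ.cont.continuousAt continuousAt_const
      exact hc.continuousOn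
    · intro u hu
      rw [interior_eq_iff_isOpen.mpr Metric.isOpen_ball] at hu
      have h4 := hd_cross (hγ.hd u) (hasDerivAt_const u W)
      rw [h4.deriv]
      have h5 : cross (deriv γ u) W < 0 := hab (hball u hu) k3
      simpa [cross] using h5
  -- the sign
  obtain ⟨r₁, hr₁, e₁⟩ := k4.2.exists
  obtain ⟨r₂, hr₂, e₂⟩ := k5.1.exists
  have hout : cross (out γ x t') (out γ y t') =
      -(dot (deriv γ t') (deriv γ t')) ^ 2 * cross (γ t' - x) (x - y) := by
    unfold out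
    rw [cross_rf_rf]
    congr 1
    simp only [cross, Complex.sub_re, Complex.sub_im]
    ring
  have hval : cross (γ t'') W - cross (γ t) W =
      -(r₂ * r₁ * (dot (deriv γ t') (deriv γ t')) ^ 2) * cross (γ t' - x) (x - y) := by
    have h4 : cross (γ t'') W - cross (γ t) W = cross (γ t'' - γ t') (γ t - γ t') := by
      simp only [hW', cross, Complex.sub_re, Complex.sub_im]
      ring
    rw [h4, e₁, e₂, cross_smul_left, cross_smul_right, hout]
    ring
  have hτ := dot_self_pos (hγ.reg t')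
  have hprod : (cross (γ t'') W - cross (γ t) W) * c₀ < 0 := by
    rw [hval]
    have h4 : 0 < r₂ * r₁ * (dot (deriv γ t') (deriv γ t')) ^ 2 := by positivity
    have h5 : -(r₂ * r₁ * (dot (deriv γ t') (deriv γ t')) ^ 2) * cross (γ t' - x) (x - y) * c₀ =
      -((r₂ * r₁ * (dot (deriv γ t') (deriv γ t')) ^ 2) * (cross (γ t' - x) (x - y) * c₀)) := by ring
    rw [h5]
    have := mul_pos h4 k2
    linarith
  rcases lt_or_gt_of_ne hc with h | h
  · -- c₀ < 0 : then `cross (γ t'') W > cross (γ t) W` and `t'' < t`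
    have h4 : cross (γ t) W < cross (γ t'') W := by
      by_contra h5
      push Not at h5
      have : 0 ≤ (cross (γ t'') W - cross (γ t) W) * c₀ :=
        mul_nonneg_of_nonpos_of_nonpos (by linarith) h.le
      linarith
    have h5 : t'' < t := (hanti.lt_iff_gt k7 k6).mp h4
    exact mul_pos_of_neg_of_neg (by linarith) h
  · have h4 : cross (γ t'') W < cross (γ t) W := by
      by_contra h5
      push Not at h5
      have : 0 ≤ (cross (γ t'') W - cross (γ t) W) * c₀ := mul_nonneg (by linarith) h.le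
      linarith
    have h5 : t < t'' := (hanti.lt_iff_gt k6 k7).mp h4
    exact mul_pos (by linarith) h

end part11

section part12

variable {γ : ℝ → ℂ} {x y : ℂ} {Ω : Set ℂ}

lemma perp_of_rf {τ e : ℂ} (h1 : cross (rf τ e) e = 0) (h2 : dot (rf τ e) e < 0) : dot τ e = 0 := by
  have h3 : cross (rf τ e) e = 2 * dot τ e * cross τ e := by
    simp only [rf, cross, dot, Complex.sub_re, Complex.sub_im, Complex.smul_re, Complex.smul_im,
      smul_eq_mul]
    ring
  rw [h3] at h1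
  rcases mul_eq_zero.mp h1 with h | h
  · rcases mul_eq_zero.mp h with h' | h'
    · norm_num at h'
    · exact h'
  · exfalso
    rw [rf_of_cross_zero h, dot_smul_left] at h2
    have h4 : 0 ≤ dot τ τ := by rw [dot_self]; positivity
    have h5 : 0 ≤ dot e e := by rw [dot_self]; positivity
    have := mul_nonneg h4 h5
    linarith

lemma final (hD : LDom γ Ω) (hxΩ : x ∈ Ω) (hyΩ : y ∈ Ω) (hxy : x ≠ y)
    (hall : ∀ t, ∃ f, RR γ Ω x y t f) (hvis : ∀ t, Vis Ω x (γ t)) : False := by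
  have hγ := hD.curve
  have hx : ∀ t, γ t ≠ x := ne_of_mem hD hxΩ
  have hy : ∀ t, γ t ≠ y := ne_of_mem hD hyΩ
  set e := y - x with he
  have he0 : e ≠ 0 := sub_ne_zero.mpr hxy.symm
  have hep : 0 < dot e e := dot_self_pos he0
  -- the point P
  obtain ⟨q, hq, m, hm, hqe⟩ : ∃ q, q ∉ Ω ∧ ∃ m : ℝ, 0 < m ∧ q - y = m • e := by
    obtain ⟨R, hR⟩ := hD.bdd.subset_closedBall y
    have hen : 0 < ‖e‖ := norm_pos_iff.mpr he0
    refine ⟨y + ((|R| + 1) / ‖e‖) • e, ?_, (|R| + 1) / ‖e‖, by positivity, by rw [add_sub_cancel_left]⟩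
    intro h1
    have h2 := hR h1
    rw [Metric.mem_closedBall, dist_eq_norm, add_sub_cancel_left, norm_smul,
      Real.norm_of_nonneg (by positivity), div_mul_cancel₀ _ hen.ne'] at h2
    have := le_abs_self R
    linarith
  obtain ⟨r, hr, -, p, hp, -⟩ := first_hit hD.op hD.fr hyΩ hq
  set c := r * m with hc
  have hcpos : 0 < c := mul_pos hr hm
  have hpy : γ p - y = c • e := by rw [hp, hqe, add_sub_cancel_left, smul_smul]
  have hpx : γ p - x = (1 + c) • e := by
    have : γ p - x = (γ p - y) + e := by rw [he]; abel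
    rw [this, hpy, add_smul, one_smul, add_comm]
  obtain ⟨s, hs⟩ := RR_surj hD hx hy hall p
  obtain ⟨f, hf⟩ := hall p
  -- `γ f = γ s`
  have hsf : γ f = γ s := by
    have h1 : Par (out γ y p) (γ s - γ p) := hs.good.rel.2
    have h2 : Par (out γ x p) (γ f - γ p) := hf.good.rel.1
    have h3 : out γ y p = c • rf (deriv γ p) e := by unfold out; rw [hpy, rf_smul]
    have h4 : out γ x p = (1 + c) • rf (deriv γ p) e := by unfold out; rw [hpx, rf_smul]
    have hne : rf (deriv γ p) e ≠ 0 := rf_ne_zero (hγ.reg p) he0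
    have h5 : Par (rf (deriv γ p) e) (out γ y p) := by rw [h3]; exact par_of_smul hne hcpos
    have h6 : Par (rf (deriv γ p) e) (out γ x p) := by
      rw [h4]; exact par_of_smul hne (by linarith)
    have h7 : Par (γ f - γ p) (γ s - γ p) := (h6.trans h2).symm.trans (h5.trans h1)
    exact chord_unique hD h7 hf.s2 hs.s2.symm (hf.arrive hD hx hy) (hs.swap.arrive hD hy hx)
  obtain ⟨k, hk⟩ := hγ.inj _ _ hsf
  have hps : RR γ Ω x y p s := by
    have := hf.shift hγ 0 (-k)
    rw [hk] at this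
    simpa using this
  -- `γ s` lies on the line through x, y
  have h1 : Par (out γ x s) (out γ y s) := hs.good.rel.1.trans hps.good.rel.2.symm
  have hτs := dot_self_pos (hγ.reg s)
  have hcr : cross (γ s - x) (γ s - y) = 0 := by
    have h2 := h1.1
    unfold out at h2
    rw [cross_rf_rf] at h2
    rcases mul_eq_zero.mp h2 with h3 | h3
    · exfalso
      have : 0 < (dot (deriv γ s) (deriv γ s)) ^ 2 := by positivity
      linarith
    · exact h3
  have hdt : 0 < dot (γ s - x) (γ s - y) := by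
    have h2 := h1.2
    unfold out at h2
    rw [dot_rf_rf] at h2
    exact (mul_pos_iff_of_pos_left (by positivity)).mp h2
  have hsy : γ s - y = (γ s - x) - e := by rw [he]; abel
  have hcre : cross e (γ s - x) = 0 := by
    rw [hsy, cross_sub_right, cross_self, zero_sub, neg_eq_zero] at hcr
    rw [cross_comm, hcr, neg_zero]
  have ha := eq_smul_of_cross he0 hcre
  set a := dot e (γ s - x) / dot e e with hadef
  have hady : γ s - y = (a - 1) • e := by rw [hsy, ha, sub_smul, one_smul]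
  have haa : 0 < a * (a - 1) := by
    rw [hady, ha, dot_smul_left, dot_smul_right] at hdt
    have h2 : a * ((a - 1) * dot e e) = (a * (a - 1)) * dot e e := by ring
    rw [h2] at hdt
    exact (mul_pos_iff_of_pos_right hep).mp hdt
  have hTs : 0 < cross (deriv γ s) (x - γ s) := hs.trans hD hx hy
  have hTp : 0 < cross (deriv γ p) (x - γ p) := hps.trans hD hx hy
  have ha0 : a < 0 := by
    by_contra h2
    push Not at h2
    have h3 : 0 < a := by
      rcases h2.lt_or_eq with h | h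
      · exact h
      · rw [← h, zero_mul] at haa; exact absurd haa (lt_irrefl _)
    have h4 : Par (γ s - x) (γ p - x) := by
      rw [ha, hpx]
      have h5 : Par e (a • e) := par_of_smul he0 h3
      have h6 : Par e ((1 + c) • e) := par_of_smul he0 (by linarith)
      exact h5.symm.trans h6
    have h7 := chord_unique hD h4 (hvis s).cseg (hvis p).cseg hTs hTp
    apply hs.good.rel.1.ne_right
    change γ p - γ s = 0
    rw [h7, sub_self]
  -- perpendicularity
  have hspv : γ s - γ p = (-(1 + c - a)) • e := by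
    have : γ s - γ p = (γ s - x) - (γ p - x) := by abel
    rw [this, ha, hpx, ← sub_smul]; congr 1; ring
  have hpsv : γ p - γ s = (1 + c - a) • e := by
    have : γ p - γ s = -(γ s - γ p) := by abel
    rw [this, hspv, neg_smul, neg_neg]
  have hlen : 0 < 1 + c - a := by linarith
  have hperp_p : dot (deriv γ p) e = 0 := by
    have h2 : Par (out γ y p) (γ s - γ p) := hs.good.rel.2
    have h3 : out γ y p = c • rf (deriv γ p) e := by unfold out; rw [hpy, rf_smul]
    rw [h3, hspv] at h2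
    have h4 := h2.1
    have h5 := h2.2
    rw [cross_smul_left, cross_smul_right] at h4
    rw [dot_smul_left, dot_smul_right] at h5
    apply perp_of_rf
    · rcases mul_eq_zero.mp h4 with h6 | h6
      · exact absurd h6 hcpos.ne'
      · rcases mul_eq_zero.mp h6 with h7 | h7
        · linarith
        · exact h7
    · have h6 : c * (-(1 + c - a) * dot (rf (deriv γ p) e) e) =
        (c * (1 + c - a)) * (-dot (rf (deriv γ p) e) e) := by ring
      rw [h6] at h5
      have := (mul_pos_iff_of_pos_left (mul_pos hcpos hlen)).mp h5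
      linarith
  have hperp_s : dot (deriv γ s) e = 0 := by
    have h2 : Par (out γ x s) (γ p - γ s) := hs.good.rel.1
    have h3 : out γ x s = a • rf (deriv γ s) e := by unfold out; rw [ha, rf_smul]
    rw [h3, hpsv] at h2
    have h4 := h2.1
    have h5 := h2.2
    rw [cross_smul_left, cross_smul_right] at h4
    rw [dot_smul_left, dot_smul_right] at h5
    apply perp_of_rf
    · rcases mul_eq_zero.mp h4 with h6 | h6
      · exact absurd h6 ha0.ne
      · rcases mul_eq_zero.mp h6 with h7 | h7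
        · linarith
        · exact h7
    · have h6 : a * ((1 + c - a) * dot (rf (deriv γ s) e) e) =
        ((-a) * (1 + c - a)) * (-dot (rf (deriv γ s) e) e) := by ring
      rw [h6] at h5
      have := (mul_pos_iff_of_pos_left (mul_pos (neg_pos.mpr ha0) hlen)).mp h5
      linarith
  -- signs
  have hcp : cross (deriv γ p) e < 0 := by
    have h2 : x - γ p = (-(1 + c)) • e := by rw [neg_smul, ← hpx]; abel
    rw [h2, cross_smul_right] at hTp
    nlinarith
  have hcs : 0 < cross (deriv γ s) e := by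
    have h2 : x - γ s = (-a) • e := by rw [neg_smul, ← ha]; abel
    rw [h2, cross_smul_right] at hTs
    exact (mul_pos_iff_of_pos_left (neg_pos.mpr ha0)).mp hTs
  have hxye : x - y = -e := by rw [he]; abel
  obtain ⟨F, hF⟩ := branch_exists hγ hps.good
  obtain ⟨F₂, hF₂⟩ := branch_exists hγ hs.good
  have hF' : 0 < deriv F p := deriv_pos hγ hx hy hps.good hF
  have hF₂' : 0 < deriv F₂ s := deriv_pos hγ hx hy hs.good hF₂
  have stepA := step hγ hF hF' hF₂ (by
    rw [hpsv, cross_smul_right]; nlinarith) (by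
    rw [ha, hxye, cross_smul_left, cross_neg_right, cross_self, neg_zero, mul_zero]) (by
    rw [hxye, cross_neg_right]; linarith)
  have stepB := step hγ hF₂ hF₂' hF (by
    rw [hspv, cross_smul_right]; nlinarith) (by
    rw [hpx, hxye, cross_smul_left, cross_neg_right, cross_self, neg_zero, mul_zero]) (by
    rw [hxye, cross_neg_right]; linarith)
  -- F tends to s from the right
  have hFan : AnalyticAt ℝ F p := hF.an
  have hFs : F p = s := hF.base
  have hF₂an : AnalyticAt ℝ F₂ s := hF₂.an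
  have hF₂p : F₂ s = p := hF₂.base
  have hFt : Tendsto F (𝓝[>] p) (𝓝[>] s) := by
    rw [tendsto_nhdsWithin_iff]
    refine ⟨?_, stepA.mono fun t h => h.1⟩
    have := hFan.continuousAt.tendsto
    rw [hFs] at this
    exact this.mono_left nhdsWithin_le_nhds
  have hF₂t : Tendsto (fun t => F₂ (F t)) (𝓝[>] p) (𝓝 p) := by
    have h3 : Tendsto F₂ (𝓝 s) (𝓝 p) := by
      have := hF₂an.continuousAt.tendsto
      rwa [hF₂p] at this
    exact h3.comp (hFt.mono_right nhdsWithin_le_nhds)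
  -- F strictly increasing near p
  have hder : ∀ᶠ t in 𝓝 p, 0 < deriv F t ∧ AnalyticAt ℝ F t :=
    (hFan.deriv.continuousAt.eventually_const_lt hF').and hFan.eventually_analyticAt
  obtain ⟨ε, hε, hball⟩ := Metric.eventually_nhds_iff_ball.mp hder
  have hmono : StrictMonoOn F (Metric.ball p ε) := by
    apply strictMonoOn_of_deriv_pos (convex_ball p ε)
    · exact fun t ht => (hball t ht).2.continuousAt.continuousWithinAt
    · intro t ht
      rw [interior_eq_iff_isOpen.mpr Metric.isOpen_ball] at ht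
      exact (hball t ht).1
  have hb := Metric.ball_mem_nhds p hε
  obtain ⟨t, ⟨⟨⟨k1, k1'⟩, k2, k2'⟩, k3⟩, k4⟩ := (((stepA.and (hFt.eventually stepB)).and
    (hF₂t.eventually hb)).and (nhdsWithin_le_nhds hb)).exists
  have hA : F₂ (F t) < t := by
    rw [hxye, cross_neg_right] at k1'
    nlinarith
  have hB : F t < F (F₂ (F t)) := by
    rw [hxye, cross_neg_right] at k2'
    nlinarith
  have := hmono k3 k4 hA
  linarith

end part12

section part13

/-! ### Translation -/

variable {γ : ℝ → ℂ} {x y : ℂ} {Ω : Set ℂ}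

lemma inner_eq_dot (a b : ℂ) : inner ℝ a b = dot a b := by
  rw [Complex.inner, dot]
  simp
  ring

lemma rf_eq (τ v : ℂ) (hτ : τ ≠ 0) : rf τ v = (dot τ τ) • reflectDir τ v := by
  have h := dot_self_pos hτ
  unfold rf reflectDir
  rw [inner_eq_dot, ← dot_self, smul_sub, smul_smul, mul_div_cancel₀ _ h.ne']

lemma reflectDir_smul {τ v : ℂ} {c : ℝ} (hc : c ≠ 0) : reflectDir (c • τ) v = reflectDir τ v := by
  unfold reflectDir
  rw [inner_smul_left, norm_smul, smul_smul]
  congr 2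
  simp only [conj_trivial, Real.norm_eq_abs, mul_pow, sq_abs]
  by_cases h : ‖τ‖ = 0
  · simp [h]
  · field_simp

lemma cseg_of_segment {a b : ℂ} (h : segment ℝ a b ⊆ closure Ω) : CSeg Ω a b := by
  intro r h0 h1
  apply h
  rw [segment_eq_image']
  exact ⟨r, ⟨h0, h1⟩, rfl⟩

/-- for a non-exceptional visible transversal point the relation holds -/
lemma rel_of_weak (hD : LDom γ Ω) {t : ℝ} (hv : Vis Ω x (γ t))
    (hT : 0 < cross (deriv γ t) (x - γ t)) {ρ : ℝ} {u : ℂ} (hρ : 0 < ρ)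
    (hγt : γ t - x = ρ • u) (hW : WeaklyPassesAfterTwo γ Ω x y u) :
    ∃ f ∈ Icc (0 : ℝ) 1, Rel γ x y t f ∧ CSeg Ω x (γ t) ∧ CSeg Ω (γ t) (γ f) ∧ CSeg Ω (γ f) y := by
  have hγ := hD.curve
  obtain ⟨t₁, t₂, r₁, r₂, r₃, hr₁, hr₂, hr₃, e₁, e₂, e₃, s₁, s₂, s₃⟩ := hW
  have c₁ := cseg_of_segment s₁
  have c₂ := cseg_of_segment s₂
  have c₃ := cseg_of_segment s₃
  have e₁' : γ t₁ - x = r₁ • u := by rw [e₁, add_sub_cancel_left]
  have hscale : γ t₁ - x = (r₁ / ρ) • (γ t - x) := by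
    rw [hγt, smul_smul, div_mul_cancel₀ _ hρ.ne', e₁']
  have hr : r₁ = ρ := by
    rcases lt_trichotomy r₁ ρ with h | h | h
    · exfalso
      apply curve_notMem hD.op hD.fr t₁
      have h1 := hv (r₁ / ρ) (by positivity) ((div_lt_one hρ).mpr h)
      rw [← hscale, add_sub_cancel] at h1
      exact h1
    · exact h
    · exact (chord_le hD ((one_lt_div hρ).mpr h) hscale c₁ hT).elim
  have hγ₁ : γ t₁ = γ t := by
    rw [hr, ← hγt] at e₁'
    exact sub_left_inj.mp e₁'
  obtain ⟨k, hk⟩ := hγ.inj _ _ hγ₁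
  have hd₁ : deriv γ t₁ = deriv γ t := by rw [hk, hγ.deriv_per_int]
  rw [hd₁] at e₂ e₃
  rw [hγ₁] at e₂ c₂
  obtain ⟨l, hl⟩ := norm_param (1 / 2) t₂
  have hf : t₂ + l ∈ Icc (0 : ℝ) 1 := by
    constructor
    · have := hl.1; linarith
    · have := hl.2; linarith
  have hcx : CSeg Ω x (γ t) := by rw [← hγ₁]; exact c₁
  refine ⟨t₂ + l, hf, ?_, hcx, ?_, ?_⟩
  · have hrel : Rel γ x y t t₂ := by
      set v := reflectDir (deriv γ t) u with hvdef
      have hτ := hγ.reg t
      have hτp := dot_self_pos hτ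
      have hτ₂ := hγ.reg t₂
      have hτ₂p := dot_self_pos hτ₂
      have hout : out γ x t = (ρ * dot (deriv γ t) (deriv γ t)) • v := by
        unfold out
        rw [hγt, rf_smul, rf_eq _ _ hτ, smul_smul]
      have hv0 : v ≠ 0 := by
        intro h0
        apply out_ne_zero hγ (x := x) (fun s => ?_) t
        · rw [hout, h0, smul_zero]
        · intro h1
          -- the point x is not on the curve since it is visible along a segment
          have h2 := hv 0 le_rfl one_pos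
          rw [zero_smul, add_zero] at h2
          apply curve_notMem hD.op hD.fr s
          rw [h1]; exact h2
      constructor
      · have h1 : γ t₂ - γ t = r₂ • v := by rw [e₂, add_sub_cancel_left]
        rw [hout, h1]
        exact (par_of_smul hv0 (by positivity)).symm.trans (par_of_smul hv0 hr₂)
      · have h1 : γ t - γ t₂ = -(r₂ • v) := by rw [e₂]; abel
        have h2 : γ t₂ - y = -(r₃ • reflectDir (deriv γ t₂) v) := by
          have : γ t₂ - y = -(y - γ t₂) := by abel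
          rw [this]; congr 1
          nth_rewrite 1 [e₃]
          rw [add_sub_cancel_left]
        have h3 : out γ y t₂ = (r₃ * dot (deriv γ t₂) (deriv γ t₂)) • (-v) := by
          unfold out
          rw [h2, rf_neg, rf_smul]
          have h4 : rf (deriv γ t₂) (reflectDir (deriv γ t₂) v) =
              (dot (deriv γ t₂) (deriv γ t₂)) • v := by
            have h5 := rf_rf (deriv γ t₂) v
            rw [rf_eq _ v hτ₂, rf_smul] at h5
            have h6 : (dot (deriv γ t₂) (deriv γ t₂))⁻¹ • ((dot (deriv γ t₂) (deriv γ t₂)) •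
              rf (deriv γ t₂) (reflectDir (deriv γ t₂) v)) = rf (deriv γ t₂) (reflectDir (deriv γ t₂) v) := by
              rw [smul_smul, inv_mul_cancel₀ hτ₂p.ne', one_smul]
            rw [← h6, h5, smul_smul]
            congr 1
            field_simp
          rw [h4, smul_smul, smul_neg]
        have hv0' : -v ≠ 0 := neg_ne_zero.mpr hv0
        rw [h3, h1, ← smul_neg]
        exact (par_of_smul hv0' (by positivity)).symm.trans (par_of_smul hv0' hr₂)
    have := (Rel.shift (x := x) (y := y) hγ (t := t) (f := t₂) 0 l).mpr hrel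
    simpa using this
  · rw [hγ.per_int]; exact c₂
  · rw [hγ.per_int]; exact c₃


/-- relation with closed segments (no accumulation nor length condition) -/
def Pre (γ : ℝ → ℂ) (Ω : Set ℂ) (x y : ℂ) (t f : ℝ) : Prop :=
  Rel γ x y t f ∧ CSeg Ω x (γ t) ∧ CSeg Ω (γ t) (γ f) ∧ CSeg Ω (γ f) y

lemma not_par_reflect {τ X : ℂ} (h : Par X (rf τ X)) : cross X τ = 0 := by
  have h1 : cross X (rf τ X) = 2 * dot τ X * cross X τ := by
    simp only [rf, cross, dot, Complex.sub_re, Complex.sub_im, Complex.smul_re, Complex.smul_im,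
      smul_eq_mul]
    ring
  have h2 : dot X (rf τ X) = 2 * (dot τ X) ^ 2 - dot τ τ * dot X X := by
    simp only [rf, dot, Complex.sub_re, Complex.sub_im, Complex.smul_re, Complex.smul_im,
      smul_eq_mul]
    ring
  have h3 := h.1
  have h4 := h.2
  rw [h1] at h3
  rcases mul_eq_zero.mp h3 with h5 | h5
  · exfalso
    have h6 : dot τ X = 0 := by linarith
    rw [h2, h6] at h4
    have h7 : 0 ≤ dot τ τ := by rw [dot_self]; positivity
    have h8 : 0 ≤ dot X X := by rw [dot_self]; positivity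
    have := mul_nonneg h7 h8
    norm_num at h4
    linarith
  · exact h5

/-- limits of relation pairs at visible transversal points -/
lemma limit_pre (hD : LDom γ Ω) (hxΩ : x ∈ Ω) (hyΩ : y ∈ Ω) {t : ℝ}
    (hT : 0 < cross (deriv γ t) (x - γ t)) {u f : ℕ → ℝ} {g : ℝ}
    (hu : Tendsto u atTop (𝓝 t)) (hut : ∀ n, u n ≠ t) (hf : Tendsto f atTop (𝓝 g))
    (hP : ∀ n, Pre γ Ω x y (u n) (f n)) : RR γ Ω x y t g := by
  have hγ := hD.curve
  have hx : ∀ t, γ t ≠ x := ne_of_mem hD hxΩ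
  have hy : ∀ t, γ t ≠ y := ne_of_mem hD hyΩ
  have lγu : Tendsto (fun n => γ (u n)) atTop (𝓝 (γ t)) := (hγ.cont.tendsto t).comp hu
  have lγf : Tendsto (fun n => γ (f n)) atTop (𝓝 (γ g)) := (hγ.cont.tendsto g).comp hf
  have lout : Tendsto (fun n => out γ x (u n)) atTop (𝓝 (out γ x t)) :=
    ((hγ.cont_out x).tendsto t).comp hu
  have ho0 : out γ x t ≠ 0 := out_ne_zero hγ hx t
  have hop := dot_self_pos ho0
  have hτp := dot_self_pos (hγ.reg t)
  have lcross : ∀ {a b : ℕ → ℂ} {a' b' : ℂ}, Tendsto a atTop (𝓝 a') → Tendsto b atTop (𝓝 b') →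
      Tendsto (fun n => cross (a n) (b n)) atTop (𝓝 (cross a' b')) := by
    intro a b a' b' ha hb
    have hc : ContinuousAt (fun z : ℂ × ℂ => cross z.1 z.2) (a', b') :=
      cont_cross continuousAt_fst continuousAt_snd
    exact hc.tendsto.comp (ha.prodMk_nhds hb)
  have ldot : ∀ {a b : ℕ → ℂ} {a' b' : ℂ}, Tendsto a atTop (𝓝 a') → Tendsto b atTop (𝓝 b') →
      Tendsto (fun n => dot (a n) (b n)) atTop (𝓝 (dot a' b')) := by
    intro a b a' b' ha hb
    have hc : ContinuousAt (fun z : ℂ × ℂ => dot z.1 z.2) (a', b') :=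
      cont_dot continuousAt_fst continuousAt_snd
    exact hc.tendsto.comp (ha.prodMk_nhds hb)
  -- the limit chord is not degenerate
  have hne : γ g ≠ γ t := by
    intro heq
    have hTo : 0 < cross (deriv γ t) (out γ x t) := by
      unfold out
      rw [cross_tau_rf]
      have h3 : cross (deriv γ t) (γ t - x) = - cross (deriv γ t) (x - γ t) := by
        simp [cross]; ring
      rw [h3]
      have : -dot (deriv γ t) (deriv γ t) * -cross (deriv γ t) (x - γ t) =
        dot (deriv γ t) (deriv γ t) * cross (deriv γ t) (x - γ t) := by ring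
      rw [this]; positivity
    have hside := hD.inn (t, out γ x t) hTo
    set l : ℕ → ℝ := fun n => dot (out γ x (u n)) (γ (f n) - γ (u n)) /
      dot (out γ x (u n)) (out γ x (u n)) with hl
    have hlim : Tendsto l atTop (𝓝 0) := by
      have h1 : Tendsto l atTop (𝓝 (dot (out γ x t) (γ g - γ t) / dot (out γ x t) (out γ x t))) :=
        (ldot lout (lγf.sub lγu)).div (ldot lout lout) hop.ne'
      have h2 : dot (out γ x t) (γ g - γ t) / dot (out γ x t) (out γ x t) = 0 := by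
        rw [heq, sub_self]; simp [dot]
      rwa [h2] at h1
    have h3 : Tendsto (fun n => ((u n, out γ x (u n), l n) : ℝ × ℂ × ℝ)) atTop
        (𝓝 (t, out γ x t, 0)) := hu.prodMk_nhds (lout.prodMk_nhds hlim)
    obtain ⟨n, hn⟩ := (h3.eventually hside).exists
    have h4 : γ (f n) - γ (u n) = l n • out γ x (u n) :=
      eq_smul_of_cross (hP n).1.1.ne_left (hP n).1.1.1
    have h5 := hn (div_pos (hP n).1.1.2 (dot_self_pos (hP n).1.1.ne_left))
    have h6 : γ (u n) + l n • out γ x (u n) = γ (f n) := by rw [← h4]; abel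
    simp only at h5
    rw [h6] at h5
    exact curve_notMem hD.op hD.fr _ h5
  have hD0 : γ g - γ t ≠ 0 := sub_ne_zero.mpr hne
  have hcr0 : cross (out γ x t) (γ g - γ t) = 0 := by
    have h1 := lcross lout (lγf.sub lγu)
    refine tendsto_nhds_unique h1 ?_
    have h2 : (fun n => cross (out γ x (u n)) (γ (f n) - γ (u n))) = fun _ => 0 := by
      funext n; exact (hP n).1.1.1
    rw [h2]; exact tendsto_const_nhds
  have hdt0 : 0 ≤ dot (out γ x t) (γ g - γ t) :=
    ge_of_tendsto' (ldot lout (lγf.sub lγu)) fun n => (hP n).1.1.2.le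
  have hpar : Par (out γ x t) (γ g - γ t) := par_of_limit ho0 hD0 hcr0 hdt0
  have hlen : ‖x - y‖ < Len γ x y t g := by
    by_contra hcon
    push Not at hcon
    have h1 : ‖γ t - x‖ + ‖γ g - γ t‖ ≤ ‖(γ t - x) + (γ g - γ t)‖ := by
      have h2 : ‖x - y‖ ≤ ‖x - γ g‖ + ‖γ g - y‖ := norm_sub_le_norm_sub_add_norm_sub _ _ _
      have h3 : ‖(γ t - x) + (γ g - γ t)‖ = ‖x - γ g‖ := by
        rw [norm_sub_rev x (γ g)]; congr 1; abel
      rw [h3]
      unfold Len at hcon
      linarith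
    have hX0 : γ t - x ≠ 0 := sub_ne_zero.mpr (hx t)
    have hsq : dot ((γ t - x) + (γ g - γ t)) ((γ t - x) + (γ g - γ t)) =
        dot (γ t - x) (γ t - x) + 2 * dot (γ t - x) (γ g - γ t) + dot (γ g - γ t) (γ g - γ t) := by
      simp only [dot, Complex.add_re, Complex.add_im]; ring
    have hnX : 0 < ‖γ t - x‖ := norm_pos_iff.mpr hX0
    have hnD : 0 < ‖γ g - γ t‖ := norm_pos_iff.mpr hD0
    have h4 : ‖γ t - x‖ * ‖γ g - γ t‖ ≤ dot (γ t - x) (γ g - γ t) := by
      have h5 : (‖γ t - x‖ + ‖γ g - γ t‖) ^ 2 ≤ ‖(γ t - x) + (γ g - γ t)‖ ^ 2 :=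
        pow_le_pow_left₀ (by positivity) h1 2
      rw [← dot_self, hsq, dot_self, dot_self] at h5
      nlinarith
    have hlag := lagrange (γ t - x) (γ g - γ t)
    rw [dot_self, dot_self] at hlag
    have h6 : (‖γ t - x‖ * ‖γ g - γ t‖) ^ 2 ≤ dot (γ t - x) (γ g - γ t) ^ 2 :=
      pow_le_pow_left₀ (by positivity) h4 2
    have h7 : cross (γ t - x) (γ g - γ t) ^ 2 = 0 := by
      have := sq_nonneg (cross (γ t - x) (γ g - γ t))
      nlinarith
    have h8 : Par (γ t - x) (γ g - γ t) :=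
      ⟨pow_eq_zero_iff two_ne_zero |>.mp h7, lt_of_lt_of_le (mul_pos hnX hnD) h4⟩
    have h9 := not_par_reflect (h8.trans hpar.symm)
    have h10 : cross (deriv γ t) (x - γ t) = cross (γ t - x) (deriv γ t) := by
      simp [cross]; ring
    rw [h10, h9] at hT
    exact lt_irrefl _ hT
  have hrel : Rel γ x y t g :=
    limit_rel (z := fun n => ((u n, f n) : ℝ × ℝ)) (w := (t, g)) hγ hx hy (fun n => (hP n).1)
      (hu.prodMk_nhds hf) hlen
  refine ⟨⟨hrel, ?_, hlen⟩, ?_, ?_, ?_⟩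
  · rw [accPt_iff_frequently]
    have h1 : Tendsto (fun n => ((u n, f n) : ℝ × ℝ)) atTop (𝓝 (t, g)) := hu.prodMk_nhds hf
    refine h1.frequently (Eventually.of_forall fun n => ?_).frequently
    refine ⟨fun h2 => hut n (congrArg Prod.fst h2), (hP n).1⟩
  · exact cseg_limit (fun n => (hP n).2.1) tendsto_const_nhds lγu
  · exact cseg_limit (fun n => (hP n).2.2.1) lγu lγf
  · exact cseg_limit (fun n => (hP n).2.2.2) lγf tendsto_const_nhds

lemma main_core (hD : LDom γ Ω) (hxΩ : x ∈ Ω) (hyΩ : y ∈ Ω) (hxy : x ≠ y) {E : Set ℂ}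
    (hE : E.Finite) (hW : ∀ u : ℂ, ‖u‖ = 1 → u ∉ E → WeaklyPassesAfterTwo γ Ω x y u) : False := by
  have hγ := hD.curve
  have hx : ∀ t, γ t ≠ x := ne_of_mem hD hxΩ
  have hK : ∀ t, Vis Ω x (γ t) → 0 < cross (deriv γ t) (x - γ t) →
      ∃ f ∈ Icc (0 : ℝ) 1, RR γ Ω x y t f := by
    intro t hv hT
    -- exceptional directions are isolated
    have h1 : ∀ u ∈ E, ∀ᶠ s in 𝓝[≠] t, (‖γ s - x‖)⁻¹ • (γ s - x) ≠ u := by
      intro u _
      by_cases hu0 : u = 0
      · filter_upwards with s h2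
        rw [hu0] at h2
        rcases smul_eq_zero.mp h2 with h3 | h3
        · have := norm_pos_iff.mpr (sub_ne_zero.mpr (hx s))
          exact (inv_pos.mpr this).ne' h3
        · exact hx s (sub_eq_zero.mp h3)
      · have han : AnalyticAt ℝ (fun s => cross u (γ s - x)) t :=
          an_cross analyticAt_const ((hγ.an t).sub analyticAt_const)
        rcases han.eventually_eq_zero_or_eventually_ne_zero with h | h
        · exact absurd h (not_line hγ hu0 t)
        · filter_upwards [h] with s h2 h3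
          apply h2
          rw [← h3, cross_smul_left, cross_self, mul_zero]
    have h2 : ∀ᶠ s in 𝓝[≠] t, ∀ u ∈ E, (‖γ s - x‖)⁻¹ • (γ s - x) ≠ u :=
      (eventually_all_finite hE).mpr h1
    have h3 : ∀ᶠ s in 𝓝[≠] t, Vis Ω x (γ s) ∧ 0 < cross (deriv γ s) (x - γ s) :=
      (vt_open hD hxΩ hv hT).filter_mono nhdsWithin_le_nhds
    have h4 : ∃ᶠ s in 𝓝 t, s ≠ t ∧ ∃ f ∈ Icc (0 : ℝ) 1, Pre γ Ω x y s f := by
      have h5 : ∃ᶠ s in 𝓝[≠] t, ∃ f ∈ Icc (0 : ℝ) 1, Pre γ Ω x y s f := by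
        apply Eventually.frequently
        filter_upwards [h2, h3] with s h6 h7
        have hn : 0 < ‖γ s - x‖ := norm_pos_iff.mpr (sub_ne_zero.mpr (hx s))
        have hnorm : ‖(‖γ s - x‖)⁻¹ • (γ s - x)‖ = 1 := by
          rw [norm_smul, norm_inv, norm_norm, inv_mul_cancel₀ hn.ne']
        have hnot : (‖γ s - x‖)⁻¹ • (γ s - x) ∉ E := fun h8 => h6 _ h8 rfl
        have h9 := hW _ hnorm hnot
        have h10 : γ s - x = ‖γ s - x‖ • ((‖γ s - x‖)⁻¹ • (γ s - x)) := by
          rw [smul_smul, mul_inv_cancel₀ hn.ne', one_smul]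
        exact rel_of_weak hD h7.1 h7.2 hn h10 h9
      rw [frequently_nhdsWithin_iff] at h5
      exact h5.mono fun s h => ⟨h.2, h.1⟩
    obtain ⟨u, hu, hun⟩ := exists_seq_forall_of_frequently h4
    choose hut f hfI hfP using hun
    obtain ⟨g, hgI, φ, hφ, hlim⟩ := isCompact_Icc.tendsto_subseq hfI
    exact ⟨g, hgI, limit_pre hD hxΩ hyΩ hT (hu.comp hφ.tendsto_atTop) (fun n => hut (φ n)) hlim
      (fun n => hfP (φ n))⟩
  have hvis := vis_all hD hxΩ hyΩ hK
  have hall : ∀ t, ∃ f, RR γ Ω x y t f := by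
    intro t
    obtain ⟨f, -, hf⟩ := hK t (hvis t) (vis_trans hD hxΩ hyΩ hK (hvis t))
    exact ⟨f, hf⟩
  exact final hD hxΩ hyΩ hxy hall hvis

/-! ### Reduction to period one and to the standard orientation -/

lemma rescale {T : ℝ} (h : AnalyticClosedCurve γ T) :
    Curve (fun t => γ (T * t)) ∧ ∀ t, deriv (fun t => γ (T * t)) t = T • deriv γ (T * t) := by
  have hT := h.period_pos
  have hd : ∀ t, deriv (fun t => γ (T * t)) t = T • deriv γ (T * t) := by
    intro t
    exact deriv_comp_mul_left T γ t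
  refine ⟨⟨?_, ?_, ?_, ?_⟩, hd⟩
  · intro t
    exact AnalyticAt.fun_comp (h.analytic (T * t)) (analyticAt_const.mul analyticAt_id)
  · intro t
    have := h.periodic (T * t)
    rw [mul_add, mul_one]
    exact this
  · intro t
    rw [hd]
    exact smul_ne_zero hT.ne' (h.regular _)
  · intro s t hst
    have key : ∀ s, γ (T * s) = γ (T * Int.fract s) := by
      intro s
      have h1 : T * s = T * Int.fract s + ⌊s⌋ * T := by
        nth_rewrite 1 [← Int.fract_add_floor s]; ring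
      rw [h1]
      exact h.periodic.int_mul ⌊s⌋ _
    have hmem : ∀ s, T * Int.fract s ∈ Ico 0 T := by
      intro s
      have h1 := Int.fract_nonneg s
      have h2 := Int.fract_lt_one s
      exact ⟨by positivity, by nlinarith⟩
    have h1 : γ (T * Int.fract s) = γ (T * Int.fract t) := by
      rw [← key, ← key]; exact hst
    have h2 := h.simple (hmem s) (hmem t) h1
    have h3 : Int.fract s = Int.fract t := mul_left_cancel₀ hT.ne' h2
    refine ⟨⌊s⌋ - ⌊t⌋, ?_⟩
    have h4 := Int.fract_add_floor s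
    have h5 := Int.fract_add_floor t
    push_cast
    linarith

lemma weak_transfer {δ : ℝ → ℂ} (h : ∀ t, ∃ s, δ s = γ t ∧ ∃ c : ℝ, c ≠ 0 ∧ deriv δ s = c • deriv γ t)
    {u : ℂ} (hW : WeaklyPassesAfterTwo γ Ω x y u) : WeaklyPassesAfterTwo δ Ω x y u := by
  obtain ⟨t₁, t₂, r₁, r₂, r₃, hr₁, hr₂, hr₃, e₁, e₂, e₃, s₁, s₂, s₃⟩ := hW
  obtain ⟨a, ha, c, hc, hca⟩ := h t₁
  obtain ⟨b, hb, d, hd, hdb⟩ := h t₂
  refine ⟨a, b, r₁, r₂, r₃, hr₁, hr₂, hr₃, ?_⟩
  rw [ha, hb, hca, hdb, reflectDir_smul hc, reflectDir_smul hd]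
  exact ⟨e₁, e₂, e₃, s₁, s₂, s₃⟩

lemma weakly_of_passes {u : ℂ}
    (h : PassesAfterTwo γ Ω x y u) : WeaklyPassesAfterTwo γ Ω x y u := by
  obtain ⟨t₁, t₂, r₁, r₂, r₃, hr₁, hr₂, hr₃, e₁, e₂, e₃, s₁, s₂, s₃⟩ := h
  have hseg : ∀ {a b : ℂ}, openSegment ℝ a b ⊆ Ω → segment ℝ a b ⊆ closure Ω := by
    intro a b h1
    rw [← closure_openSegment]
    exact closure_mono h1
  exact ⟨t₁, t₂, r₁, r₂, r₃, hr₁, hr₂, hr₃, e₁, e₂, e₃, hseg s₁, hseg s₂, hseg s₃⟩

/-- Sanity check of the definitions: a circle focuses its centre onto itself after two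
reflections (the known case `x = y`). -/
theorem circle_focuses_centre :
    AnalyticClosedCurve (fun t : ℝ => Complex.exp (t * Complex.I)) (2 * Real.pi) ∧
    BoundedRegionOf (fun t : ℝ => Complex.exp (t * Complex.I)) (Metric.ball 0 1) ∧
    FocusesAfterTwo (fun t : ℝ => Complex.exp (t * Complex.I)) (Metric.ball 0 1) 0 0 := by
  have hrange : range (fun t : ℝ => Complex.exp (t * Complex.I)) = Metric.sphere 0 1 := by
    ext z
    constructor
    · rintro ⟨t, rfl⟩
      simp [Complex.norm_exp_ofReal_mul_I]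
    · intro hz
      refine ⟨Complex.arg z, ?_⟩
      have h1 := Complex.norm_mul_exp_arg_mul_I z
      rw [mem_sphere_zero_iff_norm] at hz
      rw [hz] at h1
      simpa using h1
  have hd : ∀ t : ℝ, HasDerivAt (fun t : ℝ => Complex.exp (t * Complex.I))
      (Complex.I * Complex.exp (t * Complex.I)) t := by
    intro t
    have h1 : HasDerivAt (fun t : ℝ => (t : ℂ) * Complex.I) Complex.I t := by
      have := (Complex.ofRealCLM.hasDerivAt (x := t)).mul_const Complex.I
      simpa using this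
    have h2 := h1.cexp
    rwa [mul_comm] at h2
  refine ⟨⟨by positivity, ?_, ?_, ?_, ?_⟩, ⟨Metric.isOpen_ball, ?_, Metric.isBounded_ball, ?_⟩, ?_⟩
  · intro t
    have h1 : AnalyticAt ℝ (fun t : ℝ => (t : ℂ) * Complex.I) t :=
      (Complex.ofRealCLM.analyticAt t).mul analyticAt_const
    have h2 : AnalyticAt ℝ Complex.exp ((t : ℂ) * Complex.I) :=
      (analyticAt_cexp (z := (t : ℂ) * Complex.I)).restrictScalars
    exact AnalyticAt.fun_comp h2 h1
  · intro t
    change Complex.exp (((t + 2 * Real.pi : ℝ) : ℂ) * Complex.I) = Complex.exp (t * Complex.I)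
    have : (((t + 2 * Real.pi : ℝ) : ℂ) * Complex.I) = t * Complex.I + 2 * Real.pi * Complex.I := by
      push_cast; ring
    rw [this, Complex.exp_add, Complex.exp_two_pi_mul_I, mul_one]
  · intro t
    rw [(hd t).deriv]
    exact mul_ne_zero Complex.I_ne_zero (Complex.exp_ne_zero _)
  · intro s hs t ht hst
    simp only at hst
    rw [Complex.exp_eq_exp_iff_exists_int] at hst
    obtain ⟨n, hn⟩ := hst
    have h1 := congrArg Complex.im hn
    simp at h1
    have h2 : (-1 : ℝ) < n := by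
      by_contra h3
      push Not at h3
      have := hs.1; have := ht.2
      nlinarith [Real.pi_pos]
    have h3 : (n : ℝ) < 1 := by
      by_contra h3
      push Not at h3
      have := hs.2; have := ht.1
      nlinarith [Real.pi_pos]
    have h4 : n = 0 := by
      have h5 : -1 < n := by exact_mod_cast h2
      have h6 : n < 1 := by exact_mod_cast h3
      omega
    rw [h4] at h1
    simpa using h1
  · exact (convex_ball (0 : ℂ) 1).isConnected (Metric.nonempty_ball.mpr one_pos)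
  · rw [hrange]
    exact frontier_ball 0 one_ne_zero
  · intro u hu
    have hu' : Complex.exp (Complex.arg u * Complex.I) = u := by
      have h1 := Complex.norm_mul_exp_arg_mul_I u
      rw [hu] at h1
      simpa using h1
    have hrefl : ∀ v : ℂ, ‖v‖ = 1 → reflectDir (Complex.I * v) v = -v := by
      intro v hv
      unfold reflectDir
      have : inner ℝ (Complex.I * v) v = (0 : ℝ) := by
        rw [inner_eq_dot]; simp [dot]; ring
      rw [this]
      simp
    have hrefl' : reflectDir (Complex.I * (-u)) (-u) = u := by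
      have := hrefl (-u) (by simpa using hu)
      rwa [neg_neg] at this
    have hpi : Complex.exp (((Complex.arg u + Real.pi : ℝ) : ℂ) * Complex.I) = -u := by
      have : (((Complex.arg u + Real.pi : ℝ) : ℂ) * Complex.I) =
        Complex.arg u * Complex.I + Real.pi * Complex.I := by push_cast; ring
      rw [this, Complex.exp_add, hu', Complex.exp_pi_mul_I]; ring
    refine ⟨Complex.arg u, Complex.arg u + Real.pi, 1, 2, 1, one_pos, two_pos, one_pos, ?_⟩
    simp only [(hd _).deriv, hu', hpi, hrefl u hu, hrefl']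
    have hseg : ∀ a b : ℂ, ‖a‖ ≤ 1 → ‖b‖ ≤ 1 → a ≠ b → openSegment ℝ a b ⊆ Metric.ball 0 1 := by
      intro a b ha hb hab
      have h1 : openSegment ℝ a b ⊆ interior (Metric.closedBall (0 : ℂ) 1) :=
        (strictConvex_closedBall ℝ (0 : ℂ) 1).openSegment_subset
          (by simpa using ha) (by simpa using hb) hab
      rwa [interior_closedBall (0 : ℂ) one_ne_zero] at h1
    have hu0 : u ≠ 0 := by rintro rfl; simp at hu
    refine ⟨by simp, ?_, by simp, ?_, ?_, ?_⟩
    · simp only [smul_neg, two_smul]; ring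
    · exact hseg _ _ (by simp) hu.le hu0.symm
    · refine hseg _ _ hu.le (by simpa using hu.le) ?_
      intro h
      have h2 : (2 : ℂ) * u = 0 := by linear_combination h
      rcases mul_eq_zero.mp h2 with h3 | h3
      · norm_num at h3
      · exact hu0 h3
    · exact hseg _ _ (by simpa using hu.le) (by simp) (neg_ne_zero.mpr hu0)

/-- **No closed analytic curve focuses a point onto a different point after two reflections.** -/
theorem result (γ : ℝ → ℂ) (T : ℝ) (hγ : AnalyticClosedCurve γ T) (Ω : Set ℂ)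
    (hΩ : BoundedRegionOf γ Ω) (x y : ℂ) (hx : x ∈ Ω) (hy : y ∈ Ω) (hxy : x ≠ y) :
    ¬ FocusesAfterTwo γ Ω x y ∧
      {u : ℂ | ‖u‖ = 1 ∧ ¬ WeaklyPassesAfterTwo γ Ω x y u}.Infinite := by
  have key : {u : ℂ | ‖u‖ = 1 ∧ ¬ WeaklyPassesAfterTwo γ Ω x y u}.Infinite := by
    intro hfin
    obtain ⟨hc, hdc⟩ := rescale hγ
    have hW : ∀ u : ℂ, ‖u‖ = 1 → u ∉ {u : ℂ | ‖u‖ = 1 ∧ ¬ WeaklyPassesAfterTwo γ Ω x y u} →
        WeaklyPassesAfterTwo γ Ω x y u := by
      intro u hu h1
      by_contra h2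
      exact h1 ⟨hu, h2⟩
    have hT := hγ.period_pos
    have hfr : frontier Ω = range (fun t => γ (T * t)) := by
      rw [hΩ.frontier_eq]
      ext z
      constructor
      · rintro ⟨s, rfl⟩
        exact ⟨s / T, by simp only [mul_div_cancel₀ _ hT.ne']⟩
      · rintro ⟨s, rfl⟩
        exact ⟨T * s, rfl⟩
    rcases orient hc hΩ.isOpen hfr hΩ.isBounded hx with hD | hD
    · refine main_core hD hx hy hxy hfin fun u hu h1 => weak_transfer (γ := γ) ?_ (hW u hu h1)
      intro t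
      refine ⟨t / T, by simp only [mul_div_cancel₀ _ hT.ne'], T, hT.ne', ?_⟩
      rw [hdc, mul_div_cancel₀ _ hT.ne']
    · refine main_core hD hx hy hxy hfin fun u hu h1 => weak_transfer (γ := γ) ?_ (hW u hu h1)
      intro t
      refine ⟨-(t / T), by simp only [neg_neg, mul_div_cancel₀ _ hT.ne'], -T, neg_ne_zero.mpr hT.ne', ?_⟩
      rw [hc.reverse.2, neg_neg, hdc, mul_div_cancel₀ _ hT.ne', neg_smul]
  refine ⟨fun hF => ?_, key⟩
  obtain ⟨u, hu, hnot⟩ := key.nonempty
  exact hnot (weakly_of_passes (hF u hu))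

end part13

end Pool.Agent.Results.MP_3080d1_gt.NoTwoReflectionFocus
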